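import Pool.Agent.Lib.MP_42de19_nt.Quar.Coord

set_option autoImplicit false

/-! All rational points special: `K ∩ S` is the part in `S` of a finite union of rational
subspaces. -/

namespace Pool.Agent.Lib.MP42.Quar

open Topology Filter Set
open Pool.Agent.Lib.MP42.CubicHyp (castV ratV dense_ratV)

section sp

variable {V : Type*} [NormedAddCommGroup V] [NormedSpace ℝ V] (D : QuarData V)

/-- two special points -/
private theorem sp_lemma {P R : V} (hP : D.F P ≠ 0) (h1 : D.A P R = 0) (h2 : D.A R P = 0) :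
    D.c1 P R * D.A4 P R * (2 * D.c1 P R * D.c1 R P - D.F P * D.F R) = 0 := by
  have e1 : D.c3 P R = D.c1 R P := by
    unfold QuarData.c3 QuarData.c1
    rw [D.s12 P R R R, D.s23 R P R R, D.s34 R R P R]
  have e3 : D.c3 R P = D.c1 P R := by
    unfold QuarData.c3 QuarData.c1
    rw [D.s12 R P P P, D.s23 P R P P, D.s34 P P R P]
  have e2 : D.c2 R P = D.c2 P R := by
    unfold QuarData.c2
    rw [D.s23 R R P P, D.s12 R P R P, D.s34 P R R P, D.s23 P R P R]
  unfold QuarData.A at h1 h2
  rw [e1] at h1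
  rw [e3, e2] at h2
  unfold QuarData.A4 QuarData.M
  generalize D.F P = p0 at *
  generalize D.F R = r0 at *
  generalize D.c1 P R = b1 at *
  generalize D.c2 P R = b2 at *
  generalize D.c1 R P = b3 at *
  have hb : b3 = b1 * (3 * p0 * b2 - 2 * b1 ^ 2) / p0 ^ 2 := by
    field_simp
    linear_combination h1
  have h3 : p0 ^ 4 * (r0 ^ 2 * b1 - 3 * r0 * b3 * b2 + 2 * b3 ^ 3) +
      b1 * (p0 ^ 3 * r0 - (3 * p0 * b2 - 2 * b1 ^ 2) ^ 2) * (2 * b1 * b3 - p0 * r0) = 0 := by
    rw [hb]
    field_simp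
    ring
  rw [h2] at h3
  linear_combination h3

end sp

/-! ### evaluation of polynomials along rational lines -/

private theorem exists_shift {N : ℕ} (g : MvPolynomial (Fin N) ℚ) {P : Fin N → ℝ} (hP : P ∈ ratV N)
    (b : ℚ) : ∃ g' : MvPolynomial (Fin N) ℚ, ∀ x : Fin N → ℝ,
      MvPolynomial.aeval x g' = MvPolynomial.aeval (x + (b : ℝ) • P) g := by
  obtain ⟨q, rfl⟩ := hP
  refine ⟨MvPolynomial.bind₁ (fun i => MvPolynomial.X i + MvPolynomial.C (b * q i)) g, fun x => ?_⟩
  rw [MvPolynomial.aeval_bind₁]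
  congr 2
  funext i
  simp [castV]

private theorem exists_line {N : ℕ} (g : MvPolynomial (Fin N) ℚ) (R P : Fin N → ℝ) :
    ∃ p : Polynomial ℝ, ∀ t : ℝ, p.eval t = MvPolynomial.aeval (R + t • P) g := by
  refine ⟨MvPolynomial.aeval (fun i => Polynomial.C (R i) + Polynomial.X * Polynomial.C (P i)) g,
    fun t => ?_⟩
  have h := MvPolynomial.comp_aeval_apply
    (fun i => Polynomial.C (R i) + Polynomial.X * Polynomial.C (P i))
    ((Polynomial.aeval t : Polynomial ℝ →ₐ[ℝ] ℝ).restrictScalars ℚ) g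
  rw [AlgHom.restrictScalars_apply, Polynomial.coe_aeval_eq_eval] at h
  rw [h]
  congr 2
  funext i
  simp
  ring

/-- A rational polynomial in `t` which is zero at all rational `t` -/
private theorem poly_eq_zero {p : Polynomial ℝ} (h : ∀ b : ℚ, p.eval (b : ℝ) = 0) : p = 0 := by
  refine Polynomial.eq_zero_of_infinite_isRoot p ?_
  refine Set.Infinite.mono (s := Set.range (fun b : ℚ => (b : ℝ))) ?_ ?_
  · rintro _ ⟨b, rfl⟩
    exact h b
  · exact Set.infinite_range_of_injective Rat.cast_injective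

/-! ### closures of rational subspaces -/

private theorem sa_closure_sub {N : ℕ} (M : Submodule ℚ (Fin N → ℚ)) :
    SA (evR N) (closure (castV '' (M : Set (Fin N → ℚ)))) := by
  classical
  obtain ⟨π, hπ1, hπ2⟩ : ∃ π : (Fin N → ℚ) →ₗ[ℚ] (Fin N → ℚ), (∀ v, π v ∈ M) ∧
      ∀ v ∈ M, π v = v := by
    obtain ⟨g, hg⟩ := LinearMap.exists_extend (LinearMap.id : M →ₗ[ℚ] M)
    refine ⟨M.subtype ∘ₗ g, fun v => (g v).2, fun v hv => ?_⟩
    have := LinearMap.congr_fun hg ⟨v, hv⟩
    rw [LinearMap.comp_apply, LinearMap.id_apply] at this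
    show ((g v : M) : Fin N → ℚ) = v
    have h2 : g v = ⟨v, hv⟩ := this
    rw [h2]
  -- the real extension of the projection
  let pr : (Fin N → ℝ) → (Fin N → ℝ) := fun x i =>
    ∑ j, ((π (Pi.single j 1) i : ℚ) : ℝ) * x j
  have hprc : Continuous pr := by
    refine continuous_pi fun i => ?_
    exact continuous_finsetSum _ fun j _ => continuous_const.mul (continuous_apply j)
  have hpr : ∀ q : Fin N → ℚ, pr (castV q) = castV (π q) := by
    intro q
    funext i
    have hq : q = ∑ j, q j • (Pi.single j (1 : ℚ) : Fin N → ℚ) := by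
      funext k
      simp [Finset.sum_apply, Pi.single_apply]
    have h1 : π q i = ∑ j, π (Pi.single j 1) i * q j := by
      conv_lhs => rw [hq]
      rw [map_sum, Finset.sum_apply]
      refine Finset.sum_congr rfl fun j _ => ?_
      rw [map_smul, Pi.smul_apply, smul_eq_mul, mul_comm]
    show ∑ j, ((π (Pi.single j 1) i : ℚ) : ℝ) * ((q j : ℚ) : ℝ) = ((π q i : ℚ) : ℝ)
    rw [h1]
    push_cast
    rfl
  have hset : closure (castV '' (M : Set (Fin N → ℚ))) = ⋂ i : Fin N, {x | x i - pr x i = 0} := by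
    apply Set.Subset.antisymm
    · refine closure_minimal ?_ ?_
      · rintro _ ⟨q, hq, rfl⟩
        rw [Set.mem_iInter]
        intro i
        show castV q i - pr (castV q) i = 0
        rw [hpr, hπ2 q hq, sub_self]
      · refine isClosed_iInter fun i => ?_
        exact isClosed_eq ((continuous_apply i).sub ((continuous_apply i).comp hprc))
          continuous_const
    · intro x hx
      rw [Set.mem_iInter] at hx
      have hx' : pr x = x := by
        funext i
        have := hx i
        exact (sub_eq_zero.mp this).symm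
      have h1 : x ∈ closure (ratV N : Set (Fin N → ℝ)) := dense_ratV N x
      have h2 := map_mem_closure hprc h1 (t := castV '' (M : Set (Fin N → ℚ))) (by
        rintro _ ⟨q, rfl⟩
        exact ⟨π q, hπ1 q, (hpr q).symm⟩)
      rwa [hx'] at h2
  rw [hset]
  refine SA.iInter_finite _ fun i => ?_
  have hp : CubicHyp.IsPoly (fun x : Fin N → ℝ => x i - pr x i) := by
    refine (CubicHyp.IsPoly.coord i).sub ?_
    exact CubicHyp.IsPoly.sum Finset.univ fun j _ => (CubicHyp.IsPoly.const (π (Pi.single j 1) i)).mul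
      (CubicHyp.IsPoly.coord j)
  exact hp.sa_eq_zero

/-! ### the decomposition of the set of rational points -/

section main

variable {N : ℕ} (T : SymT4 N)

/-- the ideal of the rational points -/
private noncomputable def IX : Ideal (MvPolynomial (Fin N) ℚ) :=
  MvPolynomial.vanishingIdeal ℚ (quar T).ratX

/-- the rational points in the zero set of an ideal -/
private def XP (p : Ideal (MvPolynomial (Fin N) ℚ)) : Set (Fin N → ℝ) :=
  {x | x ∈ (quar T).ratX ∧ ∀ g ∈ p, MvPolynomial.aeval x g = 0}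

private theorem cover {x : Fin N → ℝ} (hx : x ∈ (quar T).ratX) :
    ∃ p ∈ (IX T).minimalPrimes, x ∈ XP T p := by
  let J : Ideal (MvPolynomial (Fin N) ℚ) :=
    RingHom.ker (MvPolynomial.aeval (R := ℚ) x : MvPolynomial (Fin N) ℚ →ₐ[ℚ] ℝ)
  have : J.IsPrime := RingHom.ker_isPrime _
  have hIJ : IX T ≤ J := fun f hf => hf x hx
  obtain ⟨p, hp, hpJ⟩ := Ideal.exists_minimalPrimes_le hIJ
  exact ⟨p, hp, hx, fun g hg => hpJ hg⟩

private theorem exists_sep {p : Ideal (MvPolynomial (Fin N) ℚ)} (hp : p ∈ (IX T).minimalPrimes) :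
    ∃ g ∉ p, ∀ q ∈ (IX T).minimalPrimes, q ≠ p → g ∈ q := by
  classical
  have : p.IsPrime := hp.1.1
  have hfin : (IX T).minimalPrimes.Finite := Ideal.finite_minimalPrimes_of_isNoetherianRing _ _
  have h1 : ∀ q ∈ (IX T).minimalPrimes, q ≠ p → ∃ g ∈ q, g ∉ p := by
    intro q hq hqp
    by_contra hcon
    push Not at hcon
    have hle : q ≤ p := fun g hg => hcon g hg
    exact hqp (le_antisymm hle (hp.2 ⟨hq.1.1, hq.1.2⟩ hle))
  choose! g hgq hgp using h1
  refine ⟨∏ q ∈ hfin.toFinset.filter (fun q => q ≠ p), g q, ?_, ?_⟩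
  · intro hmem
    rw [Ideal.IsPrime.prod_mem_iff] at hmem
    obtain ⟨q, hq, hq2⟩ := hmem
    rw [Finset.mem_filter, Set.Finite.mem_toFinset] at hq
    exact hgp q hq.1 hq.2 hq2
  · intro q hq hqp
    have hmem : q ∈ hfin.toFinset.filter (fun q => q ≠ p) :=
      Finset.mem_filter.mpr ⟨hfin.mem_toFinset.mpr hq, hqp⟩
    obtain ⟨c, hc⟩ := Finset.dvd_prod_of_mem g hmem
    rw [hc]
    exact q.mul_mem_right c (hgq q hq hqp)

/-- a polynomial vanishing on the points of a component is in the prime -/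
private theorem mem_of_vanish {p : Ideal (MvPolynomial (Fin N) ℚ)}
    (hp : p ∈ (IX T).minimalPrimes) {h : MvPolynomial (Fin N) ℚ}
    (hh : ∀ x ∈ XP T p, MvPolynomial.aeval x h = 0) : h ∈ p := by
  have : p.IsPrime := hp.1.1
  obtain ⟨g, hg, hgq⟩ := exists_sep T hp
  have h1 : h * g ∈ IX T := by
    intro x hx
    rw [map_mul]
    obtain ⟨q, hq, hxq⟩ := cover T hx
    by_cases hqp : q = p
    · subst hqp
      rw [hh x hxq, zero_mul]
    · rw [hxq.2 g (hgq q hq hqp), mul_zero]
  exact ((Ideal.IsPrime.mem_or_mem inferInstance (hp.1.2 h1)).resolve_right hg)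

/-- points with vanishing fourth order term -/
private theorem mem_ratX_of_A4 {P x : Fin N → ℝ} (hP : P ∈ (quar T).ratX) (hx : x ∈ (quar T).Q)
    (h4 : (quar T).A4 P x = 0) (hM : (quar T).M P x ≠ 0) : x ∈ (quar T).ratX := by
  obtain ⟨hPQ, r, hr, hF⟩ := hP
  obtain ⟨m, hm⟩ := (quar T).ratQ_M hPQ hx
  have hr' : (r : ℝ) ≠ 0 := by exact_mod_cast hr
  refine ⟨hx, m / r ^ 3, ?_, ?_⟩
  · refine div_ne_zero ?_ (pow_ne_zero 3 hr)
    rintro rfl
    exact hM (by rw [hm]; simp)
  · have h1 : ((quar T).F P) ^ 3 * (quar T).F x - ((quar T).M P x) ^ 2 = 0 := h4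
    rw [hF, hm] at h1
    push_cast
    field_simp
    linear_combination h1

private theorem M_ne_zero {P x : Fin N → ℝ} (hP : P ∈ (quar T).ratX)
    (h4 : (quar T).A4 P x = 0) (hF : (quar T).F x ≠ 0) : (quar T).M P x ≠ 0 := by
  intro hM
  have h1 : ((quar T).F P) ^ 3 * (quar T).F x - ((quar T).M P x) ^ 2 = 0 := h4
  rw [hM] at h1
  have h2 := (quar T).F_ne_of_ratX hP
  have h3 : ((quar T).F P) ^ 3 * (quar T).F x ≠ 0 := mul_ne_zero (pow_ne_zero 3 h2) hF
  apply h3
  linear_combination h1

private theorem isPoly_const {M : ℕ} {a : ℝ} (h : ∃ r : ℚ, a = r) :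
    CubicHyp.IsPoly (fun _ : Fin M → ℝ => a) := by
  obtain ⟨r, rfl⟩ := h
  exact CubicHyp.IsPoly.const r

private theorem isPoly_A4 {P : Fin N → ℝ} (hP : P ∈ (quar T).Q) :
    CubicHyp.IsPoly (fun x => (quar T).A4 P x) := by
  have hc : ∀ i, CubicHyp.IsPoly (fun _ : Fin N → ℝ => P i) := fun i =>
    CubicHyp.isPoly_of_mem_ratV hP i
  have hx : ∀ i, CubicHyp.IsPoly (fun x : Fin N → ℝ => x i) := fun i => CubicHyp.IsPoly.coord i
  have hF := isPoly_const (M := N) ((quar T).ratQ_F hP)
  have h1 : CubicHyp.IsPoly (fun x => (quar T).c1 P x) := isPoly_B T hc hc hc hx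
  have h2 : CubicHyp.IsPoly (fun x => (quar T).c2 P x) := isPoly_B T hc hc hx hx
  have h3 := CubicHyp.IsPoly.const (N := N) 3
  have h4 := CubicHyp.IsPoly.const (N := N) 2
  refine (((hF.pow 3).mul (isPoly_F T)).sub (((((h3.mul hF).mul h2).sub
    (h4.mul (h1.pow 2)))).pow 2)).congr fun x => ?_
  unfold QuarData.A4 QuarData.M
  push_cast
  rfl

variable (hsp : ∀ P ∈ (quar T).ratX, (quar T).Special P)

include hsp in
/-- the fourth order term vanishes on the zero set of the prime -/
private theorem A4_eq_zero {p : Ideal (MvPolynomial (Fin N) ℚ)}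
    (hp : p ∈ (IX T).minimalPrimes) {P : Fin N → ℝ} (hP : P ∈ XP T p) {x : Fin N → ℝ}
    (hx : ∀ g ∈ p, MvPolynomial.aeval x g = 0) : (quar T).A4 P x = 0 := by
  have hpr : p.IsPrime := hp.1.1
  have hPQ : P ∈ (quar T).Q := hP.1.1
  have hFP := (quar T).F_ne_of_ratX hP.1
  have hc : ∀ i, CubicHyp.IsPoly (fun _ : Fin N → ℝ => P i) := fun i =>
    CubicHyp.isPoly_of_mem_ratV hPQ i
  have hxp : ∀ i, CubicHyp.IsPoly (fun x : Fin N → ℝ => x i) := fun i => CubicHyp.IsPoly.coord i
  obtain ⟨g1, hg1⟩ : CubicHyp.IsPoly (fun x => (quar T).c1 P x) := isPoly_B T hc hc hc hxp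
  obtain ⟨g2, hg2⟩ := isPoly_A4 T hPQ
  obtain ⟨g3, hg3⟩ : CubicHyp.IsPoly (fun x => 2 * (quar T).c1 P x * (quar T).c1 x P -
      (quar T).F P * (quar T).F x) := by
    have h1 : CubicHyp.IsPoly (fun x => (quar T).c1 P x) := isPoly_B T hc hc hc hxp
    have h2 : CubicHyp.IsPoly (fun x => (quar T).c1 x P) := isPoly_B T hxp hxp hxp hc
    have hF := isPoly_const (M := N) ((quar T).ratQ_F hPQ)
    have h4 := CubicHyp.IsPoly.const (N := N) 2
    refine (((h4.mul h1).mul h2).sub (hF.mul (isPoly_F T))).congr fun x => ?_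
    push_cast
    rfl
  have hev : ∀ (f : MvPolynomial (Fin N) ℚ) (y : Fin N → ℝ), MvPolynomial.aeval y f =
      evR N f y := fun f y => (evR_apply f y).symm
  have hmem : g1 * g2 * g3 ∈ p := by
    refine mem_of_vanish T hp fun R hR => ?_
    rw [map_mul, map_mul, hev, hev, hev, hg1, hg2, hg3]
    exact sp_lemma (quar T) hFP (hsp P hP.1 R) (hsp R hR.1 P)
  have h1 : g1 ∉ p := by
    intro h
    have := hP.2 g1 h
    rw [hev, hg1] at this
    exact hFP this
  have h3 : g3 ∉ p := by
    intro h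
    have := hP.2 g3 h
    rw [hev, hg3] at this
    beta_reduce at this
    rw [(quar T).c1_self] at this
    apply hFP
    have h5 : (quar T).F P * (quar T).F P = 0 := by linear_combination this
    exact mul_self_eq_zero.mp h5
  have h2 : g2 ∈ p := by
    rcases hpr.mem_or_mem hmem with h | h
    · exact (hpr.mem_or_mem h).resolve_left h1
    · exact absurd h h3
  have := hx g2 h2
  rwa [hev, hg2] at this

include hsp in
/-- the zero set of the prime is stable under translation by rational multiples of its points -/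
private theorem shift_mem {p : Ideal (MvPolynomial (Fin N) ℚ)}
    (hp : p ∈ (IX T).minimalPrimes) {P : Fin N → ℝ} (hP : P ∈ XP T p) (b : ℚ) {x : Fin N → ℝ}
    (hx : ∀ g ∈ p, MvPolynomial.aeval x g = 0) :
    ∀ g ∈ p, MvPolynomial.aeval (x + (b : ℝ) • P) g = 0 := by
  intro g hg
  have hpr : p.IsPrime := hp.1.1
  have hPQ : P ∈ (quar T).Q := hP.1.1
  have hFP := (quar T).F_ne_of_ratX hP.1
  obtain ⟨g2, hg2, hg2q⟩ := exists_sep T hp
  obtain ⟨g', hg'⟩ := exists_shift g hPQ b
  have hmem : g2 * g' ∈ p := by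
    refine mem_of_vanish T hp fun R hR => ?_
    rw [map_mul]
    by_cases h0 : MvPolynomial.aeval R g2 = 0
    · rw [h0, zero_mul]
    obtain ⟨G, hG⟩ := exists_line g R P
    obtain ⟨H, hH⟩ := exists_line g2 R P
    let m : Polynomial ℝ := Polynomial.C (((quar T).F P) ^ 2) * Polynomial.X ^ 2 +
      Polynomial.C (2 * (quar T).F P * (quar T).c1 P R) * Polynomial.X +
        Polynomial.C ((quar T).M P R)
    have hm : ∀ t : ℝ, m.eval t = (quar T).M P (R + t • P) := by
      intro t
      have h1 := (quar T).M_comb P R t 1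
      rw [one_smul, add_comm (t • P) R] at h1
      rw [h1]
      simp only [m, Polynomial.eval_add, Polynomial.eval_mul, Polynomial.eval_C,
        Polynomial.eval_pow, Polynomial.eval_X]
      ring
    have hA : ∀ t : ℝ, (quar T).A4 P (R + t • P) = 0 := by
      intro t
      have h1 := (quar T).A4_comb P R t 1
      rw [one_smul, add_comm (t • P) R] at h1
      rw [h1, A4_eq_zero T hsp hp hP hR.2, hsp P hP.1 R]
      ring
    have hprod : G * H * m = 0 := by
      refine poly_eq_zero fun c => ?_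
      rw [Polynomial.eval_mul, Polynomial.eval_mul, hG, hH, hm]
      by_cases hMc : (quar T).M P (R + (c : ℝ) • P) = 0
      · rw [hMc, mul_zero]
      have hRc : R + (c : ℝ) • P ∈ (quar T).ratX :=
        mem_ratX_of_A4 T hP.1 ((quar T).add_mem_Q hR.1.1 ((quar T).smulQ c P hPQ)) (hA c) hMc
      obtain ⟨q, hq, hqc⟩ := cover T hRc
      by_cases hqp : q = p
      · subst hqp
        rw [hqc.2 g hg, zero_mul, zero_mul]
      · rw [hqc.2 g2 (hg2q q hq hqp), mul_zero, zero_mul]
    have hm0 : m ≠ 0 := by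
      intro h
      have h1 : ∀ t : ℝ, m.eval t = 0 := fun t => by rw [h, Polynomial.eval_zero]
      have e0 := h1 0
      have e1 := h1 1
      have e2 := h1 (-1)
      simp only [m, Polynomial.eval_add, Polynomial.eval_mul, Polynomial.eval_C,
        Polynomial.eval_pow, Polynomial.eval_X] at e0 e1 e2
      apply hFP
      have h5 : (quar T).F P * (quar T).F P = 0 := by linear_combination (e1 + e2) / 2 - e0
      exact mul_self_eq_zero.mp h5
    have hH0 : H ≠ 0 := by
      intro h
      apply h0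
      have := hH 0
      rw [h, Polynomial.eval_zero, zero_smul, add_zero] at this
      exact this.symm
    have hG0 : G = 0 := by
      rcases mul_eq_zero.mp hprod with h | h
      · exact (mul_eq_zero.mp h).resolve_right hH0
      · exact absurd h hm0
    rw [hg', ← hG, hG0, Polynomial.eval_zero, mul_zero]
  have hg'p : g' ∈ p := (hpr.mem_or_mem hmem).resolve_left hg2
  rw [← hg']
  exact hx g' hg'p

/-- the rational span of the points of a component -/
private def MP (p : Ideal (MvPolynomial (Fin N) ℚ)) : Submodule ℚ (Fin N → ℚ) :=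
  Submodule.span ℚ {q | castV q ∈ XP T p}

include hsp in
private theorem span_shift {p : Ideal (MvPolynomial (Fin N) ℚ)}
    (hp : p ∈ (IX T).minimalPrimes) {q : Fin N → ℚ} (hq : q ∈ MP T p) :
    ∀ (c : ℚ) (x : Fin N → ℝ), (∀ g ∈ p, MvPolynomial.aeval x g = 0) →
      ∀ g ∈ p, MvPolynomial.aeval (x + (c : ℝ) • castV q) g = 0 := by
  unfold MP at hq
  induction hq using Submodule.span_induction with
  | mem q hq => exact fun c x hx => shift_mem T hsp hp hq c hx
  | zero =>
    intro c x hx g hg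
    have : x + (c : ℝ) • castV (0 : Fin N → ℚ) = x := by
      funext i; simp [castV]
    rw [this]
    exact hx g hg
  | add a b _ _ iha ihb =>
    intro c x hx
    have : x + (c : ℝ) • castV (a + b) = (x + (c : ℝ) • castV a) + (c : ℝ) • castV b := by
      funext i; simp [castV]; ring
    rw [this]
    exact ihb c _ (iha c x hx)
  | smul d a _ ih =>
    intro c x hx
    have : x + (c : ℝ) • castV (d • a) = x + ((c * d : ℚ) : ℝ) • castV a := by
      funext i; simp [castV]; ring
    rw [this]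
    exact ih (c * d) x hx

include hsp in
private theorem span_ratX {p : Ideal (MvPolynomial (Fin N) ℚ)}
    (hp : p ∈ (IX T).minimalPrimes) {q : Fin N → ℚ} (hq : q ∈ MP T p)
    (hF : (quar T).F (castV q) ≠ 0) : castV q ∈ (quar T).ratX := by
  have hne : ∃ P, P ∈ XP T p := by
    by_contra hcon
    push Not at hcon
    have h1 : {q | castV q ∈ XP T p} = (∅ : Set (Fin N → ℚ)) := by
      ext q
      simp only [Set.mem_ofPred_eq, Set.mem_empty_iff_false, iff_false]
      exact hcon _
    unfold MP at hq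
    rw [h1, Submodule.span_empty, Submodule.mem_bot] at hq
    apply hF
    have h2 : castV q = (0 : ℝ) • castV q := by
      subst hq
      funext i; simp [castV]
    rw [h2, QuarData.F_smul]
    ring
  obtain ⟨P, hP⟩ := hne
  obtain ⟨P', hP'⟩ : ∃ P' : Fin N → ℚ, castV P' = P := hP.1.1
  have hP'm : P' ∈ MP T p := Submodule.subset_span (by
    show castV P' ∈ XP T p
    rw [hP']; exact hP)
  have hz : ∀ g ∈ p, MvPolynomial.aeval (castV q) g = 0 := by
    have h1 := span_shift T hsp hp ((MP T p).sub_mem hq hP'm) 1 P hP.2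
    have h2 : P + ((1 : ℚ) : ℝ) • castV (q - P') = castV q := by
      rw [← hP']
      funext i; simp [castV]
    rwa [h2] at h1
  have h4 := A4_eq_zero T hsp hp hP hz
  exact mem_ratX_of_A4 T hP.1 ⟨q, rfl⟩ h4 (M_ne_zero T hP.1 h4 hF)

include hsp in
private theorem K_inter_S_eq : (quar T).K ∩ (quar T).S =
    (⋃ p ∈ (IX T).minimalPrimes, closure (castV '' (MP T p : Set (Fin N → ℚ)))) ∩
      (quar T).S := by
  have hfin : (IX T).minimalPrimes.Finite := Ideal.finite_minimalPrimes_of_isNoetherianRing _ _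
  apply Set.Subset.antisymm
  · refine Set.inter_subset_inter_left _ ?_
    rw [← hfin.closure_biUnion]
    refine closure_mono ?_
    intro x hx
    obtain ⟨p, hp, hxp⟩ := cover T hx
    obtain ⟨q, hq⟩ : ∃ q : Fin N → ℚ, castV q = x := hx.1
    rw [Set.mem_iUnion₂]
    exact ⟨p, hp, q, Submodule.subset_span (by
      show castV q ∈ XP T p
      rw [hq]; exact hxp), hq⟩
  · rintro x ⟨hx, hxS⟩
    refine ⟨?_, hxS⟩
    rw [Set.mem_iUnion₂] at hx
    obtain ⟨p, hp, hx⟩ := hx
    refine mem_closure_iff.mpr fun O hO hxO => ?_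
    obtain ⟨y, hy, q, hq, rfl⟩ := mem_closure_iff.mp hx (O ∩ (quar T).S)
      (hO.inter (quar T).isOpen_S) ⟨hxO, hxS⟩
    exact ⟨castV q, hy.1, span_ratX T hsp hp hq (ne_of_gt hy.2)⟩

end main

/-- If all rational points are special then the closure of the rational points is semialgebraic in
the locus where the form is positive. -/
theorem sa_special {N : ℕ} (T : SymT4 N) (h : ∀ P ∈ (quar T).ratX, (quar T).Special P) :
    SA (evR N) ((quar T).K ∩ (quar T).S) := by
  have hfin : (IX T).minimalPrimes.Finite := Ideal.finite_minimalPrimes_of_isNoetherianRing _ _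
  rw [K_inter_S_eq T h]
  exact (SA.biUnion_finite hfin _ fun p _ => sa_closure_sub (MP T p)).inter (sa_S T)

end Pool.Agent.Lib.MP42.Quar
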