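import Pool.Agent.Lib.MP_42de19_nt.Quar.Coord
import Pool.Agent.Lib.MP_42de19_nt.CubicHyp.Homog

set_option autoImplicit false

/-! Homogenisation: a polynomial of degree at most four in `x` is a quartic form in `(1, x)`. -/

namespace Pool.Agent.Lib.MP42.Quar

open Topology Filter Set

namespace Homog

variable {m : ℕ}

/-- the value of a (not necessarily symmetric) tensor -/
private def Ph (y : Fin m → ℝ) (W : Fin m → Fin m → Fin m → Fin m → ℝ) : ℝ :=
  ∑ i, ∑ j, ∑ k, ∑ l, W i j k l * (y i * y j * y k * y l)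

private theorem Ph12 (y : Fin m → ℝ) (W : Fin m → Fin m → Fin m → Fin m → ℝ) :
    Ph y (fun i j k l => W j i k l) = Ph y W := by
  unfold Ph
  rw [Finset.sum_comm]
  refine Finset.sum_congr rfl fun i _ => Finset.sum_congr rfl fun j _ =>
    Finset.sum_congr rfl fun k _ => Finset.sum_congr rfl fun l _ => ?_
  ring

private theorem Ph23 (y : Fin m → ℝ) (W : Fin m → Fin m → Fin m → Fin m → ℝ) :
    Ph y (fun i j k l => W i k j l) = Ph y W := by
  unfold Ph
  refine Finset.sum_congr rfl fun i _ => ?_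
  rw [Finset.sum_comm]
  refine Finset.sum_congr rfl fun j _ =>
    Finset.sum_congr rfl fun k _ => Finset.sum_congr rfl fun l _ => ?_
  ring

private theorem Ph34 (y : Fin m → ℝ) (W : Fin m → Fin m → Fin m → Fin m → ℝ) :
    Ph y (fun i j k l => W i j l k) = Ph y W := by
  unfold Ph
  refine Finset.sum_congr rfl fun i _ => Finset.sum_congr rfl fun j _ => ?_
  rw [Finset.sum_comm]
  refine Finset.sum_congr rfl fun k _ => Finset.sum_congr rfl fun l _ => ?_
  ring

private theorem Ph_add (y : Fin m → ℝ) (W W' : Fin m → Fin m → Fin m → Fin m → ℝ) :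
    Ph y (fun i j k l => W i j k l + W' i j k l) = Ph y W + Ph y W' := by
  unfold Ph
  simp only [add_mul, Finset.sum_add_distrib]

private theorem Ph_smul (y : Fin m → ℝ) (c : ℝ) (W : Fin m → Fin m → Fin m → Fin m → ℝ) :
    Ph y (fun i j k l => c * W i j k l) = c * Ph y W := by
  unfold Ph
  simp only [mul_assoc, Finset.mul_sum]

private theorem Ph_sum {ι : Type*} (s : Finset ι) (y : Fin m → ℝ)
    (W : ι → Fin m → Fin m → Fin m → Fin m → ℝ) :
    Ph y (fun i j k l => ∑ t ∈ s, W t i j k l) = ∑ t ∈ s, Ph y (W t) := by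
  classical
  induction s using Finset.induction_on with
  | empty => simp [Ph]
  | insert a s ha ih =>
    simp only [Finset.sum_insert ha]
    rw [Ph_add, ih]

private theorem Ph_prod (y f g h e : Fin m → ℝ) :
    Ph y (fun i j k l => f i * g j * h k * e l) =
      (∑ i, f i * y i) * (∑ i, g i * y i) * (∑ i, h i * y i) * (∑ i, e i * y i) := by
  unfold Ph
  have h1 : ∀ i j k, ∑ l, (f i * g j * h k * e l) * (y i * y j * y k * y l) =
      (f i * y i) * (g j * y j) * (h k * y k) * ∑ l, e l * y l := by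
    intro i j k
    rw [Finset.mul_sum]
    exact Finset.sum_congr rfl fun l _ => by ring
  have h2 : ∀ i j, ∑ k, (f i * y i) * (g j * y j) * (h k * y k) * ∑ l, e l * y l =
      (f i * y i) * (g j * y j) * (∑ k, h k * y k) * ∑ l, e l * y l := by
    intro i j
    rw [Finset.mul_sum Finset.univ (fun k => h k * y k), Finset.sum_mul]
  have h3 : ∀ i, ∑ j, (f i * y i) * (g j * y j) * (∑ k, h k * y k) * ∑ l, e l * y l =
      (f i * y i) * (∑ j, g j * y j) * (∑ k, h k * y k) * ∑ l, e l * y l := by
    intro i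
    rw [Finset.mul_sum Finset.univ (fun j => g j * y j), Finset.sum_mul, Finset.sum_mul]
  simp only [h1, h2, h3]
  rw [← Finset.sum_mul, ← Finset.sum_mul, ← Finset.sum_mul]

/-- the first symmetrisation, in the last three indices -/
private def sy1 {R : Type*} [Field R] (U : Fin m → Fin m → Fin m → Fin m → R) (i j k l : Fin m) :
    R :=
  (1 / 6) * (U i j k l + U i j l k + U i k j l + U i k l j + U i l j k + U i l k j)

private theorem sy1_23 {R : Type*} [Field R] (U : Fin m → Fin m → Fin m → Fin m → R)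
    (i j k l : Fin m) : sy1 U i j k l = sy1 U i k j l := by
  unfold sy1; ring

private theorem sy1_34 {R : Type*} [Field R] (U : Fin m → Fin m → Fin m → Fin m → R)
    (i j k l : Fin m) : sy1 U i j k l = sy1 U i j l k := by
  unfold sy1; ring

/-- the full symmetrisation -/
private def sy {R : Type*} [Field R] (U : Fin m → Fin m → Fin m → Fin m → R) (i j k l : Fin m) :
    R :=
  (1 / 4) * (sy1 U i j k l + sy1 U j i k l + sy1 U k i j l + sy1 U l i j k)

private theorem Ph_sy1 (y : Fin m → ℝ) (U : Fin m → Fin m → Fin m → Fin m → ℝ) :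
    Ph y (sy1 U) = Ph y U := by
  have e1 : Ph y (fun i j k l => U i j l k) = Ph y U := Ph34 y U
  have e2 : Ph y (fun i j k l => U i k j l) = Ph y U := Ph23 y U
  have e3 : Ph y (fun i j k l => U i k l j) = Ph y U := by
    have := Ph23 y (fun i j k l => U i j l k)
    exact this.trans e1
  have e4 : Ph y (fun i j k l => U i l j k) = Ph y U := by
    have := Ph34 y (fun i j k l => U i k j l)
    exact this.trans e2
  have e5 : Ph y (fun i j k l => U i l k j) = Ph y U := by
    have := Ph34 y (fun i j k l => U i k l j)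
    exact this.trans e3
  have h : sy1 U = fun i j k l =>
      (1 / 6) * (U i j k l + U i j l k + U i k j l + U i k l j + U i l j k + U i l k j) := rfl
  rw [h, Ph_smul, Ph_add, Ph_add, Ph_add, Ph_add, Ph_add, e1, e2, e3, e4, e5]
  ring

private theorem Ph_sy (y : Fin m → ℝ) (U : Fin m → Fin m → Fin m → Fin m → ℝ) :
    Ph y (sy U) = Ph y U := by
  have e1 : Ph y (fun i j k l => sy1 U j i k l) = Ph y U := (Ph12 y (sy1 U)).trans (Ph_sy1 y U)
  have e2 : Ph y (fun i j k l => sy1 U k i j l) = Ph y U := by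
    have := Ph23 y (fun i j k l => sy1 U j i k l)
    exact this.trans e1
  have e3 : Ph y (fun i j k l => sy1 U l i j k) = Ph y U := by
    have := Ph34 y (fun i j k l => sy1 U k i j l)
    exact this.trans e2
  have e0 : Ph y (fun i j k l => sy1 U i j k l) = Ph y U := Ph_sy1 y U
  have h : sy U = fun i j k l =>
      (1 / 4) * (sy1 U i j k l + sy1 U j i k l + sy1 U k i j l + sy1 U l i j k) := rfl
  rw [h, Ph_smul, Ph_add, Ph_add, Ph_add, e1, e2, e3, e0]
  ring

private theorem sy_cast (U : Fin m → Fin m → Fin m → Fin m → ℚ) (i j k l : Fin m) :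
    ((sy U i j k l : ℚ) : ℝ) = sy (fun i j k l => (U i j k l : ℝ)) i j k l := by
  unfold sy sy1
  push_cast
  ring

end Homog

open Homog in
/-- homogenisation -/
theorem exists_symT4 {n : ℕ} (f : MvPolynomial (Fin n) ℚ) (hf : f.totalDegree ≤ 4) :
    ∃ T : SymT4 (n + 1), ∀ x : Fin n → ℝ, (MvPolynomial.aeval x f : ℝ) =
      (quar T).F (Fin.cons 1 x) := by
  classical
  obtain ⟨a, ha⟩ := CubicHyp.exists_expand 4 f hf
  let D : Fin (n + 1) → Fin (n + 1) → ℚ := fun j i => if i = j then 1 else 0
  let U : Fin (n + 1) → Fin (n + 1) → Fin (n + 1) → Fin (n + 1) → ℚ := fun i j k l =>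
    ∑ s ∈ f.support, f.coeff s *
      (D (a s 0) i * D (a s 1) j * D (a s 2) k * D (a s 3) l)
  let T : SymT4 (n + 1) :=
    { T := sy U
      s12 := fun i j k l => by
        unfold sy
        rw [sy1_23 U k j i l, sy1_23 U l j i k]; ring
      s23 := fun i j k l => by
        unfold sy
        rw [sy1_23 U i k j l, sy1_34 U l i k j]; ring
      s34 := fun i j k l => by
        unfold sy
        rw [sy1_34 U i j l k, sy1_34 U j i l k]; ring }
  have hD : ∀ (y : Fin (n + 1) → ℝ) (j : Fin (n + 1)), ∑ i, (D j i : ℝ) * y i = y j := by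
    intro y j
    rw [Finset.sum_eq_single j]
    · simp [D]
    · intro i _ hi; simp [D, hi]
    · intro h; exact absurd (Finset.mem_univ j) h
  refine ⟨T, fun x => ?_⟩
  rw [ha x]
  set y : Fin (n + 1) → ℝ := Fin.cons 1 x with hy
  have h1 : (quar T).F y = Ph y (sy fun i j k l => (U i j k l : ℝ)) := by
    show (quar T).B y y y y = _
    rw [quar_B]
    unfold Ph
    refine Finset.sum_congr rfl fun i _ => Finset.sum_congr rfl fun j _ =>
      Finset.sum_congr rfl fun k _ => Finset.sum_congr rfl fun l _ => ?_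
    rw [← sy_cast]
  have h2 : (fun i j k l => (U i j k l : ℝ)) = fun i j k l => ∑ s ∈ f.support,
      ((f.coeff s : ℚ) : ℝ) *
        ((D (a s 0) i : ℝ) * (D (a s 1) j : ℝ) * (D (a s 2) k : ℝ) * (D (a s 3) l : ℝ)) := by
    funext i j k l
    simp only [U]
    push_cast
    rfl
  rw [h1, Ph_sy, h2, Ph_sum f.support y (fun s i j k l => ((f.coeff s : ℚ) : ℝ) *
        ((D (a s 0) i : ℝ) * (D (a s 1) j : ℝ) * (D (a s 2) k : ℝ) * (D (a s 3) l : ℝ)))]
  refine Finset.sum_congr rfl fun s _ => ?_
  rw [Ph_smul, Ph_prod, hD, hD, hD, hD, Fin.prod_univ_four]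

end Pool.Agent.Lib.MP42.Quar
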