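import Pool.Agent.Lib.MP_42de19_nt.Quar.Coord
import Pool.Agent.Lib.MP_42de19_nt.CubicHyp.Homog
import Pool.Agent.Lib.MP_42de19_nt.CubicHyp.Main

set_option autoImplicit false

/-! Double covers branched along quartic cones: a rational linear factor. -/

namespace Pool.Agent.Lib.MP42.Quar

open Topology Filter Set
open Pool.Agent.Lib.MP42.CubicHyp (castV ratV dense_ratV)

namespace Lin

/-- functions given by rational polynomials of degree at most `d` -/
def PD {N : ℕ} (d : ℕ) (g : (Fin N → ℝ) → ℝ) : Prop :=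
  ∃ p : MvPolynomial (Fin N) ℚ, p.totalDegree ≤ d ∧ ∀ x, (MvPolynomial.aeval x p : ℝ) = g x

variable {N M : ℕ}

theorem PD.const (r : ℚ) : PD 0 (fun _ : Fin N → ℝ => (r : ℝ)) :=
  ⟨MvPolynomial.C r, by simp, fun x => by rw [MvPolynomial.aeval_C]; rfl⟩

theorem PD.coord (i : Fin N) : PD 1 (fun x : Fin N → ℝ => x i) :=
  ⟨MvPolynomial.X i, by simp, fun x => by rw [MvPolynomial.aeval_X]⟩

theorem PD.mono {d e : ℕ} {g : (Fin N → ℝ) → ℝ} (h : PD d g) (hd : d ≤ e) : PD e g := by
  obtain ⟨p, h1, h2⟩ := h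
  exact ⟨p, h1.trans hd, h2⟩

theorem PD.add {d : ℕ} {g h : (Fin N → ℝ) → ℝ} (hg : PD d g) (hh : PD d h) :
    PD d (fun x => g x + h x) := by
  obtain ⟨p, hp, hp'⟩ := hg
  obtain ⟨q, hq, hq'⟩ := hh
  exact ⟨p + q, (MvPolynomial.totalDegree_add p q).trans (max_le hp hq),
    fun x => by rw [map_add, hp', hq']⟩

theorem PD.mul {d e : ℕ} {g h : (Fin N → ℝ) → ℝ} (hg : PD d g) (hh : PD e h) :
    PD (d + e) (fun x => g x * h x) := by
  obtain ⟨p, hp, hp'⟩ := hg
  obtain ⟨q, hq, hq'⟩ := hh
  exact ⟨p * q, (MvPolynomial.totalDegree_mul p q).trans (add_le_add hp hq),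
    fun x => by rw [map_mul, hp', hq']⟩

theorem PD.congr {d : ℕ} {g h : (Fin N → ℝ) → ℝ} (hg : PD d g) (hh : ∀ x, g x = h x) :
    PD d h := by
  obtain ⟨p, hp, hp'⟩ := hg
  exact ⟨p, hp, fun x => by rw [hp', hh]⟩

theorem PD.neg {d : ℕ} {g : (Fin N → ℝ) → ℝ} (hg : PD d g) : PD d (fun x => - g x) := by
  obtain ⟨p, hp, hp'⟩ := hg
  exact ⟨-p, by rw [MvPolynomial.totalDegree_neg]; exact hp, fun x => by rw [map_neg, hp']⟩

theorem PD.sum {ι : Type*} {d : ℕ} (s : Finset ι) {g : ι → (Fin N → ℝ) → ℝ}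
    (hg : ∀ i ∈ s, PD d (g i)) : PD d (fun x => ∑ i ∈ s, g i x) := by
  classical
  induction s using Finset.induction_on with
  | empty => simpa using (PD.const (N := N) 0).mono (Nat.zero_le d)
  | insert a s ha ih =>
    have := (hg a (by simp)).add (ih fun i hi => hg i (by simp [hi]))
    simpa only [Finset.sum_insert ha] using this

/-- values of the 4-linear form along polynomial maps -/
theorem PD.B (T : SymT4 N) {a b c d : (Fin M → ℝ) → (Fin N → ℝ)} {da db dc dd e : ℕ}
    (ha : ∀ i, PD da (fun x => a x i)) (hb : ∀ i, PD db (fun x => b x i))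
    (hc : ∀ i, PD dc (fun x => c x i)) (hd : ∀ i, PD dd (fun x => d x i))
    (he : da + db + dc + dd ≤ e) :
    PD e (fun x => (quar T).B (a x) (b x) (c x) (d x)) := by
  have h1 : ∀ i j k l, PD e (fun x : Fin M → ℝ =>
      (T.T i j k l : ℝ) * (a x i * b x j * c x k * d x l)) := fun i j k l =>
    ((PD.const (T.T i j k l)).mul ((((ha i).mul (hb j)).mul (hc k)).mul (hd l))).mono (by omega)
  refine PD.congr (PD.sum Finset.univ fun i _ => PD.sum Finset.univ fun j _ =>
    PD.sum Finset.univ fun k _ => PD.sum Finset.univ fun l _ => h1 i j k l) ?_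
  intro x
  rw [quar_B]

/-- the cofactor of the linear form -/
noncomputable def cof (T : SymT4 N) (l : (Fin N → ℝ) →ₗ[ℝ] ℝ) (w x : Fin N → ℝ) : ℝ :=
  4 * (quar T).B (x - l x • w) (x - l x • w) (x - l x • w) w +
    6 * l x * (quar T).B (x - l x • w) (x - l x • w) w w +
    4 * (l x * l x) * (quar T).B (x - l x • w) w w w + (l x * l x * l x) * (quar T).B w w w w

theorem F_eq (T : SymT4 N) (l : (Fin N → ℝ) →ₗ[ℝ] ℝ) (h : ∀ v, l v = 0 → (quar T).F v = 0)
    (w : Fin N → ℝ) (hw : l w = 1) (x : Fin N → ℝ) : (quar T).F x = l x * cof T l w x := by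
  have h1 : x = (1 : ℝ) • (x - l x • w) + l x • w := by rw [one_smul, sub_add_cancel]
  have h2 : l (x - l x • w) = 0 := by rw [map_sub, map_smul, hw, smul_eq_mul, mul_one, sub_self]
  have h3 := (quar T).F_comb (x - l x • w) w 1 (l x)
  rw [← h1, h _ h2] at h3
  rw [h3]
  unfold cof QuarData.c1 QuarData.c2 QuarData.c3 QuarData.F
  ring

/-- polynomiality of the equation of the cubic hypersurface -/
theorem exists_poly (T : SymT4 N) (l : (Fin N → ℝ) →ₗ[ℝ] ℝ)
    (hl : ∀ v ∈ ratV N, ∃ r : ℚ, l v = r) (w : Fin N → ℝ) (hw : w ∈ ratV N) :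
    PD 3 (fun z : Fin (N + 1) → ℝ => l (Fin.init z) * z (Fin.last N) * z (Fin.last N) -
      cof T l w (Fin.init z)) := by
  classical
  have h1 : ∀ i : Fin N, ∃ r : ℚ, l (Pi.single i 1) = r := by
    intro i
    refine hl _ ⟨Pi.single i 1, ?_⟩
    funext j
    by_cases h : j = i
    · subst h; simp [castV]
    · simp [castV, h]
  choose r hr using h1
  have hL : PD 1 (fun z : Fin (N + 1) → ℝ => l (Fin.init z)) := by
    refine PD.congr (PD.sum Finset.univ fun i _ =>
      ((PD.const (N := N + 1) (r i)).mul (PD.coord i.castSucc)).mono (by omega)) ?_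
    intro z
    have hx : (Fin.init z : Fin N → ℝ) = ∑ i, z i.castSucc • (Pi.single i (1 : ℝ) : Fin N → ℝ) := by
      funext j
      simp [Finset.sum_apply, Pi.single_apply, Fin.init]
    conv_rhs => rw [hx]
    rw [map_sum]
    refine Finset.sum_congr rfl fun i _ => ?_
    rw [map_smul, smul_eq_mul, hr]
    ring
  obtain ⟨q, rfl⟩ := hw
  have hw : ∀ i, PD 0 (fun _ : Fin (N + 1) → ℝ => castV q i) := fun i => PD.const (q i)
  have hu : ∀ i, PD 1 (fun z : Fin (N + 1) → ℝ =>
      ((Fin.init z : Fin N → ℝ) - l (Fin.init z) • castV q) i) := by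
    intro i
    refine PD.congr ((PD.coord (N := N + 1) i.castSucc).add (hL.mul (hw i)).neg) ?_
    intro z
    simp only [Pi.sub_apply, Pi.smul_apply, smul_eq_mul, Fin.init]
    ring
  have e1 := PD.B T hu hu hu hw (e := 3) (by omega)
  have e2 := PD.B T hu hu hw hw (e := 2) (by omega)
  have e3 := PD.B T hu hw hw hw (e := 1) (by omega)
  have e4 := PD.B T hw hw hw hw (e := 0) (by omega)
  have f1 := ((PD.const (N := N + 1) 4).mul e1).mono (show 0 + 3 ≤ 3 by omega)
  have f2 := (((PD.const (N := N + 1) 6).mul hL).mul e2).mono (show 0 + 1 + 2 ≤ 3 by omega)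
  have f3 := (((PD.const (N := N + 1) 4).mul (hL.mul hL)).mul e3).mono
    (show 0 + (1 + 1) + 1 ≤ 3 by omega)
  have f4 := (((hL.mul hL).mul hL).mul e4).mono (show 1 + 1 + 1 + 0 ≤ 3 by omega)
  have f5 := ((hL.mul (PD.coord (Fin.last N))).mul (PD.coord (Fin.last N))).mono
    (show 1 + 1 + 1 ≤ 3 by omega)
  refine PD.congr (f5.add (((f1.add f2).add f3).add f4).neg) ?_
  intro z
  unfold cof
  push_cast
  ring

end Lin

open Lin

/-- a rational linear factor -/
theorem sa_lin {N : ℕ} (T : SymT4 N) (l : (Fin N → ℝ) →ₗ[ℝ] ℝ) (hl : (quar T).RatFun l)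
    (hl0 : l ≠ 0) (h : ∀ v, l v = 0 → (quar T).F v = 0) :
    SA (evR N) ((quar T).K ∩ (quar T).S) := by
  classical
  have hlQ : ∀ v ∈ ratV N, ∃ r : ℚ, l v = r := hl
  have hlc : Continuous l := l.continuous_of_finiteDimensional
  -- a rational vector with `l w = 1`
  obtain ⟨w, hwQ, hw1⟩ : ∃ w ∈ ratV N, l w = 1 := by
    obtain ⟨v, hv⟩ : ∃ v, l v ≠ 0 := by
      by_contra hcon
      push Not at hcon
      exact hl0 (LinearMap.ext hcon)
    have hopen : IsOpen {v | l v ≠ 0} := isOpen_ne_fun hlc continuous_const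
    obtain ⟨v', hv', hvQ⟩ := (dense_ratV N).inter_open_nonempty _ hopen ⟨v, hv⟩
    obtain ⟨r, hr⟩ := hlQ v' hvQ
    have hr0 : (r : ℝ) ≠ 0 := by rw [← hr]; exact hv'
    obtain ⟨q, hq⟩ := hvQ
    refine ⟨(r : ℝ)⁻¹ • v', ⟨r⁻¹ • q, ?_⟩, ?_⟩
    · rw [← hq]
      funext i
      simp [castV]
    · rw [map_smul, hr, smul_eq_mul, inv_mul_cancel₀ hr0]
  have hF : ∀ x, (quar T).F x = l x * cof T l w x := F_eq T l h w hw1
  obtain ⟨f, hfd, hf⟩ := exists_poly T l hlQ w hwQ
  obtain ⟨T3, hT3⟩ := CubicHyp.exists_symT f hfd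
  have hG : ∀ z : Fin (N + 1) → ℝ, (CubicHyp.cub T3).F (Fin.cons 1 z) (Fin.cons 1 z)
      (Fin.cons 1 z) = l (Fin.init z) * z (Fin.last N) * z (Fin.last N) -
      cof T l w (Fin.init z) := fun z => by rw [← hT3, hf]
  let E : (Fin N → ℝ) × ℝ → (Fin (N + 2) → ℝ) := fun p => Fin.cons 1 (Fin.snoc p.1 p.2)
  have hE0 : ∀ p, E p 0 = 1 := fun p => rfl
  have hEc : Continuous E := by
    refine continuous_pi fun i => ?_
    refine Fin.cases ?_ (fun j => ?_) i
    · exact continuous_const
    · refine Fin.lastCases ?_ (fun k => ?_) j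
      · have : (fun p : (Fin N → ℝ) × ℝ => E p (Fin.last N).succ) = fun p => p.2 := by
          funext p
          simp only [E, Fin.cons_succ, Fin.snoc_last]
        rw [this]; exact continuous_snd
      · have : (fun p : (Fin N → ℝ) × ℝ => E p k.castSucc.succ) = fun p => p.1 k := by
          funext p
          simp only [E, Fin.cons_succ, Fin.snoc_castSucc]
        rw [this]; exact (continuous_apply k).comp continuous_fst
  have hW : SA (evP (evR N)) (E ⁻¹' (CubicHyp.cub T3).K) := by
    have hK := CubicHyp.sa_K (N + 2) T3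
    let g : Fin (N + 2) → Polynomial (MvPolynomial (Fin N) ℚ) :=
      Fin.cons 1 (Fin.snoc (fun i => Polynomial.C (MvPolynomial.X i)) Polynomial.X)
    refine hK.comap (fun p => MvPolynomial.aeval g p) E ?_
    intro p y
    have hg : ∀ i, evP (evR N) (g i) y = E y i := by
      intro i
      refine Fin.cases ?_ (fun j => ?_) i
      · show evP (evR N) (g 0) y = 1
        have : g 0 = 1 := rfl
        rw [this, map_one]; rfl
      · refine Fin.lastCases ?_ (fun k => ?_) j
        · simp only [g, E, Fin.cons_succ, Fin.snoc_last, evP_X]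
        · simp only [g, E, Fin.cons_succ, Fin.snoc_castSucc, evP_C, evR_apply,
            MvPolynomial.aeval_X]
    rw [evR_apply]
    induction p using MvPolynomial.induction_on with
    | C a =>
      rw [MvPolynomial.aeval_C, MvPolynomial.aeval_C]
      have : (algebraMap ℚ (Polynomial (MvPolynomial (Fin N) ℚ))) a =
          Polynomial.C (MvPolynomial.C a) := rfl
      rw [this, evP_C, evR_apply, MvPolynomial.aeval_C]
    | add p q hp hq => rw [map_add, map_add, map_add, Pi.add_apply, hp, hq]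
    | mul_X p i hp =>
      rw [map_mul, map_mul, map_mul, Pi.mul_apply, hp, MvPolynomial.aeval_X,
        MvPolynomial.aeval_X, hg]
  have hP := (cad_evR N).proj (fun a => continuous_evR a) hW
  have hFc : Continuous (quar T).F := (quar T).cont_F continuous_id
  have key : (quar T).K ∩ (quar T).S =
      (quar T).S ∩ (Prod.fst '' (E ⁻¹' (CubicHyp.cub T3).K)) := by
    apply Set.Subset.antisymm
    · rintro x ⟨hxK, hxS⟩
      refine ⟨hxS, (x, Real.sqrt ((quar T).F x) / l x), ?_, rfl⟩
      have hlx : l x ≠ 0 := by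
        intro h0
        have h1 : 0 < (quar T).F x := hxS
        rw [h x h0] at h1
        exact lt_irrefl _ h1
      have hc : ContinuousAt (fun x => E (x, Real.sqrt ((quar T).F x) / l x)) x := by
        refine hEc.continuousAt.comp (continuousAt_id.prodMk ?_)
        exact (Real.continuous_sqrt.comp hFc).continuousAt.div hlc.continuousAt hlx
      refine hc.continuousWithinAt.mem_closure hxK ?_
      rintro x' ⟨hxQ, r, hr0, hr⟩
      have hF0 : (quar T).F x' ≠ 0 := by rw [hr]; exact pow_ne_zero 2 (by exact_mod_cast hr0)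
      have hlx' : l x' ≠ 0 := fun h0 => hF0 (h x' h0)
      refine ⟨?_, ?_⟩
      · obtain ⟨q, rfl⟩ := hxQ
        obtain ⟨s, hs⟩ := hlQ (castV q) ⟨q, rfl⟩
        refine ⟨Fin.cons 1 (Fin.snoc q (|r| / s)), ?_⟩
        funext i
        refine Fin.cases ?_ (fun j => ?_) i
        · show ((1 : ℚ) : ℝ) = 1
          simp
        · refine Fin.lastCases ?_ (fun k => ?_) j
          · simp only [castV, E, Fin.cons_succ, Fin.snoc_last]
            rw [hr, hs, Real.sqrt_sq_eq_abs]
            push_cast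
            rfl
          · simp only [castV, E, Fin.cons_succ, Fin.snoc_castSucc]
      · show (CubicHyp.cub T3).F (E _) (E _) (E _) = 0
        simp only [E]
        rw [hG, Fin.init_snoc, Fin.snoc_last]
        have hpos : 0 ≤ (quar T).F x' := by rw [hr]; positivity
        have h4 : l x' * (Real.sqrt ((quar T).F x') / l x') * (Real.sqrt ((quar T).F x') / l x') =
            (quar T).F x' / l x' := by
          have := Real.mul_self_sqrt hpos
          field_simp
          rw [sq]; exact this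
        rw [h4, hF, mul_div_cancel_left₀ _ hlx', sub_self]
    · rintro x ⟨hxS, ⟨x0, y⟩, hy, rfl⟩
      refine ⟨?_, hxS⟩
      show x0 ∈ closure _
      rw [mem_closure_iff_nhds]
      intro U hU
      let ψ : (Fin (N + 2) → ℝ) → (Fin N → ℝ) := fun v i => v i.castSucc.succ / v 0
      have hψE : ψ (E (x0, y)) = x0 := by
        funext i
        simp only [ψ, E, Fin.cons_succ, Fin.snoc_castSucc, Fin.cons_zero, div_one]
      have hψc : ContinuousAt ψ (E (x0, y)) := by
        refine continuousAt_pi.mpr fun i => ?_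
        refine ContinuousAt.div (continuous_apply _).continuousAt
          (continuous_apply _).continuousAt ?_
        rw [hE0]; exact one_ne_zero
      have h1 : ∀ᶠ v in 𝓝 (E (x0, y)), ψ v ∈ U := hψc.eventually_mem (by rw [hψE]; exact hU)
      have h2 : ∀ᶠ v in 𝓝 (E (x0, y)), ψ v ∈ (quar T).S :=
        hψc.eventually_mem (by rw [hψE]; exact (quar T).isOpen_S.mem_nhds hxS)
      have h3 : ∀ᶠ v in 𝓝 (E (x0, y)), v 0 ≠ 0 :=
        (continuous_apply (A := fun _ : Fin (N + 2) => ℝ) 0).continuousAt.eventually_ne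
          (by show E (x0, y) 0 ≠ 0; rw [hE0]; exact one_ne_zero)
      have h4 := mem_closure_iff_frequently.mp hy
      obtain ⟨v, ⟨hvQ, hv0⟩, h1, h2, h3⟩ := (h4.and_eventually (h1.and (h2.and h3))).exists
      obtain ⟨q, rfl⟩ := hvQ
      have hψQ : ψ (castV q) ∈ ratV N := by
        refine ⟨fun i => q i.castSucc.succ / q 0, ?_⟩
        funext i
        simp only [castV, ψ]
        push_cast
        rfl
      refine ⟨ψ (castV q), h1, hψQ, ?_⟩
      obtain ⟨s, hs⟩ := hlQ _ hψQ
      let z : Fin (N + 1) → ℝ := fun i => castV q i.succ / castV q 0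
      have hz1 : (Fin.cons 1 z : Fin (N + 2) → ℝ) = (castV q 0)⁻¹ • castV q := by
        funext i
        refine Fin.cases ?_ (fun j => ?_) i
        · show (1 : ℝ) = (castV q 0)⁻¹ * castV q 0
          rw [inv_mul_cancel₀ h3]
        · show castV q j.succ / castV q 0 = (castV q 0)⁻¹ * castV q j.succ
          rw [div_eq_inv_mul]
      have hz2 : (Fin.init z : Fin N → ℝ) = ψ (castV q) := rfl
      have h5 := hG z
      have hv0' : (CubicHyp.cub T3).F (castV q) (castV q) (castV q) = 0 := hv0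
      rw [hz1, hz2] at h5
      simp only [map_smul, LinearMap.smul_apply, smul_eq_mul, hv0', mul_zero] at h5
      have h6 : (quar T).F (ψ (castV q)) =
          ((s * (q (Fin.last N).succ / q 0) : ℚ) : ℝ) ^ 2 := by
        have h7 : cof T l w (ψ (castV q)) =
            l (ψ (castV q)) * z (Fin.last N) * z (Fin.last N) := by linarith
        rw [hF, h7, hs]
        simp only [z, castV]
        push_cast
        ring
      refine ⟨s * (q (Fin.last N).succ / q 0), ?_, h6⟩
      intro h0
      have h8 : 0 < (quar T).F (ψ (castV q)) := h2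
      rw [h6, h0] at h8
      simp at h8
  rw [key]
  exact (sa_S T).inter hP

end Pool.Agent.Lib.MP42.Quar
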