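import Pool.Agent.Lib.MP_42de19_nt.Quar.OpenA

set_option autoImplicit false
set_option linter.unusedSimpArgs false
set_option linter.unusedSectionVars false

/-! If `K` has interior in `S` and some point of `S` is not special then `K ∩ S` is open. -/

namespace Pool.Agent.Lib.MP42.Quar

open Topology Filter Set Polynomial

namespace QuarData

section alg
variable {V : Type*} [NormedAddCommGroup V] [NormedSpace ℝ V] (D : QuarData V)

theorem F_line (x z : V) (s : ℝ) : D.F (z + s • x) =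
    D.F z + 4 * D.c3 x z * s + 6 * D.c2 x z * s ^ 2 + 4 * D.c1 x z * s ^ 3 + D.F x * s ^ 4 := by
  have h := D.F_comb x z s 1
  rw [one_smul, add_comm] at h
  rw [h]
  ring

theorem c1_line (x z : V) (s : ℝ) : D.c1 x (z + s • x) = D.c1 x z + D.F x * s := by
  have h := D.c1_comb' x z s 1
  rw [one_smul, add_comm] at h
  rw [h]
  ring

theorem c2_line (x z : V) (s : ℝ) : D.c2 x (z + s • x) =
    D.c2 x z + 2 * D.c1 x z * s + D.F x * s ^ 2 := by
  have h := D.c2_comb x z s 1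
  rw [one_smul, add_comm] at h
  rw [h]
  ring

theorem c3_line (x z : V) (s : ℝ) : D.c3 x (z + s • x) =
    D.c3 x z + 3 * D.c2 x z * s + 3 * D.c1 x z * s ^ 2 + D.F x * s ^ 3 := by
  have h := D.c3_comb x z s 1
  rw [one_smul, add_comm] at h
  rw [h]
  ring

/-- if `F` is a square on the line through `z` in direction `x` then the third and fourth order
terms of its root at `x` vanish -/
theorem sq_zero {x z : V} {c a0 a1 a2 : ℝ} (hc : c ≠ 0)
    (h : ∀ s : ℝ, c * D.F (z + s • x) = (a0 + a1 * s + a2 * s ^ 2) ^ 2) :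
    D.A x z = 0 ∧ D.A4 x z = 0 := by
  have h1 : ∀ s : ℝ, (c * D.F z - a0 ^ 2) + (c * (4 * D.c3 x z) - 2 * a0 * a1) * s +
      (c * (6 * D.c2 x z) - (a1 ^ 2 + 2 * a0 * a2)) * s ^ 2 +
      (c * (4 * D.c1 x z) - 2 * a1 * a2) * s ^ 3 + (c * D.F x - a2 ^ 2) * s ^ 4 = 0 := by
    intro s
    have h2 := h s
    rw [F_line] at h2
    linear_combination h2
  obtain ⟨e0, e1, e2, e3, e4⟩ := quartic_zero h1
  have f0 : c * D.F z = a0 ^ 2 := by linarith
  have f1 : c * D.c3 x z = a0 * a1 / 2 := by linarith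
  have f2 : c * D.c2 x z = (a1 ^ 2 + 2 * a0 * a2) / 6 := by linarith
  have f3 : c * D.c1 x z = a1 * a2 / 2 := by linarith
  have f4 : c * D.F x = a2 ^ 2 := by linarith
  constructor
  · have h3 : c ^ 3 * D.A x z = 0 := by
      have h4 : c ^ 3 * D.A x z = (c * D.F x) ^ 2 * (c * D.c3 x z) -
          3 * (c * D.F x) * (c * D.c1 x z) * (c * D.c2 x z) + 2 * (c * D.c1 x z) ^ 3 := by
        unfold A; ring
      rw [h4, f1, f2, f3, f4]
      ring
    exact (mul_eq_zero.mp h3).resolve_left (pow_ne_zero 3 hc)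
  · have h3 : c ^ 4 * D.A4 x z = 0 := by
      have h4 : c ^ 4 * D.A4 x z = (c * D.F x) ^ 3 * (c * D.F z) -
          (3 * (c * D.F x) * (c * D.c2 x z) - 2 * (c * D.c1 x z) ^ 2) ^ 2 := by
        unfold A4 M; ring
      rw [h4, f0, f2, f3, f4]
      ring
    exact (mul_eq_zero.mp h3).resolve_left (pow_ne_zero 4 hc)

theorem not_sq_poly {x z : V} (h : D.A x z ≠ 0 ∨ D.A4 x z ≠ 0) (q : ℝ[X]) :
    C (D.F z) + C (4 * D.c3 x z) * X + C (6 * D.c2 x z) * X ^ 2 + C (4 * D.c1 x z) * X ^ 3 +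
      C (D.F x) * X ^ 4 ≠ q ^ 2 := by
  intro hq
  have hdeg : q.natDegree ≤ 2 := by
    have h1 : (q ^ 2).natDegree ≤ 4 := by
      rw [← hq]
      compute_degree
    rw [natDegree_pow] at h1
    omega
  have hqe : ∀ s, q.eval s = q.coeff 0 + q.coeff 1 * s + q.coeff 2 * s ^ 2 := by
    intro s
    rw [eval_eq_sum_range' (Nat.lt_succ_of_le hdeg)]
    simp [Finset.sum_range_succ]
  have h2 := D.sq_zero (x := x) (z := z) (c := 1) (a0 := q.coeff 0) (a1 := q.coeff 1)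
    (a2 := q.coeff 2) one_ne_zero (by
      intro s
      rw [← hqe, ← eval_pow, ← hq, F_line]
      simp)
  rcases h with h | h
  · exact h h2.1
  · exact h h2.2

/-- expansion of `M` along a line -/
theorem M_line (x z p : V) (s : ℝ) : D.M x (z + s • p) = D.M x z +
    (6 * D.F x * D.B x x z p - 4 * D.c1 x z * D.c1 x p) * s + D.M x p * s ^ 2 := by
  unfold M c1 c2
  simp only [map_add, map_smul, LinearMap.add_apply, LinearMap.smul_apply, smul_eq_mul]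
  rw [D.s34 x x p z]
  ring

theorem exists_ne_of_not_special {P x : V} (hx : D.F x ≠ 0) (hP : ¬ D.Special P) :
    ∃ z, D.A x z ≠ 0 ∨ D.A4 x z ≠ 0 := by
  by_contra hcon
  push Not at hcon
  refine hP fun z => ?_
  refine (D.sq_zero (x := P) (z := z) (c := (D.F x) ^ 3) (a0 := D.M x z)
    (a1 := 6 * D.F x * D.B x x z P - 4 * D.c1 x z * D.c1 x P) (a2 := D.M x P)
    (pow_ne_zero 3 hx) ?_).1
  intro s
  rw [← M_line]
  have h := (hcon (z + s • P)).2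
  unfold A4 at h
  linarith

theorem PF_F : PF D.F := by
  intro x v
  refine ⟨C (D.F x) + C (4 * D.c3 v x) * X + C (6 * D.c2 v x) * X ^ 2 + C (4 * D.c1 v x) * X ^ 3 +
    C (D.F v) * X ^ 4, fun t => ?_⟩
  rw [F_line]
  simp

theorem PF_M (a : V) : PF (D.M a) := by
  intro x v
  refine ⟨C (D.M a x) + C (6 * D.F a * D.B a a x v - 4 * D.c1 a x * D.c1 a v) * X +
    C (D.M a v) * X ^ 2, fun t => ?_⟩
  rw [M_line]
  simp

theorem PF_A (a : V) : PF (D.A a) := by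
  intro x v
  refine ⟨C (D.A a x) + C (3 * D.A' a v x) * X + C (3 * D.A' a x v) * X ^ 2 +
    C (D.A a v) * X ^ 3, fun t => ?_⟩
  rw [A_add_smul]
  simp
  ring

theorem PF_A4 (a : V) : PF (D.A4 a) := by
  intro x v
  obtain ⟨p, hp⟩ := D.PF_F x v
  obtain ⟨q, hq⟩ := D.PF_M a x v
  refine ⟨C ((D.F a) ^ 3) * p - q ^ 2, fun t => ?_⟩
  rw [A4, hp, hq]
  simp

end alg

theorem PF_zero {V : Type*} [NormedAddCommGroup V] [NormedSpace ℝ V] {f : V → ℝ} (hf : PF f)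
    {O : Set V} (hO : IsOpen O) (hne : O.Nonempty) (h : ∀ v ∈ O, f v = 0) (v : V) : f v = 0 := by
  obtain ⟨o, ho⟩ := hne
  obtain ⟨p, hp⟩ := hf o (v - o)
  have hc : Continuous fun t : ℝ => o + t • (v - o) := by fun_prop
  have h1 : ∀ᶠ t in 𝓝 (0 : ℝ), o + t • (v - o) ∈ O :=
    hc.continuousAt.eventually (hO.mem_nhds (by simpa using ho))
  obtain ⟨δ, hδ, hball⟩ := Metric.eventually_nhds_iff.mp h1
  have hp0 : p = 0 := by
    by_contra hne
    obtain ⟨s, hs1, hs2, hs3⟩ := exists_eval_ne hne (show -δ < δ by linarith)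
    refine hs3 ?_
    rw [← hp]
    refine h _ (hball ?_)
    rw [Real.dist_eq, sub_zero, abs_lt]
    exact ⟨hs1, hs2⟩
  have h2 := hp 1
  rw [hp0, eval_zero, one_smul, add_sub_cancel] at h2
  exact h2

variable {V : Type*} [NormedAddCommGroup V] [NormedSpace ℝ V] [FiniteDimensional ℝ V]
  (D : QuarData V)

/-- `E1` with positive roots -/
noncomputable def e1v (x v : V) : ℝ := D.E1 x (√(D.F x)) v (√(D.F v))

/-- `E2` with positive roots -/
noncomputable def e2v (x v : V) : ℝ := D.E2 x (√(D.F x)) v (√(D.F v))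

/-- the point of the line of `w, x` -/
def pt (x : V) (c : ℝ) (w : V) (s : ℝ) : V := (w - c • x) + s • x

/-- vanishes iff `2z - x` is a multiple of `w`, where `z = pt x c w s` -/
noncomputable def hv (x : V) (c : ℝ) (w : V) (s : ℝ) : ℝ :=
  D.e2v x (pt x c w s) - (s - c) * √(D.F (pt x c w s)) * D.e1v x (pt x c w s)

theorem cont_G : Continuous fun v : V => √(D.F v) :=
  Real.continuous_sqrt.comp (D.cont_F continuous_id)

theorem cont_e1v (x : V) : Continuous (D.e1v x) :=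
  D.cont_E1 continuous_const continuous_const continuous_id D.cont_G

theorem cont_e2v (x : V) : Continuous (D.e2v x) :=
  D.cont_E2 continuous_const continuous_const continuous_id D.cont_G

theorem cont_pt (x : V) (c : ℝ) : Continuous fun p : V × ℝ => pt x c p.1 p.2 := by
  unfold pt
  fun_prop

theorem cont_hv (x : V) (c : ℝ) : Continuous fun p : V × ℝ => D.hv x c p.1 p.2 :=
  ((D.cont_e2v x).comp (cont_pt x c)).sub (((continuous_snd.sub continuous_const).mul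
    (D.cont_G.comp (cont_pt x c))).mul ((D.cont_e1v x).comp (cont_pt x c)))

theorem cont_hv_left (x : V) (c s : ℝ) : Continuous fun w => D.hv x c w s := by
  have h : Continuous fun w : V => (w, s) := by fun_prop
  have h2 := D.cont_hv x c
  generalize D.hv x c = H at h2 ⊢
  exact h2.comp h

theorem cont_hv_right (x w : V) (c : ℝ) : Continuous fun s => D.hv x c w s := by
  have h : Continuous fun s : ℝ => (w, s) := by fun_prop
  have h2 := D.cont_hv x c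
  generalize D.hv x c = H at h2 ⊢
  exact h2.comp h

theorem sg_of_hv {x w : V} {c s : ℝ} (h : D.hv x c w s = 0) :
    D.sg x (√(D.F x)) (pt x c w s) (√(D.F (pt x c w s))) =
      (-(√(D.F (pt x c w s)) * D.e1v x (pt x c w s))) • w := by
  have h2 : D.e2v x (pt x c w s) = (s - c) * √(D.F (pt x c w s)) * D.e1v x (pt x c w s) :=
    sub_eq_zero.mp h
  have h3 : D.sg x (√(D.F x)) (pt x c w s) (√(D.F (pt x c w s))) =
      D.e2v x (pt x c w s) • x - (√(D.F (pt x c w s)) * D.e1v x (pt x c w s)) • pt x c w s := rfl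
  rw [h3, h2]
  generalize √(D.F (pt x c w s)) = g
  generalize D.e1v x (pt x c w s) = e
  unfold pt
  module

theorem sq_root {v : V} (hv : v ∈ D.S) : (√(D.F v)) ^ 2 = D.F v := Real.sq_sqrt (le_of_lt hv)

theorem mem_of_hv {x w : V} {c s : ℝ} {O : Set V} (hx : x ∈ D.K) (hxS : x ∈ D.S)
    (hOK : O ⊆ D.K) (hOS : O ⊆ D.S) (hz : pt x c w s ∈ O) (h : D.hv x c w s = 0)
    (hE : D.e1v x (pt x c w s) ≠ 0) (hw : D.F w ≠ 0) : w ∈ D.K ∩ D.S := by
  have h5 := D.sg_of_hv h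
  have hzS := hOS hz
  set z₁ := pt x c w s with hz₁
  have hg1 : 0 < √(D.F z₁) := Real.sqrt_pos.mpr hzS
  have hk : -(√(D.F z₁) * D.e1v x z₁) ≠ 0 := neg_ne_zero.mpr (mul_ne_zero hg1.ne' hE)
  have h6 := D.F_sg (x := x) (z := z₁) (D.sq_root hxS) (D.sq_root hzS)
  have hY : D.Ys x (√(D.F x)) z₁ (√(D.F z₁)) ≠ 0 := by
    intro h7
    rw [h7, h5, F_smul] at h6
    have h8 : (-(√(D.F z₁) * D.e1v x z₁)) ^ 4 * D.F w ≠ 0 :=
      mul_ne_zero (pow_ne_zero 4 hk) hw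
    exact h8 (by rw [h6]; ring)
  have h7 := D.sg_mem_K hx (hOK hz) (D.sq_root hxS) (D.sq_root hzS) hY
  rw [h5] at h7 h6
  refine ⟨D.mem_K_of_smul hk h7, ?_⟩
  show 0 < D.F w
  rw [F_smul] at h6
  have h8 : 0 < (D.Ys x (√(D.F x)) z₁ (√(D.F z₁))) ^ 2 := by positivity
  rw [← h6] at h8
  have h9 : 0 < (-(√(D.F z₁) * D.e1v x z₁)) ^ 4 := by positivity
  exact (mul_pos_iff_of_pos_left h9).mp h8

/-- the neighbourhood of `w₀` -/
theorem nhds_w {x w₀ : V} {c s₁ s₂ : ℝ} {O : Set V} (hx : x ∈ D.K) (hxS : x ∈ D.S)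
    (hO : IsOpen O) (hOK : O ⊆ D.K) (hOS : O ⊆ D.S) (hs12 : s₁ ≤ s₂)
    (hin : ∀ s ∈ Icc s₁ s₂, pt x c w₀ s ∈ O) (hE : ∀ s ∈ Icc s₁ s₂, D.e1v x (pt x c w₀ s) ≠ 0)
    (hsgn : D.hv x c w₀ s₁ * D.hv x c w₀ s₂ < 0) (hF : D.F w₀ ≠ 0) :
    ∀ᶠ w in 𝓝 w₀, w ∈ D.K ∩ D.S := by
  have o1 : IsOpen {p : V × ℝ | pt x c p.1 p.2 ∈ O} := hO.preimage (cont_pt x c)
  have o2 : IsOpen {p : V × ℝ | D.e1v x (pt x c p.1 p.2) ≠ 0} :=
    isOpen_ne.preimage ((D.cont_e1v x).comp (cont_pt x c))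
  have t1 : ∀ᶠ w in 𝓝 w₀, ∀ s ∈ Icc s₁ s₂, pt x c w s ∈ O ∧ D.e1v x (pt x c w s) ≠ 0 := by
    refine (isCompact_Icc (a := s₁) (b := s₂)).eventually_forall_of_forall_eventually
      fun s hs => ?_
    exact (o1.inter o2).mem_nhds (show (w₀, s) ∈ {p : V × ℝ | pt x c p.1 p.2 ∈ O} ∩
      {p : V × ℝ | D.e1v x (pt x c p.1 p.2) ≠ 0} from ⟨hin s hs, hE s hs⟩)
  have t2 : ∀ᶠ w in 𝓝 w₀, D.hv x c w s₁ * D.hv x c w s₂ < 0 := by
    have o3 : IsOpen {w | D.hv x c w s₁ * D.hv x c w s₂ < 0} :=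
      isOpen_lt ((D.cont_hv_left x c s₁).mul (D.cont_hv_left x c s₂)) continuous_const
    exact o3.mem_nhds hsgn
  have t3 : ∀ᶠ w in 𝓝 w₀, D.F w ≠ 0 := by
    have o4 : IsOpen {w | D.F w ≠ 0} := isOpen_ne.preimage (D.cont_F continuous_id)
    exact o4.mem_nhds hF
  filter_upwards [t1, t2, t3] with w h2 h3 h4
  have hc : Continuous fun s => D.hv x c w s := D.cont_hv_right x w c
  obtain ⟨s, hs, hs0⟩ := exists_zero hs12 (hc.continuousOn (s := Icc s₁ s₂)) h3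
  exact D.mem_of_hv hx hxS hOK hOS (h2 s hs).1 hs0 (h2 s hs).2 h4

/-- from a neighbourhood of `w₀` back to `x` -/
theorem nhds_x {x w₀ z₁ : V} (hxS : x ∈ D.S) (hzK : z₁ ∈ D.K) (hzS : z₁ ∈ D.S) {k : ℝ}
    (hk : k ≠ 0) (hsg : D.sg x (√(D.F x)) z₁ (√(D.F z₁)) = k • w₀) (hE2 : D.e2v x z₁ ≠ 0)
    (hW : ∀ᶠ w in 𝓝 w₀, w ∈ D.K ∩ D.S) : D.K ∈ 𝓝 x := by
  have hg2 := D.sq_root hzS
  set g₁ := √(D.F z₁) with hg₁
  have hsgc : Continuous fun v : V => k⁻¹ • D.sg v (√(D.F v)) z₁ g₁ :=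
    (D.cont_sg continuous_id D.cont_G continuous_const continuous_const).const_smul _
  have u1 : ∀ᶠ v in 𝓝 x, k⁻¹ • D.sg v (√(D.F v)) z₁ g₁ ∈ D.K ∩ D.S := by
    have h20 : k⁻¹ • D.sg x (√(D.F x)) z₁ g₁ = w₀ := by
      rw [hsg, smul_smul, inv_mul_cancel₀ hk, one_smul]
    have h21 : Tendsto (fun v : V => k⁻¹ • D.sg v (√(D.F v)) z₁ g₁) (𝓝 x) (𝓝 w₀) := by
      rw [← h20]
      exact hsgc.tendsto x
    exact h21.eventually hW
  have u2 : ∀ᶠ v in 𝓝 x, D.E2 v (√(D.F v)) z₁ g₁ ≠ 0 := by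
    have o4 : IsOpen {v | D.E2 v (√(D.F v)) z₁ g₁ ≠ 0} := isOpen_ne.preimage
      (D.cont_E2 continuous_id D.cont_G continuous_const continuous_const)
    exact o4.mem_nhds hE2
  have u3 : ∀ᶠ v in 𝓝 x, v ∈ D.S := D.isOpen_S.mem_nhds hxS
  have hfin : ∀ᶠ v in 𝓝 x, v ∈ D.K := by
    filter_upwards [u1, u2, u3] with v h6 h7 h8
    have h9 : D.sg v (√(D.F v)) z₁ g₁ ∈ D.K := D.mem_K_of_smul (inv_ne_zero hk) h6.1
    have h10 := D.F_sg (x := v) (z := z₁) (D.sq_root h8) hg2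
    have h11 := D.sg_sg (x := v) (φ := √(D.F v)) hg2
    have h12 := D.F_sg (x := D.sg v (√(D.F v)) z₁ g₁) (z := z₁)
      (φ := D.Ys v (√(D.F v)) z₁ g₁) h10.symm hg2
    have hv0 : D.F v ≠ 0 := ne_of_gt h8
    have h13 : D.Ys (D.sg v (√(D.F v)) z₁ g₁) (D.Ys v (√(D.F v)) z₁ g₁) z₁ g₁ ≠ 0 := by
      intro h14
      rw [h14, h11, F_smul] at h12
      exact mul_ne_zero (pow_ne_zero 4 (pow_ne_zero 4 h7)) hv0 (by rw [h12]; ring)
    have h14 := D.sg_mem_K h9 hzK h10.symm hg2 h13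
    rw [h11] at h14
    exact D.mem_K_of_smul (pow_ne_zero 4 h7) h14
  exact hfin

/-- [Lemma O] -/
theorem nhds_of_open {x z₀ : V} {O : Set V} (hx : x ∈ D.K) (hxS : x ∈ D.S) (hO : IsOpen O)
    (hOK : O ⊆ D.K) (hOS : O ⊆ D.S) (hz₀ : z₀ ∈ O) (hA : D.A x z₀ ≠ 0 ∨ D.A4 x z₀ ≠ 0) :
    D.K ∈ 𝓝 x := by
  have hx0 : 0 < D.F x := hxS
  -- the interval
  have hlc : Continuous fun s : ℝ => z₀ + s • x := by fun_prop
  have h1 : ∀ᶠ s in 𝓝 (0 : ℝ), z₀ + s • x ∈ O :=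
    hlc.continuousAt.eventually (hO.mem_nhds (by simpa using hz₀))
  obtain ⟨δ, hδ, hball⟩ := Metric.eventually_nhds_iff.mp h1
  have hin : ∀ s, -δ < s → s < δ → z₀ + s • x ∈ O := by
    intro s hs1 hs2
    refine hball ?_
    rw [Real.dist_eq, sub_zero, abs_lt]
    exact ⟨hs1, hs2⟩
  obtain ⟨s₁, s₂, c, hs1, hs12, hs2, hnz, hsgn, hfc⟩ := line_lemma (k0 := D.F z₀)
    (k1 := D.c1 x z₀) (k2 := D.c2 x z₀) (k3 := D.c3 x z₀) (k4 := D.F x) (φ := √(D.F x)) (a := -δ)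
    (b := δ) (g := fun s => √(D.F (z₀ + s • x)))
    (e1 := fun s => D.e1v x (z₀ + s • x))
    (e2 := fun s => D.e2v x (z₀ + s • x))
    (D.sq_root hxS) (Real.sqrt_pos.mpr hx0).ne' (by linarith) (D.not_sq_poly hA)
    (D.cont_G.comp hlc)
    (by
      intro s h2 h3
      have h4 := hOS (hin s h2 h3)
      exact ⟨Real.sqrt_pos.mpr h4, by rw [D.sq_root h4, F_line]⟩)
    (by
      intro s
      show D.E1 x (√(D.F x)) (z₀ + s • x) (√(D.F (z₀ + s • x))) = _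
      unfold E1
      rw [c1_line, c3_line])
    (by
      intro s
      show D.E2 x (√(D.F x)) (z₀ + s • x) (√(D.F (z₀ + s • x))) = _
      unfold E2
      rw [c2_line, c3_line])
  have hFw₀ : D.F (z₀ + c • x) ≠ 0 := by rw [F_line]; exact hfc
  have hpt : ∀ s, pt x c (z₀ + c • x) s = z₀ + s • x := by
    intro s; unfold pt; rw [add_sub_cancel_right]
  have hh : ∀ s, D.hv x c (z₀ + c • x) s = D.e2v x (z₀ + s • x) -
      (s - c) * √(D.F (z₀ + s • x)) * D.e1v x (z₀ + s • x) := by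
    intro s; unfold hv; rw [hpt]
  have hsgn' : D.hv x c (z₀ + c • x) s₁ * D.hv x c (z₀ + c • x) s₂ < 0 := by
    rw [hh, hh]; exact hsgn
  have hin' : ∀ s ∈ Icc s₁ s₂, pt x c (z₀ + c • x) s ∈ O := by
    intro s hs
    rw [hpt]
    exact hin s (by linarith [hs.1]) (by linarith [hs.2])
  have hW := D.nhds_w hx hxS hO hOK hOS hs12.le hin'
    (by intro s hs; rw [hpt]; exact (hnz s hs).1) hsgn' hFw₀
  have hc : Continuous fun s => D.hv x c (z₀ + c • x) s := D.cont_hv_right x (z₀ + c • x) c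
  obtain ⟨s, hs, hs0⟩ := exists_zero hs12.le (hc.continuousOn (s := Icc s₁ s₂)) hsgn'
  have h5 := D.sg_of_hv hs0
  have hzO := hin' s hs
  refine D.nhds_x hxS (hOK hzO) (hOS hzO) ?_ h5 (by rw [hpt]; exact (hnz s hs).2) hW
  refine neg_ne_zero.mpr (mul_ne_zero (Real.sqrt_pos.mpr (hOS hzO)).ne' ?_)
  rw [hpt]
  exact (hnz s hs).1

/-- [QO] -/
theorem isOpen_K_inter_S (hint : D.HasInt) {P : V} (_hP : P ∈ D.S) (hns : ¬ D.Special P) :
    IsOpen (D.K ∩ D.S) := by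
  obtain ⟨O, hO, hne, hOK, hOS⟩ := hint
  rw [isOpen_iff_mem_nhds]
  rintro x ⟨hx, hxS⟩
  refine inter_mem ?_ (D.isOpen_S.mem_nhds hxS)
  obtain ⟨z, hz⟩ := D.exists_ne_of_not_special (x := x) (ne_of_gt hxS) hns
  obtain ⟨z₀, hz₀, hz₁⟩ : ∃ z₀ ∈ O, D.A x z₀ ≠ 0 ∨ D.A4 x z₀ ≠ 0 := by
    by_contra hcon
    push Not at hcon
    rcases hz with h | h
    · exact h (PF_zero (D.PF_A x) hO hne (fun v hv => (hcon v hv).1) z)
    · exact h (PF_zero (D.PF_A4 x) hO hne (fun v hv => (hcon v hv).2) z)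
  exact D.nhds_of_open hx hxS hO hOK hOS hz₀ hz₁

end QuarData

end Pool.Agent.Lib.MP42.Quar
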