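import Pool.Agent.Lib.MP_42de19_nt.Quar.Coord
import Pool.Agent.Lib.MP_42de19_nt.CubicHyp.Div
import Pool.Agent.Lib.MP_42de19_nt.Boxes

set_option autoImplicit false

/-! Binary quartic forms: the closure of the rational points is semialgebraic. -/

namespace Pool.Agent.Lib.MP42.Quar

open Topology Filter Set
open Pool.Agent.Lib.MP42.CubicHyp (castV ratV dense_ratV IsPoly)

/-- the chart `v i ≠ 0` when `v = v i • a + v j • b` for all `v` -/
private theorem sa_chart {N : ℕ} (T : SymT4 N) {a b : Fin N → ℝ} (ha : a ∈ ratV N)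
    (hb : b ∈ ratV N) (i j : Fin N) (hdec : ∀ v : Fin N → ℝ, v = v i • a + v j • b) :
    SA (evR N) (((quar T).K ∩ (quar T).S) ∩ {v | v i ≠ 0}) := by
  set D := quar T with hD
  obtain ⟨c0, h0⟩ := D.ratQ_F (a := a) ha
  obtain ⟨c1, h1⟩ := D.ratQ_c1 (a := a) (b := b) ha hb
  obtain ⟨c2, h2⟩ := D.ratQ_c2 (a := a) (b := b) ha hb
  obtain ⟨c3, h3⟩ := D.ratQ_c3 (a := a) (b := b) ha hb
  obtain ⟨c4, h4⟩ := D.ratQ_F (a := b) hb
  have hF : ∀ x y : ℝ, D.F (x • a + y • b) = x ^ 4 * c0 + 4 * x ^ 3 * y * c1 +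
      6 * x ^ 2 * y ^ 2 * c2 + 4 * x * y ^ 3 * c3 + y ^ 4 * c4 := by
    intro x y
    rw [D.F_comb, h0, h1, h2, h3, h4]
  set p : Polynomial ℚ := Polynomial.C c4 * Polynomial.X ^ 4 +
    Polynomial.C (4 * c3) * Polynomial.X ^ 3 + Polynomial.C (6 * c2) * Polynomial.X ^ 2 +
    Polynomial.C (4 * c1) * Polynomial.X + Polynomial.C c0 with hp
  have hpdeg : p.natDegree ≤ 4 := by
    rw [hp]
    compute_degree
  have hpe : ∀ t : ℚ, p.eval t = c0 + 4 * t * c1 + 6 * t ^ 2 * c2 + 4 * t ^ 3 * c3 + t ^ 4 * c4 := by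
    intro t
    rw [hp]
    simp only [Polynomial.eval_add, Polynomial.eval_mul, Polynomial.eval_C, Polynomial.eval_pow,
      Polynomial.eval_X]
    ring
  have hpe' : ∀ t : ℚ, ((p.eval t : ℚ) : ℝ) = D.F ((1 : ℝ) • a + (t : ℝ) • b) := by
    intro t
    rw [hF, hpe]
    push_cast
    ring
  -- the saturated set
  let A : Set (Fin 1 → ℚ) := {z | ∃ r : ℚ, r ≠ 0 ∧ p.eval (z 0) = r ^ 2}
  have hA : ∀ z ∈ A, ∀ i s, Eqv ((fun _ : Fin 1 => p) i) (z i) s → Function.update z i s ∈ A := by
    rintro z ⟨r, hr, hz⟩ k s ⟨l, hl, hls⟩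
    have hk : k = 0 := Subsingleton.elim _ _
    subst hk
    refine ⟨l * r, mul_ne_zero hl hr, ?_⟩
    have hls' : p.eval s = l ^ 2 * p.eval (z 0) := hls
    rw [Function.update_self, hls', hz]
    ring
  have hSA := sa_closure_saturated (fun _ : Fin 1 => p) (fun _ => hpdeg) A hA
  have pφ : ∀ k : Fin 1, IsPoly (fun v : Fin N → ℝ => (fun (v : Fin N → ℝ) (_ : Fin 1) => v j) v k) :=
    fun _ => IsPoly.coord j
  have hdiv := CubicHyp.SA.comap_div hSA (IsPoly.coord i) pφ
  have hset : (D.K ∩ D.S) ∩ {v | v i ≠ 0} =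
      D.S ∩ {v | v i ≠ 0 ∧ (fun _ : Fin 1 => v j / v i) ∈ closure (castSet A)} := by
    apply Set.Subset.antisymm
    · rintro v ⟨⟨hv, hvS⟩, hvi⟩
      have hvi' : v i ≠ 0 := hvi
      refine ⟨hvS, hvi', ?_⟩
      have hopen : IsOpen {v : Fin N → ℝ | v i ≠ 0} := isOpen_ne.preimage (continuous_apply i)
      have h5 : v ∈ closure (D.ratX ∩ {v | v i ≠ 0}) := by
        rw [mem_closure_iff]
        intro O hO hvO
        obtain ⟨w, hw1, hw2⟩ := mem_closure_iff.mp hv (O ∩ {v | v i ≠ 0}) (hO.inter hopen)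
          ⟨hvO, hvi'⟩
        exact ⟨w, hw1.1, hw2, hw1.2⟩
      have h6 : ContinuousAt (fun v : Fin N → ℝ => (fun _ => v j / v i : Fin 1 → ℝ)) v := by
        rw [continuousAt_pi]
        intro _
        exact ((continuous_apply j).continuousAt).div (continuous_apply i).continuousAt hvi'
      refine h6.continuousWithinAt.mem_closure h5 ?_
      rintro w ⟨⟨hwQ, r, hr, hwX⟩, hwi⟩
      have hwi' : w i ≠ 0 := hwi
      obtain ⟨q, rfl⟩ := hwQ
      have hqi : q i ≠ 0 := by
        rintro h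
        exact hwi' (by simp [castV, h])
      have hqi' : (q i : ℝ) ≠ 0 := by exact_mod_cast hqi
      refine ⟨fun _ => q j / q i, ⟨r / (q i) ^ 2, div_ne_zero hr (pow_ne_zero 2 hqi), ?_⟩, ?_⟩
      · rw [hdec (castV q)] at hwX
        have hwX' : D.F ((q i : ℝ) • a + (q j : ℝ) • b) = (r : ℝ) ^ 2 := hwX
        rw [hF] at hwX'
        have hwX2 : (q i) ^ 4 * c0 + 4 * (q i) ^ 3 * (q j) * c1 + 6 * (q i) ^ 2 * (q j) ^ 2 * c2 +
            4 * (q i) * (q j) ^ 3 * c3 + (q j) ^ 4 * c4 = r ^ 2 := by exact_mod_cast hwX'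
        show p.eval (q j / q i) = _
        rw [hpe, div_pow r, ← hwX2]
        field_simp
      · intro _
        simp [castV]
    · rintro v ⟨hvS, hvi, hv⟩
      refine ⟨⟨?_, hvS⟩, hvi⟩
      have hc : Continuous (fun w : Fin 1 → ℝ => (1 : ℝ) • a + w 0 • b) := by fun_prop
      have h5 : (1 : ℝ) • a + (v j / v i) • b ∈ D.K := by
        refine hc.continuousWithinAt.mem_closure hv ?_
        rintro w ⟨z, ⟨r, hr, hz⟩, hw⟩
        refine ⟨?_, r, hr, ?_⟩
        · refine D.add_mem_Q (D.smul_mem_Q ha ⟨1, by norm_num⟩) (D.smul_mem_Q hb ⟨z 0, hw 0⟩)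
        · show D.F ((1 : ℝ) • a + w 0 • b) = _
          rw [hw 0, ← hpe', hz]
          push_cast
          rfl
      have h6 : v = v i • ((1 : ℝ) • a + (v j / v i) • b) := by
        conv_lhs => rw [hdec v]
        rw [smul_add, smul_smul, smul_smul, mul_one, mul_div_cancel₀ _ hvi]
      rw [h6]
      exact D.smul_mem_K h5 hvi
  rw [hset]
  exact (sa_S T).inter hdiv

private theorem F_zero {N : ℕ} (T : SymT4 N) : (quar T).F 0 = 0 := by
  unfold QuarData.F
  simp

private theorem single_mem {N : ℕ} (i : Fin N) : (Pi.single i 1 : Fin N → ℝ) ∈ ratV N := by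
  refine ⟨Pi.single i 1, ?_⟩
  funext j
  by_cases h : j = i
  · subst h; simp [castV]
  · simp [castV, h]

/-- Binary quartic forms. -/
theorem sa_small {N : ℕ} (hN : N ≤ 2) (T : SymT4 N) :
    SA (evR N) ((quar T).K ∩ (quar T).S) := by
  have hcases : N = 0 ∨ N = 1 ∨ N = 2 := by omega
  rcases hcases with rfl | rfl | rfl
  · have h : (quar T).K ∩ (quar T).S = ∅ := by
      ext v
      simp only [mem_inter_iff, mem_empty_iff_false, iff_false, not_and]
      intro _ hv
      have hv' : 0 < (quar T).F v := hv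
      have h0 : v = 0 := Subsingleton.elim _ _
      rw [h0, F_zero] at hv'
      exact lt_irrefl _ hv'
    rw [h]
    exact SA.empty
  · have h := sa_chart T (single_mem (0 : Fin 1)) (ratV 1).zero_mem 0 0 (by
      intro v
      funext k
      have hk : k = 0 := Subsingleton.elim _ _
      subst hk
      simp)
    have he : ((quar T).K ∩ (quar T).S) ∩ {v | v 0 ≠ 0} = (quar T).K ∩ (quar T).S := by
      apply Set.Subset.antisymm Set.inter_subset_left
      rintro v hv
      refine ⟨hv, ?_⟩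
      intro h0
      have hv' : 0 < (quar T).F v := hv.2
      have h1 : v = 0 := by
        funext k
        have hk : k = 0 := Subsingleton.elim _ _
        subst hk
        exact h0
      rw [h1, F_zero] at hv'
      exact lt_irrefl _ hv'
    rwa [he] at h
  · have h := (sa_chart T (single_mem (0 : Fin 2)) (single_mem (1 : Fin 2)) 0 1 (by
      intro v
      funext k
      fin_cases k <;> simp)).union
      (sa_chart T (single_mem (1 : Fin 2)) (single_mem (0 : Fin 2)) 1 0 (by
      intro v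
      funext k
      fin_cases k <;> simp))
    have he : ((quar T).K ∩ (quar T).S) ∩ {v | v 0 ≠ 0} ∪
        ((quar T).K ∩ (quar T).S) ∩ {v | v 1 ≠ 0} = (quar T).K ∩ (quar T).S := by
      rw [← Set.inter_union_distrib_left]
      apply Set.Subset.antisymm Set.inter_subset_left
      rintro v hv
      refine ⟨hv, ?_⟩
      by_contra hcon
      simp only [mem_union, mem_ofPred_eq, not_or, not_not] at hcon
      have hv' : 0 < (quar T).F v := hv.2
      have h1 : v = 0 := by
        funext k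
        fin_cases k
        · exact hcon.1
        · exact hcon.2
      rw [h1, F_zero] at hv'
      exact lt_irrefl _ hv'
    rwa [he] at h

end Pool.Agent.Lib.MP42.Quar
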