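import Pool.Agent.Lib.MP_42de19_nt.Quar.Coord
import Pool.Agent.Lib.MP_42de19_nt.CubicHyp.Vertex
import Pool.Agent.Lib.MP_42de19_nt.CubicHyp.Quadric

set_option autoImplicit false

/-! Double covers branched along quartic cones: a rational vertex. -/

namespace Pool.Agent.Lib.MP42.Quar

open Topology Filter Set
open Pool.Agent.Lib.MP42.CubicHyp (castV ratV dense_ratV)
open Pool.Agent.Lib.MP42.CubicHyp.Vertex (rr ins ins_self ins_succ split)

namespace Vertex

variable {N : ℕ}

/-- the tensor with one coordinate removed -/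
def restr (T : SymT4 (N + 1)) (i : Fin (N + 1)) : SymT4 N where
  T j k l m := T.T (i.succAbove j) (i.succAbove k) (i.succAbove l) (i.succAbove m)
  s12 _ _ _ _ := T.s12 _ _ _ _
  s23 _ _ _ _ := T.s23 _ _ _ _
  s34 _ _ _ _ := T.s34 _ _ _ _

theorem F_ins (T : SymT4 (N + 1)) (i : Fin (N + 1)) (u : Fin N → ℝ) :
    (quar T).F (ins i u) = (quar (restr T i)).F u := by
  unfold QuarData.F
  rw [quar_B, quar_B]
  simp only [Fin.sum_univ_succAbove _ i, ins_self, ins_succ, zero_mul, mul_zero,
    Finset.sum_const_zero, zero_add, restr]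

theorem B_last {T : SymT4 N} {a : Fin N → ℝ} (hv : (quar T).B a = 0) (x y z : Fin N → ℝ) :
    (quar T).B x y z a = 0 := by
  rw [(quar T).s34, (quar T).s23, (quar T).s12, hv]
  rfl

theorem B_zero {T : SymT4 N} {a : Fin N → ℝ} (hv : (quar T).B a = 0) (x y z : Fin N → ℝ) :
    (quar T).B a x y z = 0 := by
  rw [hv]
  rfl

theorem B_snd {T : SymT4 N} {a : Fin N → ℝ} (hv : (quar T).B a = 0) (x y z : Fin N → ℝ) :
    (quar T).B x a y z = 0 := by
  rw [(quar T).s12, B_zero hv]

theorem B_trd {T : SymT4 N} {a : Fin N → ℝ} (hv : (quar T).B a = 0) (x y z : Fin N → ℝ) :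
    (quar T).B x y a z = 0 := by
  rw [(quar T).s23, B_snd hv]

theorem F_vert {T : SymT4 N} {a : Fin N → ℝ} (hv : (quar T).B a = 0)
    (x : Fin N → ℝ) (s : ℝ) : (quar T).F (x + s • a) = (quar T).F x := by
  have h1 := (quar T).F_comb x a 1 s
  rw [one_smul] at h1
  rw [h1]
  unfold QuarData.c1 QuarData.c2 QuarData.c3
  rw [B_last hv, B_last hv, B_last hv, show (quar T).F a = 0 from B_last hv a a a]
  ring

end Vertex

open Vertex

/-- a rational vertex -/
theorem sa_vertex {N : ℕ} (ih : ∀ T : SymT4 N, SA (evR N) ((quar T).K ∩ (quar T).S))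
    (T : SymT4 (N + 1)) (a : Fin (N + 1) → ℝ) (ha : a ∈ ratV (N + 1)) (ha0 : a ≠ 0)
    (hv : (quar T).B a = 0) : SA (evR (N + 1)) ((quar T).K ∩ (quar T).S) := by
  obtain ⟨i, hi⟩ : ∃ i, a i ≠ 0 := by
    by_contra h
    push Not at h
    exact ha0 (funext h)
  obtain ⟨q, hq⟩ := ha
  have hqi : ∀ k, a k = (q k : ℝ) := fun k => by rw [← hq]; rfl
  have hpoly : ∀ j, CubicHyp.IsPoly (fun v : Fin (N + 1) → ℝ => rr a i v j) := by
    intro j
    have h1 := (CubicHyp.IsPoly.coord (N := N + 1) (i.succAbove j)).sub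
      ((CubicHyp.IsPoly.coord (N := N + 1) i).mul (CubicHyp.IsPoly.const (N := N + 1) (q (i.succAbove j) / q i)))
    refine h1.congr fun x => ?_
    simp only [rr, hqi]
    push_cast
    ring
  have hrc : Continuous (rr a i) := continuous_pi fun j => (hpoly j).continuous
  have hic : Continuous (ins i : (Fin N → ℝ) → (Fin (N + 1) → ℝ)) := by
    refine continuous_pi fun k => ?_
    refine Fin.succAboveCases i ?_ (fun j => ?_) k
    · simp only [ins_self]; exact continuous_const
    · simp only [ins_succ]; exact continuous_apply j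
  have hFr : ∀ v, (quar T).F v = (quar (restr T i)).F (rr a i v) := by
    intro v
    rw [← F_ins, ← F_vert hv (ins i (rr a i v)) (v i / a i), split a i hi v]
  have hrat : ∀ v ∈ ratV (N + 1), rr a i v ∈ ratV N := by
    rintro _ ⟨p, rfl⟩
    refine ⟨fun j => p (i.succAbove j) - p i * (q (i.succAbove j) / q i), ?_⟩
    funext j
    simp only [rr, hqi, castV]
    push_cast
    ring
  have hirat : ∀ u ∈ ratV N, ins i u ∈ ratV (N + 1) := by
    rintro _ ⟨p, rfl⟩
    refine ⟨i.insertNth (α := fun _ => ℚ) 0 p, ?_⟩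
    funext k
    refine Fin.succAboveCases i ?_ (fun j => ?_) k
    · rw [ins_self]; simp [castV]
    · rw [ins_succ]; simp [castV]
  have key : (quar T).K = rr a i ⁻¹' (quar (restr T i)).K := by
    apply Set.Subset.antisymm
    · refine closure_minimal ?_ ((isClosed_closure (s := (quar (restr T i)).ratX)).preimage hrc)
      rintro v ⟨hv1, r, hr0, hr⟩
      refine subset_closure ⟨hrat v hv1, r, hr0, ?_⟩
      rw [← hFr]; exact hr
    · intro v hv1
      have h1 : (rr a i v, v i / a i) ∈
          closure ((quar (restr T i)).ratX ×ˢ (Set.range (fun q : ℚ => (q : ℝ)))) := by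
        rw [closure_prod_eq]
        exact ⟨hv1, Rat.denseRange_cast _⟩
      have hc : Continuous fun p : (Fin N → ℝ) × ℝ => ins i p.1 + p.2 • a :=
        (hic.comp continuous_fst).add (continuous_snd.smul continuous_const)
      have h2 := (hc.continuousWithinAt (s := (quar (restr T i)).ratX ×ˢ
        (Set.range (fun q : ℚ => (q : ℝ))))).mem_closure (x := (rr a i v, v i / a i))
        (t := (quar T).ratX) h1 ?_
      · simp only [split a i hi v] at h2
        exact h2
      · rintro ⟨u, s⟩ ⟨⟨hu1, r, hr0, hr⟩, ⟨s', rfl⟩⟩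
        refine ⟨(ratV (N + 1)).add_mem (hirat u hu1) ((quar T).smulQ s' a ⟨q, hq⟩), r, hr0, ?_⟩
        rw [F_vert hv, F_ins]
        exact hr
  have key2 : (quar T).K ∩ (quar T).S =
      rr a i ⁻¹' ((quar (restr T i)).K ∩ (quar (restr T i)).S) := by
    rw [Set.preimage_inter, ← key]
    congr 1
    ext v
    show 0 < (quar T).F v ↔ 0 < (quar (restr T i)).F (rr a i v)
    rw [hFr]
  rw [key2]
  exact CubicHyp.SA.comap_poly (ih _) hpoly

/-- the vertex is a rational subspace -/
theorem exists_rat_vertex {N : ℕ} (T : SymT4 N) (h : ¬ (quar T).NoVertex) :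
    ∃ a ∈ ratV N, a ≠ 0 ∧ (quar T).B a = 0 := by
  unfold QuarData.NoVertex at h
  push Not at h
  obtain ⟨v, hv0, hv⟩ := h
  let D := CubicHyp.cub (N := N) ⟨fun _ _ _ => 0, fun _ _ _ => rfl, fun _ _ _ => rfl⟩
  let e : Fin N → (Fin N → ℝ) := fun i => Pi.single i 1
  have he : ∀ i, e i ∈ ratV N := fun i => CubicHyp.Quadric.single_mem i
  let l : Fin N × Fin N × Fin N → ((Fin N → ℝ) →ₗ[ℝ] ℝ) := fun p =>
    (quar T).B (e p.1) (e p.2.1) (e p.2.2)
  have h1 : D.RatSub (⊤ ⊓ ⨅ p ∈ (Finset.univ : Finset (Fin N × Fin N × Fin N)),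
      LinearMap.ker (l p)) :=
    CubicHyp.CubData.RatSub.inf_iInf_ker D.ratSub_top Finset.univ l
      fun p _ w hw => (quar T).ratQ _ (he p.1) _ (he p.2.1) _ (he p.2.2) w hw
  have h2 : ∀ w : Fin N → ℝ, w ∈ (⊤ ⊓ ⨅ p ∈ (Finset.univ : Finset (Fin N × Fin N × Fin N)),
      LinearMap.ker (l p) : Submodule ℝ (Fin N → ℝ)) ↔ (quar T).B w = 0 := by
    intro w
    simp only [top_inf_eq, Finset.mem_univ, iInf_pos, Submodule.mem_iInf, LinearMap.mem_ker]
    constructor
    · intro hw
      refine LinearMap.ext fun x => ?_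
      refine LinearMap.ext fun y => ?_
      refine LinearMap.ext fun z => ?_
      simp only [LinearMap.zero_apply]
      have hz : ∀ i j, (quar T).B w (e i) (e j) = 0 := by
        intro i j
        refine CubicHyp.Quadric.lin_eq_zero fun k => ?_
        have := hw (i, j, k)
        have h3 : (quar T).B (e i) (e j) (e k) w = (quar T).B w (e i) (e j) (e k) := by
          rw [(quar T).s34, (quar T).s23, (quar T).s12]
        rw [← h3]; exact this
      have hy : ∀ i y, (quar T).B w (e i) y = 0 := by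
        intro i y
        conv_lhs => rw [CubicHyp.Quadric.eq_sum y]
        rw [map_sum]
        refine Finset.sum_eq_zero fun j _ => ?_
        rw [map_smul]
        have := hz i j
        show y j • (quar T).B w (e i) (e j) = 0
        rw [this, smul_zero]
      have hx : (quar T).B w x = 0 := by
        conv_lhs => rw [CubicHyp.Quadric.eq_sum x]
        rw [map_sum]
        refine Finset.sum_eq_zero fun j _ => ?_
        rw [map_smul]
        have h4 : (quar T).B w (e j) = 0 := LinearMap.ext fun y => hy j y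
        show x j • (quar T).B w (e j) = 0
        rw [h4, smul_zero]
      rw [hx]
      rfl
    · intro hw p
      exact B_last hw _ _ _
  have h3 := h1 v ((h2 v).2 hv)
  obtain ⟨u, hu0, huQ, hu⟩ := mem_closure_iff.1 h3 {u | u ≠ 0} isOpen_ne hv0
  exact ⟨u, huQ, hu0, (h2 u).1 hu⟩

end Pool.Agent.Lib.MP42.Quar
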