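import Pool.Agent.Lib.MP_42de19_nt.Quar.Int
import Pool.Agent.Lib.MP_42de19_nt.Quar.Open
import Pool.Agent.Lib.MP_42de19_nt.Quar.AllSpecial
import Pool.Agent.Lib.MP_42de19_nt.Quar.Small
import Pool.Agent.Lib.MP_42de19_nt.Quar.Vertex
import Pool.Agent.Lib.MP_42de19_nt.Quar.Homog
import Pool.Agent.Lib.MP_42de19_nt.Quar.Lin
import Pool.Agent.Lib.MP_42de19_nt.Cover

set_option autoImplicit false

/-! The main theorem on double covers branched along quartics. -/

namespace Pool.Agent.Lib.MP42.Quar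

open Topology Filter Set
open Pool.Agent.Lib.MP42.CubicHyp (castV ratV)

/-- The closure of the rational points at which a rational quartic form is a nonzero square is
semialgebraic over `ℚ` (in the locus where the form is positive). -/
theorem sa_K : ∀ (N : ℕ) (T : SymT4 N), SA (evR N) ((quar T).K ∩ (quar T).S) := by
  intro N
  induction N with
  | zero => intro T; exact sa_small (by omega) T
  | succ N ih =>
    intro T
    rcases Nat.lt_or_ge 2 (N + 1) with h3 | h3
    swap
    · exact sa_small h3 T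
    by_cases hV : (quar T).NoVertex
    swap
    · obtain ⟨a, ha, ha0, hv⟩ := exists_rat_vertex T hV
      exact sa_vertex ih T a ha ha0 hv
    by_cases hl : (quar T).NoLin
    swap
    · unfold QuarData.NoLin at hl
      push Not at hl
      obtain ⟨l, hl, hl0, h⟩ := hl
      exact sa_lin T l hl hl0 h
    by_cases hs : ∀ P ∈ (quar T).ratX, (quar T).Special P
    · exact sa_special T hs
    push Not at hs
    obtain ⟨P, hP, hPs⟩ := hs
    have hint := (quar T).hasInt hV hl (by rw [Module.finrank_fin_fun]; omega) hP hPs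
    have hopen := (quar T).isOpen_K_inter_S hint ((quar T).ratX_subset_S hP) hPs
    refine SA.of_clopen (sa_S T) hopen (QuarData.isClosed_K (quar T)) ?_ ?_
    · ext x; constructor
      · rintro ⟨h1, h2⟩; exact ⟨h2, h1, h2⟩
      · rintro ⟨-, h⟩; exact h
    · rw [inter_comm]

section affine

variable {m : ℕ} (f : MvPolynomial (Fin m) ℚ)

/-- the rational points at which `f` is a nonzero rational square -/
def sqSet : Set (Fin m → ℝ) :=
  {x | ∃ q : Fin m → ℚ, (∃ r : ℚ, r ≠ 0 ∧ MvPolynomial.eval q f = r ^ 2) ∧ ∀ i, x i = (q i : ℝ)}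

private theorem cons_castV' {n : ℕ} (q : Fin n → ℚ) :
    (Fin.cons 1 (castV q) : Fin (n + 1) → ℝ) = castV (Fin.cons 1 q) := by
  funext i
  refine Fin.cases ?_ (fun j => ?_) i
  · simp [castV]
  · simp [castV]

private theorem cons_div' {n : ℕ} {u : Fin (n + 1) → ℝ} (h : u 0 ≠ 0) :
    (Fin.cons 1 (fun i : Fin n => u i.succ / u 0) : Fin (n + 1) → ℝ) = (u 0)⁻¹ • u := by
  funext i
  refine Fin.cases ?_ (fun j => ?_) i
  · simp [h]
  · simp [div_eq_inv_mul]

private theorem continuous_cons_one {n : ℕ} :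
    Continuous (fun x : Fin n → ℝ => (Fin.cons 1 x : Fin (n + 1) → ℝ)) := by
  refine continuous_pi fun i => ?_
  refine Fin.cases ?_ (fun j => ?_) i
  · simpa using continuous_const
  · simpa using continuous_apply j

theorem closure_sqSet (T : SymT4 (m + 1))
    (hT : ∀ x : Fin m → ℝ, (MvPolynomial.aeval x f : ℝ) = (quar T).F (Fin.cons 1 x)) :
    closure (sqSet f) = (fun x : Fin m → ℝ => (Fin.cons 1 x : Fin (m + 1) → ℝ)) ⁻¹' (quar T).K := by
  have h1 : ∀ x ∈ sqSet f, (Fin.cons 1 x : Fin (m + 1) → ℝ) ∈ (quar T).ratX := by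
    rintro x ⟨q, ⟨r, hr, hq⟩, hx⟩
    have hx' : x = castV q := funext hx
    subst hx'
    refine ⟨⟨Fin.cons 1 q, (cons_castV' q).symm⟩, r, hr, ?_⟩
    rw [← hT]
    have h2 : (MvPolynomial.aeval (castV q) f : ℝ) = (MvPolynomial.eval q f : ℚ) :=
      aeval_ratCast f q
    rw [h2, hq]
    push_cast
    rfl
  have h2 : ∀ u ∈ (quar T).ratX, u 0 ≠ 0 → (fun i : Fin m => u i.succ / u 0) ∈ sqSet f := by
    rintro u ⟨⟨p, rfl⟩, r, hr, hu⟩ h0
    have hp0 : p 0 ≠ 0 := by
      intro h
      exact h0 (by simp [castV, h])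
    refine ⟨fun i : Fin m => p i.succ / p 0, ⟨r / p 0 ^ 2, div_ne_zero hr (pow_ne_zero 2 hp0),
      ?_⟩, fun i => by simp [castV]⟩
    have h2 : (MvPolynomial.aeval (castV (fun i : Fin m => p i.succ / p 0)) f : ℝ) =
      (MvPolynomial.eval (fun i : Fin m => p i.succ / p 0) f : ℚ) := aeval_ratCast f _
    have h3 : castV (fun i : Fin m => p i.succ / p 0) =
        fun i : Fin m => castV p i.succ / castV p 0 := by
      funext i; simp [castV]
    rw [hT, h3, cons_div' h0, QuarData.F_smul, hu] at h2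
    have h4 : ((MvPolynomial.eval (fun i : Fin m => p i.succ / p 0) f : ℚ) : ℝ) =
        (((r / p 0 ^ 2) ^ 2 : ℚ) : ℝ) := by
      rw [← h2]
      have : castV p 0 = (p 0 : ℝ) := rfl
      rw [this]
      push_cast
      have : (p 0 : ℝ) ≠ 0 := by exact_mod_cast hp0
      field_simp
    exact_mod_cast h4
  ext x
  rw [mem_preimage]
  constructor
  · intro hx
    exact continuous_cons_one.continuousWithinAt.mem_closure hx h1
  · intro hx
    have h3 : ∀ᶠ u in 𝓝 (Fin.cons 1 x : Fin (m + 1) → ℝ), u 0 ≠ 0 := by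
      refine (continuous_apply (0 : Fin (m + 1))).continuousAt.eventually_ne ?_
      simp
    have h4 : (Fin.cons 1 x : Fin (m + 1) → ℝ) ∈ closure ((quar T).ratX ∩ {u | u 0 ≠ 0}) := by
      have hx' : (Fin.cons 1 x : Fin (m + 1) → ℝ) ∈ closure (quar T).ratX := hx
      rw [mem_closure_iff_frequently] at hx' ⊢
      exact hx'.and_eventually h3
    have h5 : ContinuousAt (fun u : Fin (m + 1) → ℝ => fun i : Fin m => u i.succ / u 0)
        (Fin.cons 1 x) := by
      refine continuousAt_pi.2 fun i => ?_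
      refine (continuous_apply _).continuousAt.div (continuous_apply _).continuousAt ?_
      simp
    have h6 := h5.continuousWithinAt.mem_closure h4 (fun u hu => h2 u hu.1 hu.2)
    have h7 : (fun i : Fin m => (Fin.cons 1 x : Fin (m + 1) → ℝ) i.succ /
        (Fin.cons 1 x : Fin (m + 1) → ℝ) 0) = x := by
      funext i
      simp
    rwa [h7] at h6

/-- **Double covers, base version** -/
theorem sa_closure_sqSet (hf : f.totalDegree ≤ 4) : SA (evR m) (closure (sqSet f)) := by
  obtain ⟨T, hT⟩ := exists_symT4 f hf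
  have h1 : closure (sqSet f) = closure ((fun x : Fin m → ℝ =>
      (Fin.cons 1 x : Fin (m + 1) → ℝ)) ⁻¹' ((quar T).K ∩ (quar T).S)) := by
    apply Set.Subset.antisymm
    · apply closure_mono
      intro x hx
      refine ⟨?_, ?_⟩
      · have := subset_closure hx
        rw [closure_sqSet f T hT] at this
        exact this
      · show 0 < (quar T).F (Fin.cons 1 x)
        rw [← hT]
        obtain ⟨q, ⟨r, hr, hq⟩, hx⟩ := hx
        have hx' : x = castV q := funext hx
        subst hx'
        have h2 : (MvPolynomial.aeval (castV q) f : ℝ) = (MvPolynomial.eval q f : ℚ) :=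
          aeval_ratCast f q
        rw [h2, hq]
        push_cast
        have : (r : ℝ) ≠ 0 := by exact_mod_cast hr
        positivity
    · apply closure_minimal _ isClosed_closure
      rintro x ⟨hx, -⟩
      rw [closure_sqSet f T hT]
      exact hx
  rw [h1]
  refine SA.closure (CubicHyp.SA.comap_poly (sa_K _ T) ?_)
  intro i
  refine Fin.cases ?_ (fun j => ?_) i
  · simpa using CubicHyp.IsPoly.const (N := m) 1
  · simpa using CubicHyp.IsPoly.coord j

/-- the rational points of `x₀² = f(x₁, …)` with `x₀ ≠ 0` -/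
def ratCov : Set (Fin (m + 1) → ℝ) :=
  {v | ∃ q : Fin (m + 1) → ℚ, q 0 ≠ 0 ∧ q 0 ^ 2 = MvPolynomial.eval (Fin.tail q) f ∧
    ∀ i, v i = (q i : ℝ)}

/-- the closure of these points, away from `x₀ = 0` -/
def covSet : Set (Fin (m + 1) → ℝ) :=
  {w | w 0 ≠ 0 ∧ w 0 ^ 2 = (MvPolynomial.aeval (Fin.tail w) f : ℝ) ∧
    Fin.tail w ∈ closure (sqSet f)}

theorem covSet_subset : covSet f ⊆ closure (ratCov f) := by
  rintro w ⟨h0, h1, h2⟩
  let φ : (Fin m → ℝ) → (Fin (m + 1) → ℝ) := fun x =>
    Fin.cons (if 0 ≤ w 0 then Real.sqrt (MvPolynomial.aeval x f : ℝ)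
      else -Real.sqrt (MvPolynomial.aeval x f : ℝ)) x
  have hφc : Continuous φ := by
    refine continuous_pi fun j => ?_
    refine Fin.cases ?_ (fun k => ?_) j
    · simp only [φ, Fin.cons_zero]
      split_ifs
      · exact (continuous_aeval f).sqrt
      · exact (continuous_aeval f).sqrt.neg
    · simp only [φ, Fin.cons_succ]; exact continuous_apply k
  have hφw : φ (Fin.tail w) = w := by
    funext j
    refine Fin.cases ?_ (fun k => ?_) j
    · simp only [φ, Fin.cons_zero]
      split_ifs with h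
      · rw [← h1, Real.sqrt_sq h]
      · rw [← h1, ← neg_sq, Real.sqrt_sq (by linarith)]; ring
    · simp only [φ, Fin.cons_succ]; rfl
  rw [← hφw]
  refine hφc.continuousWithinAt.mem_closure h2 ?_
  rintro x ⟨q, ⟨r, hr, hq⟩, hx⟩
  have hx' : x = fun i => (q i : ℝ) := funext hx
  have h3 : (MvPolynomial.aeval x f : ℝ) = (r : ℝ) ^ 2 := by
    rw [hx', aeval_ratCast, hq]; push_cast; rfl
  refine ⟨Fin.cons (if 0 ≤ w 0 then |r| else -|r|) q, ?_, ?_, ?_⟩
  · rw [Fin.cons_zero]
    split_ifs
    · exact abs_ne_zero.mpr hr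
    · exact neg_ne_zero.mpr (abs_ne_zero.mpr hr)
  · rw [Fin.cons_zero, Fin.tail_cons, hq]
    split_ifs
    · rw [sq_abs]
    · rw [neg_sq, sq_abs]
  · intro j
    refine Fin.cases ?_ (fun k => ?_) j
    · simp only [φ, Fin.cons_zero, h3]
      split_ifs
      · rw [Real.sqrt_sq_eq_abs]; push_cast; rfl
      · rw [Real.sqrt_sq_eq_abs]; push_cast; rfl
    · simp only [φ, Fin.cons_succ]; exact hx k

theorem ratCov_subset : ratCov f ⊆ covSet f := by
  rintro v ⟨q, hq0, hq, hv⟩
  have hv' : v = fun i => (q i : ℝ) := funext hv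
  have htail : Fin.tail v = fun i => ((Fin.tail q) i : ℝ) := by rw [hv']; rfl
  refine ⟨?_, ?_, ?_⟩
  · rw [hv 0]; exact_mod_cast hq0
  · rw [htail, aeval_ratCast, ← hq, hv 0]; push_cast; rfl
  · rw [htail]
    exact subset_closure ⟨Fin.tail q, ⟨q 0, hq0, hq.symm⟩, fun i => rfl⟩

theorem closure_ratCov : closure (ratCov f) = closure (covSet f) :=
  Set.Subset.antisymm (closure_mono (ratCov_subset f))
    (closure_minimal (covSet_subset f) isClosed_closure)

theorem sa_tail {S : Set (Fin m → ℝ)} (hS : SA (evR m) S) :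
    SA (evR (m + 1)) ((fun w : Fin (m + 1) → ℝ => Fin.tail w) ⁻¹' S) :=
  CubicHyp.SA.comap_poly hS fun i => CubicHyp.IsPoly.coord i.succ

theorem isPoly_tail : CubicHyp.IsPoly (fun w : Fin (m + 1) → ℝ =>
    (MvPolynomial.aeval (Fin.tail w) f : ℝ)) :=
  CubicHyp.IsPoly.comp (M := m) (g := fun x => (MvPolynomial.aeval x f : ℝ))
    (φ := fun w : Fin (m + 1) → ℝ => Fin.tail w) ⟨f, fun x => by rw [evR_apply]⟩
    (fun i => CubicHyp.IsPoly.coord i.succ)

theorem sa_covSet (hf : f.totalDegree ≤ 4) : SA (evR (m + 1)) (covSet f) := by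
  have h1 := sa_tail (sa_closure_sqSet f hf)
  have h2 := (CubicHyp.IsPoly.coord (N := m + 1) 0).sa_ne_zero
  have h3 := (((CubicHyp.IsPoly.coord (N := m + 1) 0).pow 2).sub (isPoly_tail f)).sa_eq_zero
  have h4 : covSet f = {w : Fin (m + 1) → ℝ | w 0 ≠ 0} ∩ ({w : Fin (m + 1) → ℝ | w 0 ^ 2 -
      (MvPolynomial.aeval (Fin.tail w) f : ℝ) = 0} ∩
      (fun w : Fin (m + 1) → ℝ => Fin.tail w) ⁻¹' closure (sqSet f)) := by
    ext w
    constructor
    · rintro ⟨a, b, c⟩; exact ⟨a, sub_eq_zero.mpr b, c⟩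
    · rintro ⟨a, b, c⟩; exact ⟨a, sub_eq_zero.mp b, c⟩
  rw [h4]
  exact h2.inter (h3.inter h1)

/-- **Double covers** (closure of the points with `x₀ ≠ 0`) -/
theorem sa_closure_ratCov (hf : f.totalDegree ≤ 4) : SA (evR (m + 1)) (closure (ratCov f)) := by
  rw [closure_ratCov]
  exact (sa_covSet f hf).closure

/-- the equations `x₁² = f(x₂, …)`, `x₀ x₁ = 1` -/
noncomputable def openCover : Set (MvPolynomial (Fin (m + 2)) ℚ) :=
  {MvPolynomial.rename Fin.succ (doubleCover f), MvPolynomial.X 0 * MvPolynomial.X 1 - 1}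

theorem eval_openCover (q : Fin (m + 2) → ℚ) :
    (∀ g ∈ openCover f, MvPolynomial.eval q g = 0) ↔
      (q 1 ^ 2 = MvPolynomial.eval (Fin.tail (Fin.tail q)) f ∧ q 0 * q 1 = 1) := by
  have h1 : MvPolynomial.eval q (MvPolynomial.rename Fin.succ (doubleCover f)) =
      q 1 ^ 2 - MvPolynomial.eval (Fin.tail (Fin.tail q)) f := by
    rw [MvPolynomial.eval_rename]
    exact eval_doubleCover f (Fin.tail q)
  have h2 : MvPolynomial.eval q (MvPolynomial.X 0 * MvPolynomial.X 1 - 1) = q 0 * q 1 - 1 := by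
    simp
  unfold openCover
  constructor
  · intro h
    have e1 := h _ (Or.inl rfl)
    have e2 := h _ (Or.inr rfl)
    rw [h1] at e1
    rw [h2] at e2
    exact ⟨by linarith, by linarith⟩
  · rintro ⟨e1, e2⟩ g (rfl | hg)
    · rw [h1, e1, sub_self]
    · rw [mem_singleton_iff] at hg
      rw [hg, h2, e2, sub_self]

theorem ratClosure_openCover : ratClosure (openCover f) =
    {w : Fin (m + 2) → ℝ | w 0 * w 1 = 1} ∩
      (fun w : Fin (m + 2) → ℝ => Fin.tail w) ⁻¹' covSet f := by
  have htc : Continuous (fun w : Fin (m + 2) → ℝ => Fin.tail w) := by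
    unfold Fin.tail; fun_prop
  have hcov : closure (covSet f) ⊆ {w : Fin (m + 1) → ℝ | w 0 ^ 2 =
      (MvPolynomial.aeval (Fin.tail w) f : ℝ) ∧ Fin.tail w ∈ closure (sqSet f)} := by
    apply closure_minimal
    · rintro w ⟨-, a, b⟩; exact ⟨a, b⟩
    · have ht : Continuous (fun w : Fin (m + 1) → ℝ => Fin.tail w) := by
        unfold Fin.tail; fun_prop
      exact (isClosed_eq ((continuous_apply 0).pow 2) ((continuous_aeval f).comp ht)).inter
        (isClosed_closure.preimage ht)
  apply Set.Subset.antisymm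
  · have hcl : IsClosed ({w : Fin (m + 2) → ℝ | w 0 * w 1 = 1} ∩
        (fun w : Fin (m + 2) → ℝ => Fin.tail w) ⁻¹' closure (covSet f)) :=
      (isClosed_eq ((continuous_apply 0).mul (continuous_apply 1)) continuous_const).inter
        (isClosed_closure.preimage htc)
    intro w hw
    have h1 := closure_minimal (t := {w : Fin (m + 2) → ℝ | w 0 * w 1 = 1} ∩
        (fun w : Fin (m + 2) → ℝ => Fin.tail w) ⁻¹' closure (covSet f)) ?_ hcl hw
    · refine ⟨h1.1, ?_⟩
      have h2 := hcov h1.2
      refine ⟨?_, h2.1, h2.2⟩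
      intro h3
      have h4 : w 0 * w 1 = 1 := h1.1
      have h5 : w 1 = 0 := h3
      rw [h5] at h4
      simp at h4
    · rintro x ⟨q, hq, hx⟩
      rw [eval_openCover] at hq
      obtain ⟨hq1, hq2⟩ := hq
      have hq10 : q 1 ≠ 0 := by
        intro h; rw [h] at hq2; simp at hq2
      refine ⟨?_, subset_closure (ratCov_subset f ⟨Fin.tail q, hq10, hq1, fun i => hx i.succ⟩)⟩
      show x 0 * x 1 = 1
      rw [hx 0, hx 1]
      exact_mod_cast hq2
  · rintro w ⟨h0, h1⟩
    have h2 := covSet_subset f h1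
    have hw1 : w 1 ≠ 0 := h1.1
    have hw0 : w 0 = (w 1)⁻¹ := eq_inv_of_mul_eq_one_left h0
    have hc : ContinuousAt (fun v : Fin (m + 1) → ℝ => (Fin.cons (v 0)⁻¹ v : Fin (m + 2) → ℝ))
        (Fin.tail w) := by
      refine continuousAt_pi.2 fun j => ?_
      refine Fin.cases ?_ (fun k => ?_) j
      · simp only [Fin.cons_zero]
        exact (continuous_apply _).continuousAt.inv₀ hw1
      · simp only [Fin.cons_succ]; exact (continuous_apply k).continuousAt
    have h3 : (Fin.cons ((Fin.tail w : Fin (m + 1) → ℝ) 0)⁻¹ (Fin.tail w) : Fin (m + 2) → ℝ) =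
        w := by
      funext j
      refine Fin.cases ?_ (fun k => ?_) j
      · rw [Fin.cons_zero, hw0]; rfl
      · rw [Fin.cons_succ]; rfl
    rw [← h3]
    refine hc.continuousWithinAt.mem_closure h2 ?_
    rintro v ⟨q, hq0, hq, hv⟩
    refine ⟨Fin.cons (q 0)⁻¹ q, ?_, ?_⟩
    · rw [eval_openCover]
      constructor
      · exact hq
      · show (q 0)⁻¹ * q 0 = 1
        exact inv_mul_cancel₀ hq0
    · intro j
      refine Fin.cases ?_ (fun k => ?_) j
      · simp only [Fin.cons_zero, hv 0]; push_cast; rfl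
      · simp only [Fin.cons_succ]; exact hv k

/-- **Q1 for the varieties `y² = f(x)`, `y ≠ 0`** -/
theorem sa_openCover (hf : f.totalDegree ≤ 4) : SA (evR (m + 2)) (ratClosure (openCover f)) := by
  rw [ratClosure_openCover]
  have h1 := (((CubicHyp.IsPoly.coord (N := m + 2) 0).mul
    (CubicHyp.IsPoly.coord (N := m + 2) 1)).sub (CubicHyp.IsPoly.const (N := m + 2) 1)).sa_eq_zero
  have h2 : {w : Fin (m + 2) → ℝ | w 0 * w 1 = 1} =
      {w : Fin (m + 2) → ℝ | w 0 * w 1 - ((1 : ℚ) : ℝ) = 0} := by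
    ext w
    simp [sub_eq_zero]
  rw [h2]
  exact h1.inter (sa_tail (sa_covSet f hf))

/-- The closure of all rational points of `x₀² = f`. -/
theorem ratClosure_doubleCover : ratClosure {doubleCover f} = closure (covSet f) ∪
    ({w : Fin (m + 1) → ℝ | w 0 = 0} ∩
      (fun w : Fin (m + 1) → ℝ => Fin.tail w) ⁻¹' ratClosure {f}) := by
  have htc : Continuous (fun w : Fin (m + 1) → ℝ => Fin.tail w) := by
    unfold Fin.tail; fun_prop
  have h1 : ratClosure {doubleCover f} = closure (ratCov f ∪ {v : Fin (m + 1) → ℝ |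
      ∃ q : Fin m → ℚ, MvPolynomial.eval q f = 0 ∧ v = Fin.cons 0 (fun i => (q i : ℝ))}) := by
    unfold ratClosure
    congr 1
    ext v
    constructor
    · rintro ⟨q, hq, hv⟩
      have h := hq _ rfl
      rw [eval_doubleCover] at h
      by_cases h0 : q 0 = 0
      · right
        refine ⟨Fin.tail q, ?_, ?_⟩
        · rw [h0] at h; linarith
        · funext j
          refine Fin.cases ?_ (fun k => ?_) j
          · rw [hv 0, h0]; simp
          · rw [hv]; rfl
      · left
        exact ⟨q, h0, by linarith, hv⟩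
    · rintro (⟨q, h0, hq, hv⟩ | ⟨q, hq, rfl⟩)
      · refine ⟨q, ?_, hv⟩
        rintro g rfl
        rw [eval_doubleCover, hq, sub_self]
      · refine ⟨Fin.cons 0 q, ?_, ?_⟩
        · rintro g rfl
          rw [eval_doubleCover, Fin.cons_zero, Fin.tail_cons, hq]
          ring
        · intro j
          refine Fin.cases ?_ (fun k => ?_) j
          · simp
          · simp
  rw [h1, closure_union, closure_ratCov]
  congr 1
  apply Set.Subset.antisymm
  · apply closure_minimal
    · rintro _ ⟨q, hq, rfl⟩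
      refine ⟨Fin.cons_zero _ _, ?_⟩
      rw [mem_preimage, Fin.tail_cons]
      exact subset_closure ⟨q, fun g hg => by rw [mem_singleton_iff.mp hg]; exact hq,
        fun i => rfl⟩
    · exact (isClosed_eq (continuous_apply 0) continuous_const).inter
        (isClosed_closure.preimage htc)
  · rintro w ⟨h0, h2⟩
    have h2' : Fin.tail w ∈ ratClosure {f} := h2
    have h0' : w 0 = 0 := h0
    have hc : Continuous (fun x : Fin m → ℝ => (Fin.cons 0 x : Fin (m + 1) → ℝ)) := by
      refine continuous_pi fun j => ?_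
      refine Fin.cases ?_ (fun k => ?_) j
      · simpa using continuous_const
      · simpa using continuous_apply k
    have h3 : (Fin.cons 0 (Fin.tail w) : Fin (m + 1) → ℝ) = w := by
      rw [← h0']; exact Fin.cons_self_tail w
    rw [← h3]
    refine hc.continuousWithinAt.mem_closure h2' ?_
    rintro x ⟨q, hq, hx⟩
    refine ⟨q, hq _ rfl, ?_⟩
    rw [funext hx]

/-- Q1 for `y² = f(x)` if it holds for the branch locus. -/
theorem sa_doubleCover (hf : f.totalDegree ≤ 4) (h : SA (evR m) (ratClosure {f})) :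
    SA (evR (m + 1)) (ratClosure {doubleCover f}) := by
  rw [ratClosure_doubleCover]
  exact (sa_covSet f hf).closure.union
    ((CubicHyp.IsPoly.coord (N := m + 1) 0).sa_eq_zero.inter (sa_tail h))

end affine

end Pool.Agent.Lib.MP42.Quar
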