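import Pool.Agent.Lib.MP_42de19_nt.Quar.Close

set_option autoImplicit false

/-! The arc lemma: a curve in `K` through a point `x` whose velocity is not in the vertex of the
cubic form `A x` forces `K` to have interior. -/

namespace Pool.Agent.Lib.MP42.Quar

open Topology Filter Set

namespace QuarData

variable {V : Type*} [NormedAddCommGroup V] [NormedSpace ℝ V] [FiniteDimensional ℝ V]
  (D : QuarData V)

/-- sign change from a nonzero derivative -/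
theorem exists_sign_change {g : ℝ → ℝ} {d : ℝ} (hg : HasDerivAt g d 0) (h0 : g 0 = 0) (hd : d ≠ 0)
    {ε : ℝ} (hε : 0 < ε) : ∃ t₁ t₂ : ℝ, -ε < t₁ ∧ t₁ < 0 ∧ 0 < t₂ ∧ t₂ < ε ∧ g t₁ * g t₂ < 0 := by
  have h1 := hasDerivAt_iff_tendsto_slope.mp hg
  have h2 : ∀ᶠ t in 𝓝[≠] (0 : ℝ), 0 < slope g 0 t * d := by
    have h3 : Tendsto (fun t => slope g 0 t * d) (𝓝[≠] 0) (𝓝 (d * d)) := h1.mul_const d
    exact h3.eventually (lt_mem_nhds (mul_self_pos.mpr hd))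
  rw [eventually_nhdsWithin_iff, Metric.eventually_nhds_iff] at h2
  obtain ⟨δ, hδ, h2⟩ := h2
  set m := min δ ε / 2 with hm
  have hm0 : 0 < m := by positivity
  have hmδ : m < δ := by have := min_le_left δ ε; linarith
  have hmε : m < ε := by have := min_le_right δ ε; linarith
  have h3 := h2 (y := m) (by rw [Real.dist_eq, sub_zero, abs_of_pos hm0]; exact hmδ) hm0.ne'
  have h4 := h2 (y := -m) (by rw [Real.dist_eq, sub_zero, abs_neg, abs_of_pos hm0]; exact hmδ)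
    (neg_ne_zero.mpr hm0.ne')
  rw [slope_def_field, h0, sub_zero, sub_zero] at h3 h4
  refine ⟨-m, m, by linarith, by linarith, hm0, hmε, ?_⟩
  have h5 : 0 < g m * d := by
    have := mul_pos h3 hm0
    have h6 : g m / m * d * m = g m * d := by field_simp
    rwa [h6] at this
  have h7 : g (-m) * d < 0 := by
    have := mul_pos h4 hm0
    have h6 : g (-m) / (-m) * d * m = -(g (-m) * d) := by field_simp
    rw [h6] at this
    linarith
  have h8 : (g (-m) * g m) * (d * d) < 0 := by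
    have := mul_neg_of_neg_of_pos h7 h5
    linarith [this, (by ring : (g (-m) * d) * (g m * d) = (g (-m) * g m) * (d * d))]
  by_contra hcon
  push Not at hcon
  have : 0 ≤ (g (-m) * g m) * (d * d) := mul_nonneg hcon (mul_self_nonneg d)
  linarith

theorem hasInt_of_arc {R : ℝ → V} {ρ : V} (hRc : Continuous R) (hR : HasDerivAt R ρ 0)
    (hK : ∀ᶠ t in 𝓝 (0 : ℝ), R t ∈ D.K) (hS : R 0 ∈ D.S) {v : V} (hA : D.A (R 0) v ≠ 0)
    (hY : D.Y (R 0) v ≠ 0) (hA' : D.A' (R 0) ρ v ≠ 0) : D.HasInt := by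
  have hx0 : 0 < D.F (R 0) := hS
  set z₀ := D.T (R 0) v with hz₀
  have hz0 : 0 < D.F z₀ := by
    rw [hz₀, F_T]; positivity
  have h4 : D.A4 (R 0) z₀ = 0 := D.A4_T _ _
  have hAz : D.A (R 0) z₀ ≠ 0 := by
    rw [hz₀, A_T]
    have : 0 < (D.F (R 0)) ^ 3 * (D.A (R 0) v) ^ 4 := by positivity
    intro h
    nlinarith
  have hM : D.M (R 0) z₀ ≠ 0 := by
    intro h
    have h5 : (D.F (R 0)) ^ 3 * D.F z₀ - (D.M (R 0) z₀) ^ 2 = 0 := h4
    rw [h] at h5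
    have : 0 < (D.F (R 0)) ^ 3 * D.F z₀ := by positivity
    nlinarith
  have hA'z : D.A' (R 0) ρ z₀ ≠ 0 := by
    rw [hz₀, A'_T]
    exact mul_ne_zero (mul_ne_zero (mul_ne_zero (by norm_num) (pow_ne_zero 2 hx0.ne'))
      (pow_ne_zero 2 hA)) hA'
  have hd := D.hasDerivAt_A4 hR z₀ hx0.ne' h4
  have hd0 : -(12 * D.M (R 0) z₀ / D.F (R 0)) * D.A' (R 0) ρ z₀ ≠ 0 :=
    mul_ne_zero (neg_ne_zero.mpr (div_ne_zero (mul_ne_zero (by norm_num) hM) hx0.ne')) hA'z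
  -- a product neighbourhood
  have hW : IsOpen {p : ℝ × V | D.A (R p.1) p.2 ≠ 0 ∧ 0 < D.F (R p.1) ∧ 0 < D.F p.2} := by
    have i1 : IsOpen {p : ℝ × V | D.A (R p.1) p.2 ≠ 0} :=
      isOpen_ne.preimage (D.cont_A (hRc.comp continuous_fst) continuous_snd)
    have i2 : IsOpen {p : ℝ × V | 0 < D.F (R p.1)} :=
      isOpen_lt continuous_const (D.cont_F (hRc.comp continuous_fst))
    have i3 : IsOpen {p : ℝ × V | 0 < D.F p.2} :=
      isOpen_lt continuous_const (D.cont_F continuous_snd)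
    exact i1.inter (i2.inter i3)
  have hmem := hW.mem_nhds (show ((0 : ℝ), z₀) ∈ {p : ℝ × V | D.A (R p.1) p.2 ≠ 0 ∧
    0 < D.F (R p.1) ∧ 0 < D.F p.2} from ⟨hAz, hx0, hz0⟩)
  rw [nhds_prod_eq, mem_prod_iff] at hmem
  obtain ⟨s, hs, U, hU, hsU⟩ := hmem
  obtain ⟨ε, hε, hεs⟩ := Metric.mem_nhds_iff.mp (inter_mem hs hK)
  obtain ⟨U', hU'U, hU'o, hzU'⟩ := mem_nhds_iff.mp hU
  obtain ⟨t₁, t₂, h1, h2, h3, h5, h6⟩ := exists_sign_change hd h4 hd0 hε
  have hball : ∀ t, t₁ ≤ t → t ≤ t₂ → t ∈ s ∧ R t ∈ D.K := by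
    intro t ht1 ht2
    refine hεs ?_
    rw [Metric.mem_ball, Real.dist_eq, sub_zero, abs_lt]
    constructor <;> linarith
  refine ⟨U' ∩ {z | D.A4 (R t₁) z * D.A4 (R t₂) z < 0}, hU'o.inter (isOpen_lt
    ((D.cont_A4 continuous_const continuous_id).mul (D.cont_A4 continuous_const continuous_id))
    continuous_const), ⟨z₀, hzU', h6⟩, ?_, ?_⟩
  · rintro z ⟨hzU, hz⟩
    have hz' : D.A4 (R t₁) z * D.A4 (R t₂) z < 0 := hz
    have hc : ContinuousOn (fun t => D.A4 (R t) z) (Icc t₁ t₂) :=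
      (D.cont_A4 hRc continuous_const).continuousOn
    have hle : t₁ ≤ t₂ := by linarith
    have hex : ∃ t ∈ Icc t₁ t₂, D.A4 (R t) z = 0 := by
      rcases mul_neg_iff.mp hz' with ⟨ha, hb⟩ | ⟨ha, hb⟩
      · obtain ⟨t, ht, ht'⟩ := intermediate_value_Icc' hle hc (show (0 : ℝ) ∈
          Icc (D.A4 (R t₂) z) (D.A4 (R t₁) z) from ⟨hb.le, ha.le⟩)
        exact ⟨t, ht, ht'⟩
      · obtain ⟨t, ht, ht'⟩ := intermediate_value_Icc hle hc (show (0 : ℝ) ∈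
          Icc (D.A4 (R t₁) z) (D.A4 (R t₂) z) from ⟨ha.le, hb.le⟩)
        exact ⟨t, ht, ht'⟩
    obtain ⟨t, ht, ht'⟩ := hex
    obtain ⟨hts, htK⟩ := hball t ht.1 ht.2
    have h7 := hsU (show (t, z) ∈ s ×ˢ U from ⟨hts, hU'U hzU⟩)
    exact D.mem_K_of_A4 htK h7.2.1 h7.2.2 ht' h7.1
  · rintro z ⟨hzU, -⟩
    exact (hsU (show ((0 : ℝ), z) ∈ s ×ˢ U from ⟨mem_of_mem_nhds hs, hU'U hzU⟩)).2.2

end QuarData

end Pool.Agent.Lib.MP42.Quar
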