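import Pool.Agent.Lib.MP_42de19_nt.Quar.Close
import Pool.Agent.Lib.MP_42de19_nt.CubicHyp.Coord

set_option autoImplicit false

/-! Coordinates: rational symmetric tensors of order four and the associated `QuarData`. -/

namespace Pool.Agent.Lib.MP42.Quar

open Topology Filter Set
open Pool.Agent.Lib.MP42.CubicHyp (castV ratV dense_ratV)

/-- symmetric tensors of order four -/
structure SymT4 (N : ℕ) where
  T : Fin N → Fin N → Fin N → Fin N → ℚ
  s12 : ∀ i j k l, T i j k l = T j i k l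
  s23 : ∀ i j k l, T i j k l = T i k j l
  s34 : ∀ i j k l, T i j k l = T i j l k

/-- the 4-linear form of a tensor -/
noncomputable def quadForm {N : ℕ} (T : Fin N → Fin N → Fin N → Fin N → ℚ) :
    (Fin N → ℝ) →ₗ[ℝ] (Fin N → ℝ) →ₗ[ℝ] (Fin N → ℝ) →ₗ[ℝ] (Fin N → ℝ) →ₗ[ℝ] ℝ :=
  ∑ i, ∑ j, ∑ k, ∑ l, (T i j k l : ℝ) •
    (LinearMap.proj (R := ℝ) (φ := fun _ : Fin N => ℝ) i).smulRight
      ((LinearMap.proj (R := ℝ) (φ := fun _ : Fin N => ℝ) j).smulRight
        ((LinearMap.proj (R := ℝ) (φ := fun _ : Fin N => ℝ) k).smulRight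
          (LinearMap.proj (R := ℝ) (φ := fun _ : Fin N => ℝ) l)))

theorem quadForm_apply {N : ℕ} (T : Fin N → Fin N → Fin N → Fin N → ℚ) (a b c d : Fin N → ℝ) :
    quadForm T a b c d = ∑ i, ∑ j, ∑ k, ∑ l, (T i j k l : ℝ) * (a i * b j * c k * d l) := by
  simp only [quadForm, LinearMap.sum_apply, LinearMap.smul_apply,
    LinearMap.smulRight_apply, LinearMap.proj_apply, smul_eq_mul]
  refine Finset.sum_congr rfl fun i _ => Finset.sum_congr rfl fun j _ =>
    Finset.sum_congr rfl fun k _ => Finset.sum_congr rfl fun l _ => ?_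
  ring

/-- the `QuarData` of a symmetric tensor -/
noncomputable def quar {N : ℕ} (T : SymT4 N) : QuarData (Fin N → ℝ) where
  B := quadForm T.T
  s12 := by
    intro a b c d
    rw [quadForm_apply, quadForm_apply, Finset.sum_comm]
    refine Finset.sum_congr rfl fun i _ => Finset.sum_congr rfl fun j _ =>
      Finset.sum_congr rfl fun k _ => Finset.sum_congr rfl fun l _ => ?_
    rw [T.s12 j i k l]; ring
  s23 := by
    intro a b c d
    rw [quadForm_apply, quadForm_apply]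
    refine Finset.sum_congr rfl fun i _ => ?_
    rw [Finset.sum_comm]
    refine Finset.sum_congr rfl fun j _ => Finset.sum_congr rfl fun k _ =>
      Finset.sum_congr rfl fun l _ => ?_
    rw [T.s23 i k j l]; ring
  s34 := by
    intro a b c d
    rw [quadForm_apply, quadForm_apply]
    refine Finset.sum_congr rfl fun i _ => Finset.sum_congr rfl fun j _ => ?_
    rw [Finset.sum_comm]
    refine Finset.sum_congr rfl fun k _ => Finset.sum_congr rfl fun l _ => ?_
    rw [T.s34 i j l k]; ring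
  Q := ratV N
  smulQ := by
    rintro r _ ⟨q, rfl⟩
    exact ⟨r • q, by funext i; simp [castV]⟩
  denseQ := dense_ratV N
  ratQ := by
    rintro _ ⟨a, rfl⟩ _ ⟨b, rfl⟩ _ ⟨c, rfl⟩ _ ⟨d, rfl⟩
    refine ⟨∑ i, ∑ j, ∑ k, ∑ l, T.T i j k l * (a i * b j * c k * d l), ?_⟩
    rw [quadForm_apply]
    push_cast
    rfl

theorem quar_B {N : ℕ} (T : SymT4 N) (a b c d : Fin N → ℝ) :
    (quar T).B a b c d = ∑ i, ∑ j, ∑ k, ∑ l, (T.T i j k l : ℝ) * (a i * b j * c k * d l) :=
  quadForm_apply _ _ _ _ _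

theorem quar_Q {N : ℕ} (T : SymT4 N) : (quar T).Q = ratV N := rfl

/-- values of the 4-linear form along polynomial maps -/
theorem isPoly_B {N M : ℕ} (T : SymT4 N) {a b c d : (Fin M → ℝ) → (Fin N → ℝ)}
    (ha : ∀ i, CubicHyp.IsPoly (fun x => a x i)) (hb : ∀ i, CubicHyp.IsPoly (fun x => b x i))
    (hc : ∀ i, CubicHyp.IsPoly (fun x => c x i)) (hd : ∀ i, CubicHyp.IsPoly (fun x => d x i)) :
    CubicHyp.IsPoly (fun x => (quar T).B (a x) (b x) (c x) (d x)) := by
  refine CubicHyp.IsPoly.congr (CubicHyp.IsPoly.sum Finset.univ fun i _ => CubicHyp.IsPoly.sum Finset.univ fun j _ =>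
    CubicHyp.IsPoly.sum Finset.univ fun k _ => CubicHyp.IsPoly.sum Finset.univ fun l _ =>
      (CubicHyp.IsPoly.const (T.T i j k l)).mul ((((ha i).mul (hb j)).mul (hc k)).mul (hd l))) ?_
  intro x
  rw [quar_B]

theorem isPoly_F {N : ℕ} (T : SymT4 N) : CubicHyp.IsPoly (fun x => (quar T).F x) :=
  isPoly_B T (fun i => CubicHyp.IsPoly.coord i) (fun i => CubicHyp.IsPoly.coord i) (fun i => CubicHyp.IsPoly.coord i)
    (fun i => CubicHyp.IsPoly.coord i)

theorem sa_S {N : ℕ} (T : SymT4 N) : SA (evR N) (quar T).S := (isPoly_F T).sa_pos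

end Pool.Agent.Lib.MP42.Quar
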