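import Pool.Agent.Lib.MP_42de19_nt.Quar.Line

set_option autoImplicit false

/-! The functional `b`, and the point `v` with `Y P v ≠ 0`. -/

namespace Pool.Agent.Lib.MP42.Quar

open Topology Filter Set
open Polynomial (C X)

namespace QuarData

section
variable {V : Type*} [NormedAddCommGroup V] [NormedSpace ℝ V] (D : QuarData V)

/-- the derivative of `A4 P` at `x` -/
noncomputable def e1lin (P x : V) : V →ₗ[ℝ] ℝ :=
  (4 * D.F P ^ 3) • D.B x x x - (2 * D.M P x) • ((6 * D.F P) • D.B P P x -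
    (4 * D.c1 P x) • D.B P P P)

/-- the derivative of `A P` at `x` -/
noncomputable def a1lin (P x : V) : V →ₗ[ℝ] ℝ :=
  (3 : ℝ) • ((D.F P ^ 2) • D.B P x x - (D.F P) • (D.c2 P x • D.B P P P +
    (2 * D.c1 P x) • D.B P P x) + (2 * D.c1 P x ^ 2) • D.B P P P)

theorem e1lin_apply (P x w : V) : D.e1lin P x w = 4 * D.F P ^ 3 * D.c1 x w -
    2 * D.M P x * D.M1 P x w := by
  simp only [e1lin, M1, c1, LinearMap.sub_apply, LinearMap.smul_apply, smul_eq_mul]

theorem a1lin_apply (P x w : V) : D.a1lin P x w = 3 * D.A' P w x := by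
  simp only [a1lin, A', LinearMap.sub_apply, LinearMap.add_apply, LinearMap.smul_apply,
    smul_eq_mul]
  rw [D.s23 P w x x, D.s34 P x w x, D.s34 P P w x]
  unfold c1
  ring

theorem ratFun_e1lin {P x : V} (hP : P ∈ D.Q) (hx : x ∈ D.Q) : D.RatFun (D.e1lin P x) := by
  intro w hw
  rw [e1lin_apply]
  unfold M1
  exact rat_sub (rat_mul (rat_mul (rat_ofNat 4) (rat_pow (D.ratQ_F hP) 3)) (D.ratQ_c1 hx hw))
    (rat_mul (rat_mul (rat_ofNat 2) (D.ratQ_M hP hx)) (rat_sub (rat_mul (rat_mul (rat_ofNat 6)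
      (D.ratQ_F hP)) (D.ratQ P hP P hP x hx w hw)) (rat_mul (rat_mul (rat_ofNat 4)
        (D.ratQ_c1 hP hx)) (D.ratQ_c1 hP hw))))

theorem ratFun_a1lin {P x : V} (hP : P ∈ D.Q) (hx : x ∈ D.Q) : D.RatFun (D.a1lin P x) := by
  intro w hw
  rw [a1lin_apply]
  exact rat_mul (rat_ofNat 3) (D.ratQ_A' hP hw hx)

theorem line_coef {P x w : V} {c₀ c₁ : ℝ}
    (h : D.lineE P x w = (C c₀ + C c₁ * X) * D.lineA P x w) :
    D.A4 P x = c₀ * D.A P x ∧ D.e1lin P x w = c₀ * D.a1lin P x w + c₁ * D.A P x ∧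
      D.A4 P w = c₁ * D.A P w := by
  have h1 : ∀ t : ℝ, (D.A4 P x - c₀ * D.A P x) +
      (D.e1lin P x w - (c₀ * D.a1lin P x w + c₁ * D.A P x)) * t +
      (D.F P ^ 3 * (6 * D.c2 x w) - 2 * D.M P x * D.M P w - D.M1 P x w ^ 2 -
        (c₀ * (3 * D.A' P x w) + c₁ * (3 * D.A' P w x))) * t ^ 2 +
      (D.F P ^ 3 * (4 * D.c3 x w) - 2 * D.M1 P x w * D.M P w -
        (c₀ * D.A P w + c₁ * (3 * D.A' P x w))) * t ^ 3 +
      (D.A4 P w - c₁ * D.A P w) * t ^ 4 = 0 := by
    intro t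
    have h2 := congrArg (Polynomial.eval t) h
    rw [Polynomial.eval_mul, eval_lineE, eval_lineA, A_add_smul] at h2
    simp only [Polynomial.eval_add, Polynomial.eval_mul, Polynomial.eval_C,
      Polynomial.eval_X] at h2
    rw [e1lin_apply, a1lin_apply]
    unfold A4 at h2 ⊢
    rw [F_add_smul, M_add_smul] at h2
    linear_combination h2
  obtain ⟨h2, h3, -, -, h4⟩ := coef5 h1
  exact ⟨by linarith, by linarith, by linarith⟩

end

variable {V : Type*} [NormedAddCommGroup V] [NormedSpace ℝ V] [FiniteDimensional ℝ V]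
  (D : QuarData V)

theorem exists_b_of_line {P x₀ : V} (hP : P ∈ D.Q) (hF : D.F P ≠ 0) (hx₀ : x₀ ∈ D.Q)
    (hA : D.A P x₀ ≠ 0) (h : ∀ w ∈ D.Q, D.A P w ≠ 0 → ∃ c₀ c₁ : ℝ,
      D.lineE P x₀ w = (C c₀ + C c₁ * X) * D.lineA P x₀ w) :
    ∃ b : V →ₗ[ℝ] ℝ, D.RatFun b ∧ b P = 1 ∧ ∀ x, D.A4 P x = 4 * D.F P * D.A P x * b x := by
  set α := D.A P x₀ with hα
  set ε := D.A4 P x₀ with hε
  set b : V →ₗ[ℝ] ℝ := (4 * D.F P * α ^ 2)⁻¹ • (α • D.e1lin P x₀ - ε • D.a1lin P x₀) with hb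
  have hbw : ∀ w, b w = (4 * D.F P * α ^ 2)⁻¹ * (α * D.e1lin P x₀ w - ε * D.a1lin P x₀ w) := by
    intro w
    simp only [hb, LinearMap.sub_apply, LinearMap.smul_apply, smul_eq_mul]
  have hbQ : D.RatFun b := by
    refine RatFun.smul D (rat_inv (rat_mul (rat_mul (rat_ofNat 4) (D.ratQ_F hP))
      (rat_pow (D.ratQ_A hP hx₀) 2))) (RatFun.sub D (RatFun.smul D (D.ratQ_A hP hx₀)
        (D.ratFun_e1lin hP hx₀)) (RatFun.smul D (D.ratQ_A4 hP hx₀) (D.ratFun_a1lin hP hx₀)))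
  have hbc : Continuous b := continuous_lin b
  have h1 : ∀ w ∈ D.Q, D.A P w ≠ 0 → D.A4 P w - 4 * D.F P * D.A P w * b w = 0 := by
    intro w hw hAw
    obtain ⟨c₀, c₁, hc⟩ := h w hw hAw
    obtain ⟨h2, h3, h4⟩ := D.line_coef hc
    have h5 : b w = (4 * D.F P)⁻¹ * c₁ := by
      rw [hbw, h3]
      have : ε = c₀ * α := h2
      rw [this]
      field_simp
      ring
    rw [h4, h5]
    field_simp
    ring
  have h2 : ∀ x, D.A4 P x - 4 * D.F P * D.A P x * b x = 0 :=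
    D.eq_zero_of_rat (φ := fun x => D.A P x) (D.pl_A (PL.const P) PL.id)
      (D.cont_A continuous_const continuous_id)
      ((D.cont_A4 continuous_const continuous_id).sub
        ((continuous_const.mul (D.cont_A continuous_const continuous_id)).mul hbc))
      ⟨x₀, hA⟩ h1
  refine ⟨b, hbQ, ?_, fun x => by linarith [h2 x]⟩
  have h3 := h2 ((1 : ℝ) • P + (1 : ℝ) • x₀)
  have h4 := h2 x₀
  rw [A4_comb, A_comb, map_add, map_smul, map_smul, ← hα] at h3
  simp only [smul_eq_mul, one_mul, one_pow, mul_one] at h3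
  rw [← hα] at h4
  have h5 : 4 * D.F P * α * (1 - b P) = 0 := by linear_combination h3 - h4
  rcases mul_eq_zero.mp h5 with h6 | h6
  · exact absurd h6 (mul_ne_zero (mul_ne_zero four_ne_zero hF) hA)
  · linarith

/-- the form of `Y` -/
theorem Y_eq (P x : V) : D.Y P x = (D.A4 P x - 4 * D.c1 P x * D.A P x) ^ 2 +
    16 * D.A P x ^ 2 * (D.M P x - D.c1 P x ^ 2) := by
  unfold Y; ring

theorem not_special {P : V} (h : ¬ D.Special P) : ∃ x, D.A P x ≠ 0 := by
  unfold Special at h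
  push Not at h
  exact h

theorem exists_rat_A {P : V} (h : ¬ D.Special P) : ∃ x ∈ D.Q, D.A P x ≠ 0 := by
  obtain ⟨z, -, h1, h2⟩ := D.exists_rat_ne (φ := fun x => D.A P x) (D.pl_A (PL.const P) PL.id)
    (D.cont_A continuous_const continuous_id) (D.not_special h) isOpen_univ univ_nonempty
  exact ⟨z, h1, h2⟩

theorem exists_Y_ne (hl : D.NoLin) {P : V} (hP : P ∈ D.Q) (hF : D.F P ≠ 0)
    (hns : ¬ D.Special P) : ∃ v, D.Y P v ≠ 0 := by
  by_contra hY
  push Not at hY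
  obtain ⟨x₀, hx₀, hA⟩ := D.exists_rat_A hns
  have h0 : ∀ x, (D.A4 P x - 4 * D.c1 P x * D.A P x) ^ 2 +
      16 * D.A P x ^ 2 * (D.M P x - D.c1 P x ^ 2) = 0 := fun x => by rw [← Y_eq]; exact hY x
  obtain ⟨b, hbQ, hbP, hb⟩ := D.exists_b_of_line hP hF hx₀ hA (by
    intro w hw hAw
    refine div_linear_of_sq (Y := 0) (l := C 4 * D.lineL P x₀ w)
      (m := C 16 * (D.lineM P x₀ w - D.lineL P x₀ w ^ 2)) (f := 1) one_ne_zero
      (D.natDegree_lineA hAw) (D.natDegree_lineE P x₀ w) ?_ (dvd_zero _)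
    refine Polynomial.funext fun t => ?_
    simp only [Polynomial.eval_zero, Polynomial.eval_add, Polynomial.eval_sub, Polynomial.eval_mul,
      Polynomial.eval_pow, Polynomial.eval_C, eval_lineA, eval_lineE, eval_lineL, eval_lineM]
    have := h0 (x₀ + t • w)
    linear_combination - this)
  have hbc : Continuous b := continuous_lin b
  have h1 : ∀ x, (D.F P * b x - D.c1 P x) ^ 2 + (D.M P x - D.c1 P x ^ 2) = 0 := by
    refine D.eq_zero_of_rat (φ := fun x => D.A P x) (D.pl_A (PL.const P) PL.id)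
      (D.cont_A continuous_const continuous_id) ?_ ⟨x₀, hA⟩ ?_
    · exact (((continuous_const.mul hbc).sub (D.cont_c1 continuous_const continuous_id)).pow
        2).add ((D.cont_M continuous_const continuous_id).sub
          ((D.cont_c1 continuous_const continuous_id).pow 2))
    · intro x _ hx
      have h2 := h0 x
      rw [hb x] at h2
      have h3 : (16 * D.A P x ^ 2) *
          ((D.F P * b x - D.c1 P x) ^ 2 + (D.M P x - D.c1 P x ^ 2)) = 0 := by
        linear_combination h2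
      rcases mul_eq_zero.mp h3 with h4 | h4
      · exact absurd h4 (mul_ne_zero (by norm_num) (pow_ne_zero 2 hx))
      · exact h4
  have hb0 : b ≠ 0 := by
    rintro rfl
    simp at hbP
  obtain ⟨v, hv1, hv2⟩ := hl b hbQ hb0
  have h2 := h1 v
  have h3 := hb v
  rw [hv1] at h2 h3
  have h4 : D.M P v = 0 := by linear_combination h2
  have h5 : D.F P ^ 3 * D.F v = 0 := by
    have h6 : D.F P ^ 3 * D.F v - (D.M P v) ^ 2 = 4 * D.F P * D.A P v * 0 := h3
    rw [h4] at h6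
    linear_combination h6
  rcases mul_eq_zero.mp h5 with h6 | h6
  · exact pow_ne_zero 3 hF h6
  · exact hv2 h6

end QuarData

end Pool.Agent.Lib.MP42.Quar
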