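import Pool.Agent.Lib.MP_42de19_nt.Quar.Defs

set_option autoImplicit false

namespace Pool.Agent.Lib.MP42.Quar

open Topology Filter Set

namespace QuarData

section alg
variable {V : Type*} [NormedAddCommGroup V] [NormedSpace ℝ V] (D : QuarData V)

theorem F_comb (x z : V) (a b : ℝ) : D.F (a • x + b • z) =
    a ^ 4 * D.F x + 4 * a ^ 3 * b * D.c1 x z + 6 * a ^ 2 * b ^ 2 * D.c2 x z +
      4 * a * b ^ 3 * D.c3 x z + b ^ 4 * D.F z := by
  unfold F c1 c2 c3
  simp only [map_add, map_sub, map_neg, map_smul,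
    map_zero, LinearMap.add_apply, LinearMap.sub_apply, LinearMap.neg_apply, LinearMap.smul_apply,
    LinearMap.zero_apply, smul_eq_mul, QuarData.s12, QuarData.s23, QuarData.s34]
  ring

theorem F_sub_comb (x z : V) (a b : ℝ) : D.F (a • x - b • z) =
    a ^ 4 * D.F x - 4 * a ^ 3 * b * D.c1 x z + 6 * a ^ 2 * b ^ 2 * D.c2 x z -
      4 * a * b ^ 3 * D.c3 x z + b ^ 4 * D.F z := by
  have := D.F_comb x z a (-b)
  rw [neg_smul, ← sub_eq_add_neg] at this
  rw [this]; ring

theorem F_smul (a : ℝ) (x : V) : D.F (a • x) = a ^ 4 * D.F x := by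
  unfold F; simp only [map_add, map_sub, map_neg, map_smul,
    map_zero, LinearMap.add_apply, LinearMap.sub_apply, LinearMap.neg_apply, LinearMap.smul_apply,
    LinearMap.zero_apply, smul_eq_mul, QuarData.s12, QuarData.s23, QuarData.s34]; ring

theorem c1_smul_left (a : ℝ) (x z : V) : D.c1 (a • x) z = a ^ 3 * D.c1 x z := by
  unfold c1; simp only [map_add, map_sub, map_neg, map_smul,
    map_zero, LinearMap.add_apply, LinearMap.sub_apply, LinearMap.neg_apply, LinearMap.smul_apply,
    LinearMap.zero_apply, smul_eq_mul, QuarData.s12, QuarData.s23, QuarData.s34]; ring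

theorem c1_comb (x u z : V) (a b : ℝ) : D.c1 x (a • u + b • z) = a * D.c1 x u + b * D.c1 x z := by
  unfold c1; simp only [map_add, map_sub, map_neg, map_smul,
    map_zero, LinearMap.add_apply, LinearMap.sub_apply, LinearMap.neg_apply, LinearMap.smul_apply,
    LinearMap.zero_apply, smul_eq_mul, QuarData.s12, QuarData.s23, QuarData.s34]

theorem c1_self (x : V) : D.c1 x x = D.F x := rfl
theorem c2_self (x : V) : D.c2 x x = D.F x := rfl
theorem c3_self (x : V) : D.c3 x x = D.F x := rfl

theorem c2_comb (x z : V) (a b : ℝ) : D.c2 x (a • x + b • z) =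
    a ^ 2 * D.F x + 2 * a * b * D.c1 x z + b ^ 2 * D.c2 x z := by
  unfold c1 c2 F; simp only [map_add, map_sub, map_neg, map_smul,
    map_zero, LinearMap.add_apply, LinearMap.sub_apply, LinearMap.neg_apply, LinearMap.smul_apply,
    LinearMap.zero_apply, smul_eq_mul, QuarData.s12, QuarData.s23, QuarData.s34]; ring

theorem c3_comb (x z : V) (a b : ℝ) : D.c3 x (a • x + b • z) =
    a ^ 3 * D.F x + 3 * a ^ 2 * b * D.c1 x z + 3 * a * b ^ 2 * D.c2 x z + b ^ 3 * D.c3 x z := by
  unfold c1 c2 c3 F; simp only [map_add, map_sub, map_neg, map_smul,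
    map_zero, LinearMap.add_apply, LinearMap.sub_apply, LinearMap.neg_apply, LinearMap.smul_apply,
    LinearMap.zero_apply, smul_eq_mul, QuarData.s12, QuarData.s23, QuarData.s34]; ring

theorem c1_comb' (x z : V) (a b : ℝ) : D.c1 x (a • x + b • z) = a * D.F x + b * D.c1 x z := by
  unfold c1 F; simp only [map_add, map_sub, map_neg, map_smul,
    map_zero, LinearMap.add_apply, LinearMap.sub_apply, LinearMap.neg_apply, LinearMap.smul_apply,
    LinearMap.zero_apply, smul_eq_mul, QuarData.s12, QuarData.s23, QuarData.s34]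

/-- the basic identity -/
theorem F_T (x z : V) : D.F (D.T x z) = D.F x * (D.Y x z) ^ 2 := by
  rw [T, F_sub_comb]
  unfold Y A4 A M
  ring

theorem A_comb (x z : V) (a b : ℝ) : D.A x (a • x + b • z) = b ^ 3 * D.A x z := by
  unfold A
  rw [c3_comb, c1_comb', c2_comb]
  ring

theorem M_comb (x z : V) (a b : ℝ) : D.M x (a • x + b • z) =
    a ^ 2 * (D.F x) ^ 2 + 2 * a * b * D.F x * D.c1 x z + b ^ 2 * D.M x z := by
  unfold M
  rw [c1_comb', c2_comb]
  ring

theorem A4_comb (x z : V) (a b : ℝ) : D.A4 x (a • x + b • z) =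
    b ^ 4 * D.A4 x z + 4 * a * b ^ 3 * D.F x * D.A x z := by
  unfold A4
  rw [M_comb, F_comb]
  unfold M A
  ring

theorem A4_T (x z : V) : D.A4 x (D.T x z) = 0 := by
  have : D.T x z = D.A4 x z • x + (-(4 * D.F x * D.A x z)) • z := by rw [T, neg_smul, sub_eq_add_neg]
  rw [this, A4_comb]
  ring

theorem A_T (x z : V) : D.A x (D.T x z) = -64 * (D.F x) ^ 3 * (D.A x z) ^ 4 := by
  have : D.T x z = D.A4 x z • x + (-(4 * D.F x * D.A x z)) • z := by rw [T, neg_smul, sub_eq_add_neg]
  rw [this, A_comb]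
  ring

/-- `A' x r` is a quadratic form on `V / x` -/
theorem A'_comb (x r z : V) (a b : ℝ) : D.A' x r (a • x + b • z) = b ^ 2 * D.A' x r z := by
  unfold A' c1 c2 F
  simp only [map_add, map_sub, map_neg, map_smul,
    map_zero, LinearMap.add_apply, LinearMap.sub_apply, LinearMap.neg_apply, LinearMap.smul_apply,
    LinearMap.zero_apply, smul_eq_mul, QuarData.s12, QuarData.s23, QuarData.s34]
  ring

theorem A'_T (x r z : V) : D.A' x r (D.T x z) = 16 * (D.F x) ^ 2 * (D.A x z) ^ 2 * D.A' x r z := by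
  have : D.T x z = D.A4 x z • x + (-(4 * D.F x * D.A x z)) • z := by rw [T, neg_smul, sub_eq_add_neg]
  rw [this, A'_comb]
  ring

theorem A'_self (x z : V) : D.A' x z z = D.A x z := by
  unfold A' A c1 c2 c3
  ring

theorem A'_left (x z : V) : D.A' x x z = 0 := by
  unfold A' c1 c2 F
  ring

theorem A'_add_left (x r s z : V) : D.A' x (r + s) z = D.A' x r z + D.A' x s z := by
  unfold A' c1
  simp only [map_add, map_sub, map_neg, map_smul,
    map_zero, LinearMap.add_apply, LinearMap.sub_apply, LinearMap.neg_apply, LinearMap.smul_apply,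
    LinearMap.zero_apply, smul_eq_mul, QuarData.s12, QuarData.s23, QuarData.s34]
  ring

theorem A'_smul_left (x r z : V) (a : ℝ) : D.A' x (a • r) z = a * D.A' x r z := by
  unfold A' c1
  simp only [map_add, map_sub, map_neg, map_smul,
    map_zero, LinearMap.add_apply, LinearMap.sub_apply, LinearMap.neg_apply, LinearMap.smul_apply,
    LinearMap.zero_apply, smul_eq_mul, QuarData.s12, QuarData.s23, QuarData.s34]
  ring

/-- expansion of `A` along a line -/
theorem A_add_smul (x z r : V) (s : ℝ) : D.A x (z + s • r) = D.A x z + 3 * s * D.A' x r z +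
    3 * s ^ 2 * D.A' x z r + s ^ 3 * D.A x r := by
  unfold A A' c1 c2 c3 F
  simp only [map_add, map_sub, map_neg, map_smul,
    map_zero, LinearMap.add_apply, LinearMap.sub_apply, LinearMap.neg_apply, LinearMap.smul_apply,
    LinearMap.zero_apply, smul_eq_mul, QuarData.s12, QuarData.s23, QuarData.s34]
  ring

end alg

end QuarData

end Pool.Agent.Lib.MP42.Quar
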