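import Pool.Agent.Lib.MP_42de19_nt.Quar.Cont

set_option autoImplicit false

/-! Operations on the closure `K` of the rational points. -/

namespace Pool.Agent.Lib.MP42.Quar

open Topology Filter Set

namespace QuarData

section
variable {V : Type*} [NormedAddCommGroup V] [NormedSpace ℝ V] (D : QuarData V)

theorem add_mem_Q {a b : V} (ha : a ∈ D.Q) (hb : b ∈ D.Q) : a + b ∈ D.Q := D.Q.add_mem ha hb

theorem sub_mem_Q {a b : V} (ha : a ∈ D.Q) (hb : b ∈ D.Q) : a - b ∈ D.Q := D.Q.sub_mem ha hb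

/-- scalar multiples with a rational scalar -/
theorem smul_mem_Q {a : V} (ha : a ∈ D.Q) {x : ℝ} (hx : ∃ r : ℚ, x = r) : x • a ∈ D.Q := by
  obtain ⟨r, rfl⟩ := hx
  exact D.smulQ r a ha

theorem ratQ_F {a : V} (ha : a ∈ D.Q) : ∃ r : ℚ, D.F a = r := D.ratQ a ha a ha a ha a ha
theorem ratQ_c1 {a b : V} (ha : a ∈ D.Q) (hb : b ∈ D.Q) : ∃ r : ℚ, D.c1 a b = r :=
  D.ratQ a ha a ha a ha b hb
theorem ratQ_c2 {a b : V} (ha : a ∈ D.Q) (hb : b ∈ D.Q) : ∃ r : ℚ, D.c2 a b = r :=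
  D.ratQ a ha a ha b hb b hb
theorem ratQ_c3 {a b : V} (ha : a ∈ D.Q) (hb : b ∈ D.Q) : ∃ r : ℚ, D.c3 a b = r :=
  D.ratQ a ha b hb b hb b hb

theorem ratQ_M {a b : V} (ha : a ∈ D.Q) (hb : b ∈ D.Q) : ∃ r : ℚ, D.M a b = r := by
  obtain ⟨f, hf⟩ := D.ratQ_F ha
  obtain ⟨x, hx⟩ := D.ratQ_c1 ha hb
  obtain ⟨y, hy⟩ := D.ratQ_c2 ha hb
  exact ⟨3 * f * y - 2 * x ^ 2, by unfold M; rw [hf, hx, hy]; push_cast; ring⟩

theorem ratQ_A {a b : V} (ha : a ∈ D.Q) (hb : b ∈ D.Q) : ∃ r : ℚ, D.A a b = r := by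
  obtain ⟨f, hf⟩ := D.ratQ_F ha
  obtain ⟨x, hx⟩ := D.ratQ_c1 ha hb
  obtain ⟨y, hy⟩ := D.ratQ_c2 ha hb
  obtain ⟨z, hz⟩ := D.ratQ_c3 ha hb
  exact ⟨f ^ 2 * z - 3 * f * x * y + 2 * x ^ 3, by
    unfold A; rw [hf, hx, hy, hz]; push_cast; ring⟩

theorem ratQ_A4 {a b : V} (ha : a ∈ D.Q) (hb : b ∈ D.Q) : ∃ r : ℚ, D.A4 a b = r := by
  obtain ⟨f, hf⟩ := D.ratQ_F ha
  obtain ⟨g, hg⟩ := D.ratQ_F hb
  obtain ⟨m, hm⟩ := D.ratQ_M ha hb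
  exact ⟨f ^ 3 * g - m ^ 2, by unfold A4; rw [hf, hg, hm]; push_cast; ring⟩

theorem ratQ_A' {a b c : V} (ha : a ∈ D.Q) (hb : b ∈ D.Q) (hc : c ∈ D.Q) :
    ∃ r : ℚ, D.A' a b c = r := by
  obtain ⟨f, hf⟩ := D.ratQ_F ha
  obtain ⟨x, hx⟩ := D.ratQ a ha b hb c hc c hc
  obtain ⟨y, hy⟩ := D.ratQ_c1 ha hb
  obtain ⟨z, hz⟩ := D.ratQ_c2 ha hc
  obtain ⟨w, hw⟩ := D.ratQ_c1 ha hc
  obtain ⟨u, hu⟩ := D.ratQ a ha a ha b hb c hc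
  exact ⟨f ^ 2 * x - f * (y * z + 2 * w * u) + 2 * w ^ 2 * y, by
    unfold A'; rw [hf, hx, hy, hz, hw, hu]; push_cast; ring⟩

theorem ratQ_Y {a b : V} (ha : a ∈ D.Q) (hb : b ∈ D.Q) : ∃ r : ℚ, D.Y a b = r := by
  obtain ⟨x, hx⟩ := D.ratQ_c1 ha hb
  obtain ⟨m, hm⟩ := D.ratQ_M ha hb
  obtain ⟨y, hy⟩ := D.ratQ_A ha hb
  obtain ⟨z, hz⟩ := D.ratQ_A4 ha hb
  exact ⟨z ^ 2 - 8 * x * y * z + 16 * y ^ 2 * m, by
    unfold Y; rw [hx, hm, hy, hz]; push_cast; ring⟩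

theorem T_mem_Q {a b : V} (ha : a ∈ D.Q) (hb : b ∈ D.Q) : D.T a b ∈ D.Q := by
  refine D.sub_mem_Q (D.smul_mem_Q ha (D.ratQ_A4 ha hb)) (D.smul_mem_Q hb ?_)
  obtain ⟨f, hf⟩ := D.ratQ_F ha
  obtain ⟨y, hy⟩ := D.ratQ_A ha hb
  exact ⟨4 * f * y, by rw [hf, hy]; push_cast; ring⟩

theorem isClosed_K : IsClosed D.K := isClosed_closure

theorem ratX_subset_K : D.ratX ⊆ D.K := subset_closure

theorem ratX_subset_S : D.ratX ⊆ D.S := by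
  rintro v ⟨-, r, hr, hv⟩
  show 0 < D.F v
  rw [hv]
  have : (r : ℝ) ≠ 0 := by exact_mod_cast hr
  positivity

theorem F_ne_of_ratX {v : V} (hv : v ∈ D.ratX) : D.F v ≠ 0 := (D.ratX_subset_S hv).ne'

theorem smul_mem_ratX {v : V} (hv : v ∈ D.ratX) {r : ℚ} (hr : r ≠ 0) : (r : ℝ) • v ∈ D.ratX := by
  obtain ⟨h1, s, hs, hv⟩ := hv
  refine ⟨D.smulQ r v h1, r ^ 2 * s, mul_ne_zero (pow_ne_zero 2 hr) hs, ?_⟩
  rw [F_smul, hv]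
  push_cast
  ring

theorem T_mem_ratX {x z : V} (hx : x ∈ D.ratX) (hz : z ∈ D.Q) (hY : D.Y x z ≠ 0) :
    D.T x z ∈ D.ratX := by
  obtain ⟨h1, s, hs, hv⟩ := hx
  obtain ⟨y, hy⟩ := D.ratQ_Y h1 hz
  refine ⟨D.T_mem_Q h1 hz, s * y, mul_ne_zero hs ?_, ?_⟩
  · rintro rfl
    exact hY (by rw [hy]; simp)
  · rw [F_T, hv, hy]
    push_cast
    ring

theorem smul_mem_K {v : V} (hv : v ∈ D.K) {r : ℝ} (hr : r ≠ 0) : r • v ∈ D.K := by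
  have h1 : (r, v) ∈ closure (((Set.range (fun q : ℚ => (q : ℝ))) ∩ {s | s ≠ 0}) ×ˢ D.ratX) := by
    rw [closure_prod_eq]
    refine ⟨?_, hv⟩
    rw [mem_closure_iff]
    intro O hO hrO
    obtain ⟨s, hs, q, rfl⟩ := (Rat.denseRange_cast (𝕜 := ℝ)).exists_mem_open (hO.inter isOpen_ne)
      ⟨r, hrO, hr⟩ |> fun ⟨q, hq⟩ => (⟨(q : ℝ), hq, q, rfl⟩ :
        ∃ s : ℝ, s ∈ O ∩ {s | s ≠ 0} ∧ ∃ q : ℚ, (q : ℝ) = s)
    exact ⟨q, hs.1, ⟨q, rfl⟩, hs.2⟩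
  have hc : Continuous fun p : ℝ × V => p.1 • p.2 := continuous_smul
  refine (hc.continuousWithinAt (s := ((Set.range (fun q : ℚ => (q : ℝ))) ∩ {s | s ≠ 0}) ×ˢ
    D.ratX)).mem_closure (x := (r, v)) h1 ?_
  rintro ⟨s, u⟩ ⟨⟨⟨q, rfl⟩, hq⟩, hu⟩
  refine D.smul_mem_ratX hu ?_
  rintro rfl
  exact hq (by simp)

theorem mem_K_of_smul {v : V} {r : ℝ} (hr : r ≠ 0) (hv : r • v ∈ D.K) : v ∈ D.K := by
  have := D.smul_mem_K hv (inv_ne_zero hr)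
  rwa [smul_smul, inv_mul_cancel₀ hr, one_smul] at this

theorem smul_mem_S {v : V} (hv : v ∈ D.S) {r : ℝ} (hr : r ≠ 0) : r • v ∈ D.S := by
  show 0 < D.F _
  rw [F_smul]
  have : 0 < D.F v := hv
  positivity

end

variable {V : Type*} [NormedAddCommGroup V] [NormedSpace ℝ V] [FiniteDimensional ℝ V]
  (D : QuarData V)

theorem T_mem_K {x z : V} (hx : x ∈ D.K) (hY : D.Y x z ≠ 0) : D.T x z ∈ D.K := by
  have hO : IsOpen {p : V × V | D.Y p.1 p.2 ≠ 0} :=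
    isOpen_ne.preimage (D.cont_Y continuous_fst continuous_snd)
  have h2 : (x, z) ∈ closure (D.ratX ×ˢ (D.Q : Set V)) := by
    rw [closure_prod_eq]
    exact ⟨hx, D.denseQ z⟩
  have hc : Continuous fun p : V × V => D.T p.1 p.2 := D.cont_T continuous_fst continuous_snd
  refine mem_closure_iff.mpr fun O' hO' hT => ?_
  obtain ⟨p, hp1, hp2⟩ := mem_closure_iff.mp h2 ((fun p : V × V => D.T p.1 p.2) ⁻¹' O' ∩
    {p : V × V | D.Y p.1 p.2 ≠ 0}) ((hO'.preimage hc).inter hO) ⟨hT, hY⟩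
  exact ⟨D.T p.1 p.2, hp1.1, D.T_mem_ratX hp2.1 hp2.2 hp1.2⟩

theorem mem_K_of_A4 {x z : V} (hx : x ∈ D.K) (hxS : x ∈ D.S) (hz : z ∈ D.S) (h4 : D.A4 x z = 0)
    (hA : D.A x z ≠ 0) : z ∈ D.K := by
  have hx0 : 0 < D.F x := hxS
  have hz0 : 0 < D.F z := hz
  have hM : (D.M x z) ^ 2 = (D.F x) ^ 3 * D.F z := by
    have : (D.F x) ^ 3 * D.F z - (D.M x z) ^ 2 = 0 := h4
    linarith
  have hM0 : D.M x z ≠ 0 := by
    intro h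
    rw [h] at hM
    have : 0 < (D.F x) ^ 3 * D.F z := by positivity
    linarith [hM.symm.trans (by norm_num : (0:ℝ) ^ 2 = 0)]
  have hY : D.Y x z ≠ 0 := by
    unfold Y
    rw [h4]
    have : 16 * (D.A x z) ^ 2 * D.M x z ≠ 0 := by positivity
    simpa using this
  have h1 := D.T_mem_K hx hY
  have h2 : D.T x z = (-(4 * D.F x * D.A x z)) • z := by
    rw [T, h4, zero_smul, zero_sub, neg_smul]
  rw [h2] at h1
  exact D.mem_K_of_smul (neg_ne_zero.mpr (mul_ne_zero (mul_ne_zero four_ne_zero hx0.ne') hA)) h1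

end QuarData

end Pool.Agent.Lib.MP42.Quar
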