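import Pool.Agent.Lib.MP_42de19_nt.Quar.Basic

set_option autoImplicit false

namespace Pool.Agent.Lib.MP42.Quar

open Topology Filter Set

theorem continuous_lin {V : Type*} [NormedAddCommGroup V] [NormedSpace ℝ V]
    [FiniteDimensional ℝ V] (l : V →ₗ[ℝ] ℝ) : Continuous l :=
  l.continuous_of_finiteDimensional

namespace QuarData

section
variable {V : Type*} [NormedAddCommGroup V] [NormedSpace ℝ V] (D : QuarData V)

theorem B_eq_sum {n : ℕ} (b : Module.Basis (Fin n) ℝ V) (u v w z : V) : D.B u v w z =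
    ∑ i, ∑ j, ∑ k, ∑ l, (b.repr u i * b.repr v j * b.repr w k * b.repr z l) *
      D.B (b i) (b j) (b k) (b l) := by
  have h1 : ∀ (f : V →ₗ[ℝ] ℝ) (x : V), f x = ∑ i, b.repr x i * f (b i) := by
    intro f x
    conv_lhs => rw [← b.sum_repr x]
    rw [map_sum]
    refine Finset.sum_congr rfl fun i _ => ?_
    rw [map_smul, smul_eq_mul]
  have h2 : ∀ (f : V →ₗ[ℝ] V →ₗ[ℝ] ℝ) (x y : V), f x y =
      ∑ i, b.repr x i * f (b i) y := by
    intro f x y
    conv_lhs => rw [← b.sum_repr x]
    rw [map_sum, LinearMap.sum_apply]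
    refine Finset.sum_congr rfl fun i _ => ?_
    rw [map_smul, LinearMap.smul_apply, smul_eq_mul]
  have h3 : ∀ (f : V →ₗ[ℝ] V →ₗ[ℝ] V →ₗ[ℝ] ℝ) (x y z : V), f x y z =
      ∑ i, b.repr x i * f (b i) y z := by
    intro f x y z
    conv_lhs => rw [← b.sum_repr x]
    rw [map_sum, LinearMap.sum_apply, LinearMap.sum_apply]
    refine Finset.sum_congr rfl fun i _ => ?_
    rw [map_smul, LinearMap.smul_apply, LinearMap.smul_apply, smul_eq_mul]
  have h4 : D.B u v w z = ∑ i, b.repr u i * D.B (b i) v w z := by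
    conv_lhs => rw [← b.sum_repr u]
    rw [map_sum, LinearMap.sum_apply, LinearMap.sum_apply, LinearMap.sum_apply]
    refine Finset.sum_congr rfl fun i _ => ?_
    rw [map_smul, LinearMap.smul_apply, LinearMap.smul_apply, LinearMap.smul_apply, smul_eq_mul]
  rw [h4]
  refine Finset.sum_congr rfl fun i _ => ?_
  rw [h3 (D.B (b i)) v w z, Finset.mul_sum]
  refine Finset.sum_congr rfl fun j _ => ?_
  rw [h2 (D.B (b i) (b j)) w z, Finset.mul_sum, Finset.mul_sum]
  refine Finset.sum_congr rfl fun k _ => ?_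
  rw [h1 (D.B (b i) (b j) (b k)) z, Finset.mul_sum, Finset.mul_sum, Finset.mul_sum]
  refine Finset.sum_congr rfl fun l _ => ?_
  ring

end

variable {V : Type*} [NormedAddCommGroup V] [NormedSpace ℝ V] [FiniteDimensional ℝ V]
  (D : QuarData V)

/-- continuity of the 4-linear form, general version -/
theorem cont_B {Y : Type*} [TopologicalSpace Y] {f g h k : Y → V} (hf : Continuous f)
    (hg : Continuous g) (hh : Continuous h) (hk : Continuous k) :
    Continuous fun x => D.B (f x) (g x) (h x) (k x) := by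
  let b := Module.finBasis ℝ V
  have h1 : (fun x => D.B (f x) (g x) (h x) (k x)) = fun x =>
      ∑ i, ∑ j, ∑ m, ∑ l, (b.coord i (f x) * b.coord j (g x) * b.coord m (h x) *
        b.coord l (k x)) * D.B (b i) (b j) (b m) (b l) := by
    funext x; exact D.B_eq_sum b _ _ _ _
  rw [h1]
  refine continuous_finsetSum _ fun i _ => continuous_finsetSum _ fun j _ =>
    continuous_finsetSum _ fun m _ => continuous_finsetSum _ fun l _ => ?_
  exact ((((continuous_lin (b.coord i)).comp hf).mul ((continuous_lin (b.coord j)).comp hg)).mul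
    ((continuous_lin (b.coord m)).comp hh)).mul ((continuous_lin (b.coord l)).comp hk) |>.mul
    continuous_const

theorem continuous_B : Continuous fun p : V × V × V × V => D.B p.1 p.2.1 p.2.2.1 p.2.2.2 :=
  D.cont_B continuous_fst (continuous_fst.comp continuous_snd)
    (continuous_fst.comp (continuous_snd.comp continuous_snd))
    (continuous_snd.comp (continuous_snd.comp continuous_snd))

theorem hasDerivAt_B {f g h k : ℝ → V} {f' g' h' k' : V} {t : ℝ} (hf : HasDerivAt f f' t)
    (hg : HasDerivAt g g' t) (hh : HasDerivAt h h' t) (hk : HasDerivAt k k' t) :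
    HasDerivAt (fun t => D.B (f t) (g t) (h t) (k t))
      (D.B f' (g t) (h t) (k t) + D.B (f t) g' (h t) (k t) + D.B (f t) (g t) h' (k t) +
        D.B (f t) (g t) (h t) k') t := by
  let b := Module.finBasis ℝ V
  have hl : ∀ (l : V →ₗ[ℝ] ℝ) {φ : ℝ → V} {φ' : V}, HasDerivAt φ φ' t →
      HasDerivAt (fun s => l (φ s)) (l φ') t := by
    intro l φ φ' hφ
    exact (l.toContinuousLinearMap.hasFDerivAt (x := φ t)).comp_hasDerivAt t hφ
  have h1 : (fun t => D.B (f t) (g t) (h t) (k t)) = fun t =>
      ∑ i, ∑ j, ∑ m, ∑ l, (b.coord i (f t) * b.coord j (g t) * b.coord m (h t) *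
        b.coord l (k t)) * D.B (b i) (b j) (b m) (b l) := by
    funext t; exact D.B_eq_sum b _ _ _ _
  have h2 : D.B f' (g t) (h t) (k t) + D.B (f t) g' (h t) (k t) + D.B (f t) (g t) h' (k t) +
        D.B (f t) (g t) (h t) k' =
      ∑ i, ∑ j, ∑ m, ∑ l, (((b.coord i f' * b.coord j (g t) + b.coord i (f t) * b.coord j g') *
        b.coord m (h t) + (b.coord i (f t) * b.coord j (g t)) * b.coord m h') * b.coord l (k t) +
        (b.coord i (f t) * b.coord j (g t) * b.coord m (h t)) * b.coord l k') *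
        D.B (b i) (b j) (b m) (b l) := by
    rw [D.B_eq_sum b f', D.B_eq_sum b (f t) g', D.B_eq_sum b (f t) (g t) h',
      D.B_eq_sum b (f t) (g t) (h t) k']
    simp only [← Finset.sum_add_distrib]
    refine Finset.sum_congr rfl fun i _ => Finset.sum_congr rfl fun j _ =>
      Finset.sum_congr rfl fun m _ => Finset.sum_congr rfl fun l _ => ?_
    simp only [Module.Basis.coord_apply]
    ring
  rw [h1, h2]
  refine HasDerivAt.fun_sum fun i _ => HasDerivAt.fun_sum fun j _ =>
    HasDerivAt.fun_sum fun m _ => HasDerivAt.fun_sum fun l _ => ?_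
  exact ((((hl _ hf).mul (hl _ hg)).mul (hl _ hh)).mul (hl _ hk)).mul_const _

section cont
variable {Y : Type*} [TopologicalSpace Y] {f g h : Y → V}

theorem cont_F (hf : Continuous f) : Continuous fun x => D.F (f x) := D.cont_B hf hf hf hf
theorem cont_c1 (hf : Continuous f) (hg : Continuous g) : Continuous fun x => D.c1 (f x) (g x) :=
  D.cont_B hf hf hf hg
theorem cont_c2 (hf : Continuous f) (hg : Continuous g) : Continuous fun x => D.c2 (f x) (g x) :=
  D.cont_B hf hf hg hg
theorem cont_c3 (hf : Continuous f) (hg : Continuous g) : Continuous fun x => D.c3 (f x) (g x) :=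
  D.cont_B hf hg hg hg

theorem cont_M (hf : Continuous f) (hg : Continuous g) : Continuous fun x => D.M (f x) (g x) :=
  ((continuous_const.mul (D.cont_F hf)).mul (D.cont_c2 hf hg)).sub
    (continuous_const.mul ((D.cont_c1 hf hg).pow 2))

theorem cont_A (hf : Continuous f) (hg : Continuous g) : Continuous fun x => D.A (f x) (g x) :=
  ((((D.cont_F hf).pow 2).mul (D.cont_c3 hf hg)).sub
    (((continuous_const.mul (D.cont_F hf)).mul (D.cont_c1 hf hg)).mul (D.cont_c2 hf hg))).add
    (continuous_const.mul ((D.cont_c1 hf hg).pow 3))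

theorem cont_A' (hf : Continuous f) (hg : Continuous g) (hh : Continuous h) :
    Continuous fun x => D.A' (f x) (g x) (h x) :=
  ((((D.cont_F hf).pow 2).mul (D.cont_B hf hg hh hh)).sub ((D.cont_F hf).mul
    (((D.cont_c1 hf hg).mul (D.cont_c2 hf hh)).add
      ((continuous_const.mul (D.cont_c1 hf hh)).mul (D.cont_B hf hf hg hh))))).add
    ((continuous_const.mul ((D.cont_c1 hf hh).pow 2)).mul (D.cont_c1 hf hg))

theorem cont_A4 (hf : Continuous f) (hg : Continuous g) : Continuous fun x => D.A4 (f x) (g x) :=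
  (((D.cont_F hf).pow 3).mul (D.cont_F hg)).sub ((D.cont_M hf hg).pow 2)

theorem cont_T (hf : Continuous f) (hg : Continuous g) : Continuous fun x => D.T (f x) (g x) :=
  ((D.cont_A4 hf hg).smul hf).sub
    (((continuous_const.mul (D.cont_F hf)).mul (D.cont_A hf hg)).smul hg)

theorem cont_Y (hf : Continuous f) (hg : Continuous g) : Continuous fun x => D.Y (f x) (g x) :=
  (((D.cont_A4 hf hg).pow 2).sub (((continuous_const.mul (D.cont_c1 hf hg)).mul
    (D.cont_A hf hg)).mul (D.cont_A4 hf hg))).add ((continuous_const.mul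
      ((D.cont_A hf hg).pow 2)).mul (D.cont_M hf hg))

end cont

theorem isOpen_S : IsOpen D.S := isOpen_lt continuous_const (D.cont_F continuous_id)

/-- The derivative of `A4 (R t) z` along a curve, at a zero of `A4`. -/
theorem hasDerivAt_A4 {R : ℝ → V} {r : V} {t : ℝ} (hR : HasDerivAt R r t) (z : V)
    (hF : D.F (R t) ≠ 0) (h0 : D.A4 (R t) z = 0) :
    HasDerivAt (fun s => D.A4 (R s) z) (-(12 * D.M (R t) z / D.F (R t)) * D.A' (R t) r z) t := by
  have hz : HasDerivAt (fun _ : ℝ => z) 0 t := hasDerivAt_const t z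
  have hFd : HasDerivAt (fun s => D.F (R s)) (4 * D.c1 (R t) r) t := by
    have := D.hasDerivAt_B hR hR hR hR
    refine this.congr_deriv ?_
    unfold c1
    rw [D.s12 r (R t), D.s23 (R t) r, D.s34 (R t) (R t) r]
    ring
  have h1 : HasDerivAt (fun s => D.c1 (R s) z) (3 * D.B (R t) (R t) r z) t := by
    have := D.hasDerivAt_B hR hR hR hz
    refine this.congr_deriv ?_
    rw [D.s12 r (R t), D.s23 (R t) r, map_zero]
    ring
  have h2 : HasDerivAt (fun s => D.c2 (R s) z) (2 * D.B (R t) r z z) t := by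
    have := D.hasDerivAt_B hR hR hz hz
    refine this.congr_deriv ?_
    rw [D.s12 r (R t), map_zero, map_zero, LinearMap.zero_apply]
    ring
  have hM : HasDerivAt (fun s => D.M (R s) z) (12 * D.c1 (R t) r * D.c2 (R t) z +
      6 * D.F (R t) * D.B (R t) r z z - 12 * D.c1 (R t) z * D.B (R t) (R t) r z) t := by
    have := ((hFd.const_mul 3).mul h2).sub ((h1.pow 2).const_mul 2)
    refine this.congr_deriv ?_
    push_cast
    ring
  have hA := ((hFd.pow 3).mul_const (D.F z)).sub (hM.pow 2)
  refine hA.congr_deriv ?_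
  have h3 : (D.F (R t)) ^ 3 * D.F z = (D.M (R t) z) ^ 2 := by
    have : (D.F (R t)) ^ 3 * D.F z - (D.M (R t) z) ^ 2 = 0 := h0
    linarith
  have h4 : D.F z = (D.M (R t) z) ^ 2 / (D.F (R t)) ^ 3 := by
    rw [← h3]; field_simp
  rw [h4]
  have h5 : D.c2 (R t) z = (D.M (R t) z + 2 * (D.c1 (R t) z) ^ 2) / (3 * D.F (R t)) := by
    unfold M
    field_simp
    ring
  unfold A'
  rw [h5]
  field_simp
  ring

end QuarData

end Pool.Agent.Lib.MP42.Quar
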