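import Mathlib

set_option autoImplicit false

/-! Double covers `y² = F(x)` branched along quartics (MP_42de19_nt): symmetric 4-linear forms on a
real vector space with a dense set of rational vectors. -/

namespace Pool.Agent.Lib.MP42.Quar

/-- A symmetric 4-linear form on a real vector space `V`, together with a dense `ℚ`-subspace `Q`
of `V` (the rational vectors) on which the form has rational values. -/
structure QuarData (V : Type*) [NormedAddCommGroup V] [NormedSpace ℝ V] where
  B : V →ₗ[ℝ] V →ₗ[ℝ] V →ₗ[ℝ] V →ₗ[ℝ] ℝ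
  s12 : ∀ a b c d, B a b c d = B b a c d
  s23 : ∀ a b c d, B a b c d = B a c b d
  s34 : ∀ a b c d, B a b c d = B a b d c
  Q : AddSubgroup V
  smulQ : ∀ (r : ℚ) (v : V), v ∈ Q → (r : ℝ) • v ∈ Q
  denseQ : Dense (Q : Set V)
  ratQ : ∀ a ∈ Q, ∀ b ∈ Q, ∀ c ∈ Q, ∀ d ∈ Q, ∃ r : ℚ, B a b c d = r

/-- functions that are polynomial along lines -/
def PF {V : Type*} [NormedAddCommGroup V] [NormedSpace ℝ V] (f : V → ℝ) : Prop :=
  ∀ x v : V, ∃ p : Polynomial ℝ, ∀ t : ℝ, f (x + t • v) = p.eval t

namespace QuarData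

variable {V : Type*} [NormedAddCommGroup V] [NormedSpace ℝ V] (D : QuarData V)

/-- the quartic form -/
def F (v : V) : ℝ := D.B v v v v

/-- the locus where the quartic form is positive -/
def S : Set V := {v | 0 < D.F v}

/-- rational vectors at which the quartic form is a nonzero rational square -/
def ratX : Set V := {v | v ∈ D.Q ∧ ∃ r : ℚ, r ≠ 0 ∧ D.F v = (r : ℝ) ^ 2}

/-- the closure of the rational points -/
def K : Set V := closure D.ratX

/-- the coefficients of `F` on the plane of `x, z` -/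
def c1 (x z : V) : ℝ := D.B x x x z

def c2 (x z : V) : ℝ := D.B x x z z

def c3 (x z : V) : ℝ := D.B x z z z

/-- `F x ^ (3/2)` times the quadratic form which agrees with `√F` to second order at `x` -/
def M (x z : V) : ℝ := 3 * D.F x * D.c2 x z - 2 * (D.c1 x z) ^ 2

/-- the third order term of `√F` at `x` (up to a factor) -/
def A (x z : V) : ℝ :=
  (D.F x) ^ 2 * D.c3 x z - 3 * D.F x * D.c1 x z * D.c2 x z + 2 * (D.c1 x z) ^ 3

/-- one third of the derivative of `z ↦ A x z` in direction `r` -/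
def A' (x r z : V) : ℝ :=
  (D.F x) ^ 2 * D.B x r z z - D.F x * (D.c1 x r * D.c2 x z + 2 * D.c1 x z * D.B x x r z) +
    2 * (D.c1 x z) ^ 2 * D.c1 x r

/-- the fourth order term -/
def A4 (x z : V) : ℝ := (D.F x) ^ 3 * D.F z - (D.M x z) ^ 2

/-- the point in which the curve `y² = F` on the line of `x, z` meets its osculating conic at `x`
again (the point `2h - 3x`) -/
def T (x z : V) : V := D.A4 x z • x - (4 * D.F x * D.A x z) • z

/-- `F (T x z) = F x * (Y x z) ^ 2` -/
def Y (x z : V) : ℝ :=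
  (D.A4 x z) ^ 2 - 8 * D.c1 x z * D.A x z * D.A4 x z + 16 * (D.A x z) ^ 2 * D.M x z

/-- `K` has interior in the locus `F > 0` -/
def HasInt : Prop := ∃ O : Set V, IsOpen O ∧ O.Nonempty ∧ O ⊆ D.K ∧ O ⊆ D.S

/-- rational linear functionals -/
def RatFun (l : V →ₗ[ℝ] ℝ) : Prop := ∀ v ∈ D.Q, ∃ r : ℚ, l v = r

/-- subspaces with a dense set of rational vectors -/
def RatSub (N : Submodule ℝ V) : Prop := ∀ v ∈ N, v ∈ closure {u : V | u ∈ D.Q ∧ u ∈ N}

/-- the form does not vanish on a rational hyperplane -/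
def NoLin : Prop := ∀ l : V →ₗ[ℝ] ℝ, D.RatFun l → l ≠ 0 → ∃ v, l v = 0 ∧ D.F v ≠ 0

/-- no (real) vertex -/
def NoVertex : Prop := ∀ v : V, v ≠ 0 → D.B v ≠ 0

/-- `x` is special: the third order term of `√F` at `x` vanishes -/
def Special (x : V) : Prop := ∀ z, D.A x z = 0

end QuarData

end Pool.Agent.Lib.MP42.Quar
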