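import Pool.Agent.Lib.MP_42de19_nt.Quar.SFour

set_option autoImplicit false

/-! **Theorem I**: a nonspecial rational point forces `K` to have interior. -/

namespace Pool.Agent.Lib.MP42.Quar

open Topology Filter Set

namespace QuarData

section
variable {V : Type*} [NormedAddCommGroup V] [NormedSpace ℝ V] (D : QuarData V)

theorem A'_line2 (P z x : V) (t : ℝ) : D.A' P z (z + t • x) =
    D.A P z + 2 * t * D.A' P x z + t ^ 2 * D.A' P z x := by
  unfold A' A c1 c2 c3 F
  simp only [map_add, map_sub, map_neg, map_smul,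
    map_zero, LinearMap.add_apply, LinearMap.sub_apply, LinearMap.neg_apply, LinearMap.smul_apply,
    LinearMap.zero_apply, smul_eq_mul, QuarData.s12, QuarData.s23, QuarData.s34]
  ring

/-- if the trilinear form of `A P` satisfies `(u, ·, ·) = l u (z, ·, ·)`, it is a cube -/
theorem A_eq_cube {P z : V} {l : V →ₗ[ℝ] ℝ} (h : ∀ u v, D.A' P u v = l u * D.A' P z v) (x : V) :
    D.A P x = (l x) ^ 3 * D.A P z := by
  have h1 : ∀ t : ℝ, (D.A' P x z - l x * D.A P z) +
      (2 * D.A' P z x - 2 * l x * D.A' P x z) * t +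
      (D.A P x - l x * D.A' P z x) * t ^ 2 + 0 * t ^ 3 + 0 * t ^ 4 = 0 := by
    intro t
    have h2 := h x (z + t • x)
    rw [A'_line, A'_line2] at h2
    linear_combination h2
  obtain ⟨p0, p1, p2, -, -⟩ := coef5 h1
  have e1 : D.A' P x z = l x * D.A P z := by linarith
  have e2 : D.A' P z x = l x * D.A' P x z := by linarith
  have e3 : D.A P x = l x * D.A' P z x := by linarith
  rw [e3, e2, e1]; ring

/-- a special point gives a reflection preserving `F` -/
theorem F_reflect {z : V} (hz : D.Special z) (hF : D.F z ≠ 0) (x : V) :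
    D.F (x - (2 * (D.c1 z x / D.F z)) • z) = D.F x := by
  have h1 : x - (2 * (D.c1 z x / D.F z)) • z = (-(2 * (D.c1 z x / D.F z))) • z + (1 : ℝ) • x := by
    module
  rw [h1, F_comb]
  have h2 : (D.F z) ^ 2 * D.c3 z x - 3 * D.F z * D.c1 z x * D.c2 z x + 2 * (D.c1 z x) ^ 3 = 0 :=
    hz x
  have h3 : D.c3 z x = (3 * D.F z * D.c1 z x * D.c2 z x - 2 * (D.c1 z x) ^ 3) / (D.F z) ^ 2 := by
    field_simp
    linear_combination h2
  rw [h3]
  field_simp
  ring

theorem reflect_mem_ratX {z x : V} (hz : D.Special z) (hzX : z ∈ D.Q) (hF : D.F z ≠ 0)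
    (hx : x ∈ D.ratX) : x - (2 * (D.c1 z x / D.F z)) • z ∈ D.ratX := by
  obtain ⟨hQ, r, hr, hr'⟩ := hx
  refine ⟨D.sub_mem_Q hQ (D.smul_mem_Q hzX (rat_mul (rat_ofNat 2)
    (rat_div (D.ratQ_c1 hzX hQ) (D.ratQ_F hzX)))), r, hr, ?_⟩
  rw [D.F_reflect hz hF, hr']

end

variable {V : Type*} [NormedAddCommGroup V] [NormedSpace ℝ V] [FiniteDimensional ℝ V]
  (D : QuarData V)

/-- **Theorem I** -/
theorem hasInt (hV : D.NoVertex) (hl : D.NoLin) (hdim : 3 ≤ Module.finrank ℝ V) {P : V}
    (hP : P ∈ D.ratX) (hns : ¬ D.Special P) : D.HasInt := by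
  by_contra hint
  have hPQ := hP.1
  have hFP := D.F_ne_of_ratX hP
  obtain ⟨b, hb, hbP, hA4⟩ := D.exists_b hint hl hP hns
  have hb0 : b ≠ 0 := by
    rintro rfl
    simp at hbP
  have hker : ∀ z ∈ D.Q, b z = 0 → D.F z ≠ 0 → z ∈ D.ratX := by
    intro z hz hbz hFz
    refine D.mem_ratX_of_M hP hz hFz ?_
    have h1 := hA4 z
    rw [hbz, mul_zero] at h1
    have h2 : D.A4 P z = D.F P ^ 3 * D.F z - D.M P z ^ 2 := rfl
    linarith
  by_cases hN : ∃ z ∈ D.Q, b z = 0 ∧ D.F z ≠ 0 ∧ ¬ D.Special z
  · -- case N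
    obtain ⟨z, hz, hbz, hFz, hzs⟩ := hN
    have hzX := hker z hz hbz hFz
    obtain ⟨b', hb', hbz', hA4'⟩ := D.exists_b hint hl hzX hzs
    have hAz : ∀ x, D.A z x = (b x) ^ 3 * D.A z P := by
      intro x
      have h1 : x = b x • P + (x - b x • P) := by abel
      have h2 : b (x - b x • P) = 0 := by rw [map_sub, map_smul, hbP]; simp
      conv_lhs => rw [h1]
      rw [D.A_add_of_vertex (fun v => D.A'_ker hint hl hb hb0 hker hbz h2 v), A_smul_right]
    have hAP : D.A z P ≠ 0 := by
      intro h
      apply hzs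
      intro x
      rw [hAz, h, mul_zero]
    refine D.not_cube hint hl hV hdim hzX (c := 4 * D.F z * D.A z P)
      (mul_ne_zero (mul_ne_zero four_ne_zero hFz) hAP) (l := b) hb' ?_ hbz' hbz
      (e' := P - b' P • z) (by rw [map_sub, map_smul, hbz']; simp)
      (by rw [map_sub, map_smul, hbP, hbz]; simp)
    intro x
    have h1 := hA4' x
    rw [hAz] at h1
    have h2 : D.A4 z x = D.F z ^ 3 * D.F x - D.M z x ^ 2 := rfl
    linear_combination h1 - h2
  · -- case S
    push Not at hN
    obtain ⟨z, hz, hbz, hFz, hcz⟩ : ∃ z ∈ D.Q, b z = 0 ∧ D.F z ≠ 0 ∧ D.c1 z P ≠ 0 := by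
      by_contra hno
      push Not at hno
      have h1 : ∀ z, b z = 0 → D.c1 z P = 0 := by
        intro z hz
        exact D.ker_eq_zero hb hPQ hbP (φ := fun x => D.F x) (ψ := fun x => D.c1 x P)
          (fun f hf => D.pl_F hf) (D.cont_F continuous_id)
          (D.cont_c1 continuous_id continuous_const) (hl b hb hb0)
          (fun x hx hx1 hx2 => hno x hx hx1 hx2) hz
      have h2 : ∀ z, b z = 0 → D.c1 P z = 0 := by
        intro z hz
        refine D.ker_eq_zero hb hPQ hbP (φ := fun x => D.F x) (ψ := fun x => D.c1 P x)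
          (fun f hf => D.pl_F hf) (D.cont_F continuous_id)
          (D.cont_c1 continuous_const continuous_id) (hl b hb hb0) ?_ hz
        intro x hx hx1 hx2
        have h3 : (D.F x) ^ 2 * D.c3 x P - 3 * D.F x * D.c1 x P * D.c2 x P +
          2 * (D.c1 x P) ^ 3 = 0 := hN x hx hx1 hx2 P
        rw [h1 x hx1] at h3
        have h4 : D.F x ^ 2 * D.c3 x P = 0 := by linear_combination h3
        rcases mul_eq_zero.mp h4 with h5 | h5
        · exact absurd h5 (pow_ne_zero 2 hx2)
        · have h6 : D.c3 x P = D.c1 P x := by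
            unfold c3 c1
            rw [D.s12, D.s23, D.s34]
          rw [← h6]; exact h5
      apply hns
      intro x
      have h3 : b (x - b x • P) = 0 := by rw [map_sub, map_smul, hbP]; simp
      have h4 : x = b x • P + (1 : ℝ) • (x - b x • P) := by module
      rw [h4, A_comb]
      unfold A
      have h5 : D.c3 P (x - b x • P) = D.c1 (x - b x • P) P := by
        unfold c3 c1
        rw [D.s12, D.s23, D.s34]
      rw [h2 _ h3, h5, h1 _ h3]
      ring
    -- the reflected point
    have hzs : D.Special z := hN z hz hbz hFz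
    obtain ⟨P₁, hP₁⟩ : ∃ P₁, P₁ = P - (2 * (D.c1 z P / D.F z)) • z := ⟨_, rfl⟩
    have hP₁X : P₁ ∈ D.ratX := by rw [hP₁]; exact D.reflect_mem_ratX hzs hz hFz hP
    have hc1 : D.c1 z P₁ = - D.c1 z P := by
      rw [hP₁]
      unfold c1
      rw [map_sub, map_smul, smul_eq_mul]
      have : D.B z z z z = D.F z := rfl
      rw [this]
      field_simp
      ring
    -- the curve
    have hvel : ∀ ζ, b ζ = 0 → ∀ v, D.A' P ((-(8 * (D.c1 z P / D.F z) * D.c1 z ζ) -
        6 * D.B z z ζ P₁) • z + (2 * D.c1 z P) • ζ) v = 0 := by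
      intro ζ hζ v
      have hline : Continuous fun t : ℝ => z + t • ζ := by fun_prop
      set R : ℝ → V := fun t => D.F (z + t • ζ) • P₁ - (2 * D.c1 (z + t • ζ) P₁) • (z + t • ζ)
        with hR
      have hRc : Continuous R := ((D.cont_F hline).smul continuous_const).sub
        ((continuous_const.mul (D.cont_c1 hline continuous_const)).smul hline)
      have hR0 : R 0 = D.F z • P := by
        simp only [hR, zero_smul, add_zero]
        rw [hc1, hP₁, smul_sub, smul_smul]
        have : D.F z * (2 * (D.c1 z P / D.F z)) = 2 * D.c1 z P := by field_simp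
        rw [this]
        module
      have h3 : HasDerivAt (fun t : ℝ => z + t • ζ) ζ 0 := by
        have := ((hasDerivAt_id (0 : ℝ)).smul_const ζ).const_add z
        simpa using this
      have hz0 : z + (0 : ℝ) • ζ = z := by rw [zero_smul, add_zero]
      have hP' : HasDerivAt (fun _ : ℝ => P₁) 0 0 := hasDerivAt_const 0 P₁
      have hFd : HasDerivAt (fun t : ℝ => D.F (z + t • ζ)) (4 * D.c1 z ζ) 0 := by
        have := D.hasDerivAt_B h3 h3 h3 h3
        refine this.congr_deriv ?_
        rw [hz0]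
        unfold c1
        rw [D.s12 ζ z, D.s23 z ζ, D.s34 z z ζ]
        ring
      have hcd : HasDerivAt (fun t : ℝ => D.c1 (z + t • ζ) P₁) (3 * D.B z z ζ P₁) 0 := by
        have := D.hasDerivAt_B h3 h3 h3 hP'
        refine this.congr_deriv ?_
        rw [hz0, D.s12 ζ z, D.s23 z ζ, map_zero]
        ring
      have hRd : HasDerivAt R ((4 * D.c1 z ζ) • P₁ - ((2 * D.c1 z P₁) • ζ +
          (2 * (3 * D.B z z ζ P₁)) • z)) 0 := by
        have h4 := (hFd.smul hP').sub ((hcd.const_mul 2).smul h3)
        refine h4.congr_deriv ?_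
        rw [hz0, smul_zero, zero_add]
      have hK : ∀ᶠ t in 𝓝 (0 : ℝ), R t ∈ D.K := by
        have h5 : ∀ᶠ t in 𝓝 (0 : ℝ), D.F (z + t • ζ) ≠ 0 := by
          refine (D.cont_F hline).continuousAt.eventually_ne ?_
          rw [hz0]; exact hFz
        filter_upwards [h5] with t ht
        set y := z + t • ζ with hy
        have hby : b y = 0 := by rw [hy, map_add, map_smul, hbz, hζ]; simp
        -- approximate `y` by rational vectors of the hyperplane
        refine mem_closure_iff.mpr fun O hO hyO => ?_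
        have hyO' : D.F y • P₁ - (2 * D.c1 y P₁) • y ∈ O := hyO
        have c1' : Continuous fun x : V => D.F x • P₁ - (2 * D.c1 x P₁) • x :=
          ((D.cont_F continuous_id).smul continuous_const).sub
            ((continuous_const.mul (D.cont_c1 continuous_id continuous_const)).smul continuous_id)
        have h6 : IsOpen (prj b P ⁻¹' ((fun x : V => D.F x • P₁ - (2 * D.c1 x P₁) • x) ⁻¹' O ∩
            {x | D.F x ≠ 0})) :=
          ((hO.preimage c1').inter (isOpen_ne.preimage (D.cont_F continuous_id))).preimage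
            (continuous_prj b P)
        obtain ⟨x, hx1, hx2⟩ := D.denseQ.inter_open_nonempty _ h6
          ⟨y, by rw [mem_preimage, prj_of_ker hby]; exact ⟨hyO', ht⟩⟩
        have hq := D.prj_mem_Q hb hPQ hx2
        have hbq := b_prj hbP x
        have hFq : D.F (prj b P x) ≠ 0 := hx1.2
        refine ⟨_, hx1.1, ?_⟩
        obtain ⟨r, hr⟩ := D.ratQ_F hq
        have hr0 : r ≠ 0 := by
          rintro rfl
          exact hFq (by rw [hr]; simp)
        have h7 := D.smul_mem_ratX (D.reflect_mem_ratX (hN _ hq hbq hFq) hq hFq hP₁X) hr0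
        have h8 : (r : ℝ) • (P₁ - (2 * (D.c1 (prj b P x) P₁ / D.F (prj b P x))) • prj b P x) =
            D.F (prj b P x) • P₁ - (2 * D.c1 (prj b P x) P₁) • prj b P x := by
          rw [← hr, smul_sub, smul_smul]
          congr 2
          field_simp
        rw [h8] at h7
        exact h7
      have hX : R 0 ∈ D.ratX := by
        rw [hR0]
        obtain ⟨r, hr⟩ := D.ratQ_F hz
        rw [hr]
        refine D.smul_mem_ratX hP ?_
        rintro rfl
        exact hFz (by rw [hr]; simp)
      have h9 := D.A'_eq_zero_of_arc hint hl hRc hRd hK hX v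
      rw [hR0, A'_smul_base] at h9
      have h10 : D.A' P ((4 * D.c1 z ζ) • P₁ - ((2 * D.c1 z P₁) • ζ +
          (2 * (3 * D.B z z ζ P₁)) • z)) v = 0 := by
        rcases mul_eq_zero.mp h9 with h | h
        · exact absurd h (pow_ne_zero 9 hFz)
        · exact h
      have h11 : (4 * D.c1 z ζ) • P₁ - ((2 * D.c1 z P₁) • ζ + (2 * (3 * D.B z z ζ P₁)) • z) =
          (4 * D.c1 z ζ) • P + ((-(8 * (D.c1 z P / D.F z) * D.c1 z ζ) -
            6 * D.B z z ζ P₁) • z + (2 * D.c1 z P) • ζ) := by
        rw [hc1]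
        have : (4 * D.c1 z ζ) • P₁ = (4 * D.c1 z ζ) • (P - (2 * (D.c1 z P / D.F z)) • z) := by
          rw [hP₁]
        rw [this]
        module
      rw [h11, A'_add_left, A'_smul_left, A'_left, mul_zero, zero_add] at h10
      exact h10
    -- the functional `l`
    set β : V →ₗ[ℝ] ℝ := (-(8 * (D.c1 z P / D.F z))) • D.B z z z - (6 : ℝ) • D.B z z P₁ with hβ
    have hβ' : ∀ ζ, β ζ = -(8 * (D.c1 z P / D.F z) * D.c1 z ζ) - 6 * D.B z z ζ P₁ := by
      intro ζ
      simp only [hβ, LinearMap.sub_apply, LinearMap.smul_apply, smul_eq_mul]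
      rw [D.s34 z z P₁ ζ]
      unfold c1
      ring
    set l : V →ₗ[ℝ] ℝ := (-(2 * D.c1 z P)⁻¹) • (β - (β P) • b) with hldef
    have hl' : ∀ u, l u = -(2 * D.c1 z P)⁻¹ * (β u - β P * b u) := by
      intro u
      simp only [hldef, LinearMap.sub_apply, LinearMap.smul_apply, smul_eq_mul]
    have h2c : (2 * D.c1 z P) ≠ 0 := mul_ne_zero two_ne_zero hcz
    have hprop : ∀ u v, D.A' P u v = l u * D.A' P z v := by
      intro u v
      set ζ := u - b u • P with hζ
      have hbζ : b ζ = 0 := by rw [hζ, map_sub, map_smul, hbP]; simp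
      have h1 := hvel ζ hbζ v
      rw [← hβ', A'_add_left, A'_smul_left, A'_smul_left] at h1
      have h2 : u = b u • P + ζ := by rw [hζ]; abel
      have h3 : D.A' P u v = D.A' P ζ v := by
        conv_lhs => rw [h2]
        rw [A'_add_left, A'_smul_left, A'_left, mul_zero, zero_add]
      have h4 : β ζ = β u - β P * b u := by
        rw [hζ, map_sub, map_smul, smul_eq_mul]; ring
      rw [h3, hl', ← h4]
      field_simp
      linear_combination h1
    have hcube := D.A_eq_cube hprop
    have hAz : D.A P z ≠ 0 := by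
      intro h
      apply hns
      intro x
      rw [hcube, h, mul_zero]
    have hlP : l P = 0 := by rw [hl', hbP]; ring
    have hlz : l z = 1 := by
      have h1 := hcube z
      have h2 : ((l z) ^ 3 - 1) * D.A P z = 0 := by linear_combination - h1
      have h3 := hprop z z
      rw [A'_self] at h3
      have h4 : (l z - 1) * D.A P z = 0 := by linear_combination - h3
      rcases mul_eq_zero.mp h4 with h | h
      · linarith
      · exact absurd h hAz
    refine D.not_cube hint hl hV hdim hP (c := 4 * D.F P * D.A P z)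
      (mul_ne_zero (mul_ne_zero four_ne_zero hFP) hAz) (l := l) hb ?_ hbP hlP
      (e' := z) hbz (by rw [hlz]; exact one_ne_zero)
    intro x
    have h1 := hA4 x
    rw [hcube] at h1
    have h2 : D.A4 P x = D.F P ^ 3 * D.F x - D.M P x ^ 2 := rfl
    linear_combination h1 - h2

end QuarData

end Pool.Agent.Lib.MP42.Quar
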