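import Pool.Agent.Lib.MP_42de19_nt.Quar.Defs

set_option autoImplicit false

/-! Polynomials in one variable: the algebra behind the interior theorem. -/

namespace Pool.Agent.Lib.MP42.Quar

open Polynomial

/-- a vanishing wronskian -/
theorem const_of_wronskian {p r : ℝ[X]} (hr : r ≠ 0) (h : derivative p * r = p * derivative r) :
    ∃ c : ℝ, p = C c * r := by
  by_cases hp : p = 0
  · exact ⟨0, by simp [hp]⟩
  have key : ∀ q : ℝ[X], q ≠ 0 → derivative q * r = q * derivative r →
      q.natDegree = r.natDegree := by
    intro q hq hqr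
    have h1 : (derivative q * r).coeff (q.natDegree + r.natDegree - 1) =
        (q * derivative r).coeff (q.natDegree + r.natDegree - 1) := by rw [hqr]
    rcases Nat.eq_zero_or_pos q.natDegree with h0 | h0
    · rcases Nat.eq_zero_or_pos r.natDegree with h0' | h0'
      · rw [h0, h0']
      · exfalso
        rw [natDegree_eq_zero] at h0
        obtain ⟨c, rfl⟩ := h0
        rw [derivative_C, zero_mul] at hqr
        have h2 : derivative r = 0 := by
          rcases mul_eq_zero.mp hqr.symm with h | h
          · exact absurd h hq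
          · exact h
        have h3 := derivative_eq_zero.mp h2
        omega
    · rcases Nat.eq_zero_or_pos r.natDegree with h0' | h0'
      · exfalso
        rw [natDegree_eq_zero] at h0'
        obtain ⟨c, rfl⟩ := h0'
        rw [derivative_C, mul_zero] at hqr
        have h2 : derivative q = 0 := by
          rcases mul_eq_zero.mp hqr with h | h
          · exact h
          · exact absurd h hr
        have h3 := derivative_eq_zero.mp h2
        omega
      · have e1 : (derivative q * r).coeff ((q.natDegree - 1) + r.natDegree) =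
            (derivative q).coeff (q.natDegree - 1) * r.coeff r.natDegree := by
          exact coeff_mul_add_eq_of_natDegree_le (natDegree_derivative_le q) le_rfl
        have e2 : (q * derivative r).coeff (q.natDegree + (r.natDegree - 1)) =
            q.coeff q.natDegree * (derivative r).coeff (r.natDegree - 1) := by
          exact coeff_mul_add_eq_of_natDegree_le le_rfl (natDegree_derivative_le r)
        rw [coeff_derivative, Nat.sub_add_cancel h0] at e1
        rw [coeff_derivative, Nat.sub_add_cancel h0'] at e2
        have e3 : (q.natDegree - 1) + r.natDegree = q.natDegree + r.natDegree - 1 := by omega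
        have e4 : q.natDegree + (r.natDegree - 1) = q.natDegree + r.natDegree - 1 := by omega
        rw [e3, h1, ← e4, e2] at e1
        have hq' : q.coeff q.natDegree ≠ 0 := by
          rw [coeff_natDegree]; exact leadingCoeff_ne_zero.mpr hq
        have hr' : r.coeff r.natDegree ≠ 0 := by
          rw [coeff_natDegree]; exact leadingCoeff_ne_zero.mpr hr
        have e5 : (q.coeff q.natDegree * r.coeff r.natDegree) *
            ((((r.natDegree - 1 : ℕ) : ℝ) + 1) - (((q.natDegree - 1 : ℕ) : ℝ) + 1)) = 0 := by
          linear_combination e1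
        rcases mul_eq_zero.mp e5 with h | h
        · exact absurd h (mul_ne_zero hq' hr')
        · have : ((r.natDegree - 1 : ℕ) : ℝ) = ((q.natDegree - 1 : ℕ) : ℝ) := by linarith
          have := Nat.cast_injective this
          omega
  have hd := key p hp h
  refine ⟨p.leadingCoeff / r.leadingCoeff, ?_⟩
  by_contra hne
  have hq0 : p - C (p.leadingCoeff / r.leadingCoeff) * r ≠ 0 := sub_ne_zero.mpr hne
  have h2 := key _ hq0 (by
    rw [derivative_sub, derivative_C_mul]
    linear_combination h)
  have hrl : r.leadingCoeff ≠ 0 := leadingCoeff_ne_zero.mpr hr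
  have h3 : (p - C (p.leadingCoeff / r.leadingCoeff) * r).coeff r.natDegree = 0 := by
    rw [coeff_sub, coeff_C_mul, ← hd, coeff_natDegree, hd, coeff_natDegree]
    field_simp
    ring
  rw [← h2, coeff_natDegree, leadingCoeff_eq_zero] at h3
  exact hq0 h3

theorem div_linear {p q : ℝ[X]} (hp : p.natDegree ≤ 4) (hq : q.natDegree = 3) (h : q ∣ p) :
    ∃ c₀ c₁ : ℝ, p = (C c₀ + C c₁ * X) * q := by
  obtain ⟨s, rfl⟩ := h
  have hq0 : q ≠ 0 := by rintro rfl; simp at hq
  by_cases hs : s = 0
  · exact ⟨0, 0, by simp [hs]⟩
  have h1 : s.natDegree ≤ 1 := by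
    rw [natDegree_mul hq0 hs] at hp
    omega
  rw [natDegree_le_iff_coeff_eq_zero] at h1
  refine ⟨s.coeff 0, s.coeff 1, ?_⟩
  have h2 : s = C (s.coeff 0) + C (s.coeff 1) * X := by
    ext n
    rcases n with _ | _ | n
    · simp
    · simp [coeff_C]
    · rw [h1 _ (by omega)]
      simp [coeff_X, coeff_C]
  conv_lhs => rw [h2]
  ring

/-- from a divisibility of squares -/
theorem div_linear_of_sq {a e Y l m : ℝ[X]} {f : ℝ} (hf : f ≠ 0) (ha : a.natDegree = 3)
    (he : e.natDegree ≤ 4) (hY : Y = (C f * e - a * l) ^ 2 + a ^ 2 * m) (h : a ^ 2 ∣ Y) :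
    ∃ c₀ c₁ : ℝ, e = (C c₀ + C c₁ * X) * a := by
  apply div_linear he ha
  rw [hY, dvd_add_left (dvd_mul_right _ _)] at h
  have h1 : a ∣ C f * e - a * l := (IsIntegrallyClosed.pow_dvd_pow_iff two_ne_zero).mp h
  have h2 : a ∣ C f * e := by
    have := dvd_add h1 (dvd_mul_right a l)
    rwa [sub_add_cancel] at this
  have h3 : e = C f⁻¹ * (C f * e) := by
    rw [← mul_assoc, ← C_mul, inv_mul_cancel₀ hf, C_1, one_mul]
  rw [h3]
  exact dvd_mul_of_dvd_right h2 _

/-- The differential equation of lemma S2. -/
theorem linear_of_ode {a e Y l m : ℝ[X]} {f : ℝ} (hf : f ≠ 0) (ha : a.natDegree = 3)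
    (he : e.natDegree ≤ 4) (hY : Y = (C f * e - a * l) ^ 2 + a ^ 2 * m) (hY0 : Y ≠ 0)
    {W : ℝ[X]} (hW : W = C 2 * (e * derivative a ^ 2) - C 2 * (derivative e * a * derivative a) +
      derivative (derivative e) * a ^ 2 - e * a * derivative (derivative a))
    (h : Y * (C 6 * (derivative a * W) + a * derivative W) = C 3 * (derivative Y * a * W)) :
    ∃ c₀ c₁ : ℝ, e = (C c₀ + C c₁ * X) * a := by
  have ha0 : a ≠ 0 := by rintro rfl; simp at ha
  by_cases hW0 : W = 0
  · -- `e / a` has constant derivative
    have h1 : derivative (derivative e * a - e * derivative a) * a ^ 2 =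
        (derivative e * a - e * derivative a) * derivative (a ^ 2) := by
      rw [hW0] at hW
      rw [derivative_sub, derivative_mul, derivative_mul, derivative_pow]
      have : C (2 : ℝ) = 2 := rfl
      rw [this] at hW
      simp only [Nat.cast_ofNat, Nat.add_one_sub_one, pow_one]
      rw [this]
      linear_combination (-a) * hW
    obtain ⟨c, hc⟩ := const_of_wronskian (pow_ne_zero 2 ha0) h1
    have h2 : derivative (e - C c * X * a) * a = (e - C c * X * a) * derivative a := by
      rw [derivative_sub, derivative_mul, derivative_mul, derivative_C, derivative_X]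
      linear_combination hc
    obtain ⟨c₀, hc₀⟩ := const_of_wronskian ha0 h2
    exact ⟨c₀, c, by linear_combination hc₀⟩
  · have h1 : derivative (W * a ^ 6) * Y ^ 3 = (W * a ^ 6) * derivative (Y ^ 3) := by
      rw [derivative_mul, derivative_pow, derivative_pow]
      have e6 : C (6 : ℝ) = 6 := rfl
      have e3 : C (3 : ℝ) = 3 := rfl
      rw [e6, e3] at h
      simp only [Nat.cast_ofNat, Nat.add_one_sub_one]
      rw [e6, e3]
      linear_combination (a ^ 5 * Y ^ 2) * h
    obtain ⟨c, hc⟩ := const_of_wronskian (pow_ne_zero 3 hY0) h1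
    have hc0 : c ≠ 0 := by
      rintro rfl
      rw [C_0, zero_mul] at hc
      exact mul_ne_zero hW0 (pow_ne_zero 6 ha0) hc
    have h2 : (a ^ 2) ^ 3 ∣ Y ^ 3 := by
      have h3 : Y ^ 3 = C c⁻¹ * (W * a ^ 6) := by
        rw [hc, ← mul_assoc, ← C_mul, inv_mul_cancel₀ hc0, C_1, one_mul]
      rw [h3]
      exact ⟨C c⁻¹ * W, by ring⟩
    have h3 : a ^ 2 ∣ Y := (IsIntegrallyClosed.pow_dvd_pow_iff three_ne_zero).mp h2
    exact div_linear_of_sq hf ha he hY h3

end Pool.Agent.Lib.MP42.Quar
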