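import Pool.Agent.Lib.MP_42de19_nt.Quar.PF
import Pool.Agent.Lib.MP_42de19_nt.Quar.Poly

set_option autoImplicit false

/-! Polynomials along lines, rational functionals, and the functional `b`. -/

namespace Pool.Agent.Lib.MP42.Quar

open Topology Filter Set
open Polynomial (C X)

section rat

theorem rat_add {x y : ℝ} (hx : ∃ r : ℚ, x = r) (hy : ∃ r : ℚ, y = r) : ∃ r : ℚ, x + y = r := by
  obtain ⟨r, rfl⟩ := hx
  obtain ⟨s, rfl⟩ := hy
  exact ⟨r + s, by push_cast; ring⟩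

theorem rat_sub {x y : ℝ} (hx : ∃ r : ℚ, x = r) (hy : ∃ r : ℚ, y = r) : ∃ r : ℚ, x - y = r := by
  obtain ⟨r, rfl⟩ := hx
  obtain ⟨s, rfl⟩ := hy
  exact ⟨r - s, by push_cast; ring⟩

theorem rat_mul {x y : ℝ} (hx : ∃ r : ℚ, x = r) (hy : ∃ r : ℚ, y = r) : ∃ r : ℚ, x * y = r := by
  obtain ⟨r, rfl⟩ := hx
  obtain ⟨s, rfl⟩ := hy
  exact ⟨r * s, by push_cast; ring⟩

theorem rat_inv {x : ℝ} (hx : ∃ r : ℚ, x = r) : ∃ r : ℚ, x⁻¹ = r := by
  obtain ⟨r, rfl⟩ := hx
  exact ⟨r⁻¹, by push_cast; rfl⟩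

theorem rat_div {x y : ℝ} (hx : ∃ r : ℚ, x = r) (hy : ∃ r : ℚ, y = r) : ∃ r : ℚ, x / y = r := by
  rw [div_eq_mul_inv]; exact rat_mul hx (rat_inv hy)

theorem rat_pow {x : ℝ} (hx : ∃ r : ℚ, x = r) (n : ℕ) : ∃ r : ℚ, x ^ n = r := by
  obtain ⟨r, rfl⟩ := hx
  exact ⟨r ^ n, by push_cast; rfl⟩

theorem rat_const (r : ℚ) : ∃ s : ℚ, (r : ℝ) = s := ⟨r, rfl⟩

theorem rat_ofNat (n : ℕ) [n.AtLeastTwo] : ∃ s : ℚ, (OfNat.ofNat n : ℝ) = s :=
  ⟨OfNat.ofNat n, by push_cast; rfl⟩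

end rat

/-- comparison of coefficients -/
theorem coef5 {a₀ a₁ a₂ a₃ a₄ : ℝ}
    (h : ∀ t : ℝ, a₀ + a₁ * t + a₂ * t ^ 2 + a₃ * t ^ 3 + a₄ * t ^ 4 = 0) :
    a₀ = 0 ∧ a₁ = 0 ∧ a₂ = 0 ∧ a₃ = 0 ∧ a₄ = 0 := by
  have h0 := h 0
  have h1 := h 1
  have h2 := h (-1)
  have h3 := h 2
  have h4 := h (-2)
  refine ⟨?_, ?_, ?_, ?_, ?_⟩ <;> linarith

namespace QuarData

variable {V : Type*} [NormedAddCommGroup V] [NormedSpace ℝ V] (D : QuarData V)

theorem RatFun.add {l m : V →ₗ[ℝ] ℝ} (hl : D.RatFun l) (hm : D.RatFun m) : D.RatFun (l + m) :=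
  fun v hv => by rw [LinearMap.add_apply]; exact rat_add (hl v hv) (hm v hv)

theorem RatFun.sub {l m : V →ₗ[ℝ] ℝ} (hl : D.RatFun l) (hm : D.RatFun m) : D.RatFun (l - m) :=
  fun v hv => by rw [LinearMap.sub_apply]; exact rat_sub (hl v hv) (hm v hv)

theorem RatFun.smul {l : V →ₗ[ℝ] ℝ} {c : ℝ} (hc : ∃ r : ℚ, c = r) (hl : D.RatFun l) :
    D.RatFun (c • l) :=
  fun v hv => by rw [LinearMap.smul_apply, smul_eq_mul]; exact rat_mul hc (hl v hv)

theorem ratFun_B {a b c : V} (ha : a ∈ D.Q) (hb : b ∈ D.Q) (hc : c ∈ D.Q) :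
    D.RatFun (D.B a b c) := fun v hv => D.ratQ a ha b hb c hc v hv

/-- the linear coefficient of `M P` -/
def M1 (P x w : V) : ℝ := 6 * D.F P * D.B P P x w - 4 * D.c1 P x * D.c1 P w

theorem M_add_smul (P x w : V) (t : ℝ) : D.M P (x + t • w) =
    D.M P x + D.M1 P x w * t + D.M P w * t ^ 2 := by
  unfold M M1 c1 c2 F
  simp only [map_add, map_sub, map_neg, map_smul,
    map_zero, LinearMap.add_apply, LinearMap.sub_apply, LinearMap.neg_apply, LinearMap.smul_apply,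
    LinearMap.zero_apply, smul_eq_mul, QuarData.s12, QuarData.s23, QuarData.s34]
  ring

theorem F_add_smul (x w : V) (t : ℝ) : D.F (x + t • w) =
    D.F x + 4 * D.c1 x w * t + 6 * D.c2 x w * t ^ 2 + 4 * D.c3 x w * t ^ 3 + D.F w * t ^ 4 := by
  unfold F c1 c2 c3
  simp only [map_add, map_sub, map_neg, map_smul,
    map_zero, LinearMap.add_apply, LinearMap.sub_apply, LinearMap.neg_apply, LinearMap.smul_apply,
    LinearMap.zero_apply, smul_eq_mul, QuarData.s12, QuarData.s23, QuarData.s34]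
  ring

theorem c1_add_smul (P x w : V) (t : ℝ) : D.c1 P (x + t • w) = D.c1 P x + D.c1 P w * t := by
  unfold c1
  simp only [map_add, map_sub, map_neg, map_smul,
    map_zero, LinearMap.add_apply, LinearMap.sub_apply, LinearMap.neg_apply, LinearMap.smul_apply,
    LinearMap.zero_apply, smul_eq_mul, QuarData.s12, QuarData.s23, QuarData.s34]
  ring

noncomputable def lineA (P x w : V) : Polynomial ℝ :=
  C (D.A P x) + C (3 * D.A' P w x) * X + C (3 * D.A' P x w) * X ^ 2 + C (D.A P w) * X ^ 3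

theorem eval_lineA (P x w : V) (t : ℝ) : (D.lineA P x w).eval t = D.A P (x + t • w) := by
  rw [A_add_smul]
  simp only [lineA, Polynomial.eval_add, Polynomial.eval_mul, Polynomial.eval_C,
    Polynomial.eval_pow, Polynomial.eval_X]
  ring

theorem natDegree_lineA {P x w : V} (h : D.A P w ≠ 0) : (D.lineA P x w).natDegree = 3 := by
  unfold lineA
  compute_degree!

noncomputable def lineL (P x w : V) : Polynomial ℝ := C (D.c1 P x) + C (D.c1 P w) * X

theorem eval_lineL (P x w : V) (t : ℝ) : (D.lineL P x w).eval t = D.c1 P (x + t • w) := by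
  rw [c1_add_smul]
  simp only [lineL, Polynomial.eval_add, Polynomial.eval_mul, Polynomial.eval_C, Polynomial.eval_X]

noncomputable def lineM (P x w : V) : Polynomial ℝ :=
  C (D.M P x) + C (D.M1 P x w) * X + C (D.M P w) * X ^ 2

theorem eval_lineM (P x w : V) (t : ℝ) : (D.lineM P x w).eval t = D.M P (x + t • w) := by
  rw [M_add_smul]
  simp only [lineM, Polynomial.eval_add, Polynomial.eval_mul, Polynomial.eval_C,
    Polynomial.eval_pow, Polynomial.eval_X]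

noncomputable def lineF (x w : V) : Polynomial ℝ :=
  C (D.F x) + C (4 * D.c1 x w) * X + C (6 * D.c2 x w) * X ^ 2 + C (4 * D.c3 x w) * X ^ 3 +
    C (D.F w) * X ^ 4

theorem eval_lineF (x w : V) (t : ℝ) : (D.lineF x w).eval t = D.F (x + t • w) := by
  rw [F_add_smul]
  simp only [lineF, Polynomial.eval_add, Polynomial.eval_mul, Polynomial.eval_C,
    Polynomial.eval_pow, Polynomial.eval_X]

noncomputable def lineE (P x w : V) : Polynomial ℝ :=
  C ((D.F P) ^ 3) * D.lineF x w - (D.lineM P x w) ^ 2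

theorem eval_lineE (P x w : V) (t : ℝ) : (D.lineE P x w).eval t = D.A4 P (x + t • w) := by
  unfold lineE A4
  rw [Polynomial.eval_sub, Polynomial.eval_mul, Polynomial.eval_C, Polynomial.eval_pow,
    eval_lineF, eval_lineM]

theorem natDegree_lineE (P x w : V) : (D.lineE P x w).natDegree ≤ 4 := by
  unfold lineE lineF lineM
  compute_degree

end QuarData

end Pool.Agent.Lib.MP42.Quar
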