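import Pool.Agent.Lib.MP_42de19_nt.Quar.Sigma

set_option autoImplicit false
set_option linter.unusedSimpArgs false

/-! One variable: the function `Σ(s) = s - E2/(g E1)` of a line is not constant unless the quartic
is a square. -/

namespace Pool.Agent.Lib.MP42.Quar

open Topology Filter Set Polynomial

theorem quartic_zero {a0 a1 a2 a3 a4 : ℝ}
    (h : ∀ s : ℝ, a0 + a1 * s + a2 * s ^ 2 + a3 * s ^ 3 + a4 * s ^ 4 = 0) :
    a0 = 0 ∧ a1 = 0 ∧ a2 = 0 ∧ a3 = 0 ∧ a4 = 0 := by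
  have h0 := h 0
  have h1 := h 1
  have h2 := h (-1)
  have h3 := h 2
  have h4 := h (-2)
  norm_num at h0 h1 h2 h3 h4
  refine ⟨by linarith, by linarith, by linarith, by linarith, by linarith⟩

theorem not_sq_mul {f : ℝ[X]} (hf : ∀ q : ℝ[X], f ≠ q ^ 2) (A B : ℝ[X]) (hB : B ≠ 0) :
    A ^ 2 ≠ B ^ 2 * f := by
  intro h
  have h1 : B ^ 2 ∣ A ^ 2 := ⟨f, h⟩
  have h2 : B ∣ A := (IsIntegrallyClosed.pow_dvd_pow_iff two_ne_zero).mp h1
  obtain ⟨q, rfl⟩ := h2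
  have h3 : B ^ 2 * q ^ 2 = B ^ 2 * f := by rw [← mul_pow]; exact h
  exact hf q (mul_left_cancel₀ (pow_ne_zero 2 hB) h3).symm

theorem exists_eval_ne {p : ℝ[X]} (hp : p ≠ 0) {a b : ℝ} (hab : a < b) :
    ∃ s, a < s ∧ s < b ∧ p.eval s ≠ 0 := by
  by_contra hcon
  push Not at hcon
  refine hp (Polynomial.eq_zero_of_infinite_isRoot p ?_)
  refine (Set.Ioo_infinite hab).mono ?_
  intro s hs
  exact hcon s hs.1 hs.2

theorem same_sign {u : ℝ → ℝ} {a b : ℝ} (hab : a ≤ b) (hc : ContinuousOn u (Icc a b))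
    (h : ∀ s ∈ Icc a b, u s ≠ 0) : 0 < u a * u b := by
  have ha := h a (left_mem_Icc.mpr hab)
  have hb := h b (right_mem_Icc.mpr hab)
  by_contra hcon
  have h1 : u a * u b < 0 := lt_of_le_of_ne (not_lt.mp hcon) (mul_ne_zero ha hb)
  rcases mul_neg_iff.mp h1 with ⟨h2, h3⟩ | ⟨h2, h3⟩
  · obtain ⟨t, ht, ht'⟩ := intermediate_value_Icc' hab hc (show (0 : ℝ) ∈
      Icc (u b) (u a) from ⟨h3.le, h2.le⟩)
    exact h t ht ht'
  · obtain ⟨t, ht, ht'⟩ := intermediate_value_Icc hab hc (show (0 : ℝ) ∈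
      Icc (u a) (u b) from ⟨h2.le, h3.le⟩)
    exact h t ht ht'

/-- zero from a sign change -/
theorem exists_zero {u : ℝ → ℝ} {a b : ℝ} (hab : a ≤ b) (hc : ContinuousOn u (Icc a b))
    (h : u a * u b < 0) : ∃ s ∈ Icc a b, u s = 0 := by
  by_contra hcon
  push Not at hcon
  have := same_sign hab hc hcon
  linarith

/-- the one variable lemma -/
theorem line_lemma {k0 k1 k2 k3 k4 φ a b : ℝ} (hφ : φ ^ 2 = k4) (hφ0 : φ ≠ 0) (hab : a < b)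
    (hns : ∀ q : ℝ[X], C k0 + C (4 * k3) * X + C (6 * k2) * X ^ 2 + C (4 * k1) * X ^ 3 +
      C k4 * X ^ 4 ≠ q ^ 2)
    {g e1 e2 : ℝ → ℝ} (hgc : Continuous g)
    (hg : ∀ s, a < s → s < b → 0 < g s ∧ (g s) ^ 2 = k0 + 4 * k3 * s + 6 * k2 * s ^ 2 +
      4 * k1 * s ^ 3 + k4 * s ^ 4)
    (he1 : ∀ s, e1 s = 4 * (g s * (k1 + k4 * s) + φ * (k3 + 3 * k2 * s + 3 * k1 * s ^ 2 +
      k4 * s ^ 3)))
    (he2 : ∀ s, e2 s = 6 * (g s) ^ 2 * (k2 + 2 * k1 * s + k4 * s ^ 2) -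
      4 * (k3 + 3 * k2 * s + 3 * k1 * s ^ 2 + k4 * s ^ 3) ^ 2 + 2 * φ * (g s) ^ 3) :
    ∃ s₁ s₂ c : ℝ, a < s₁ ∧ s₁ < s₂ ∧ s₂ < b ∧ (∀ s ∈ Icc s₁ s₂, e1 s ≠ 0 ∧ e2 s ≠ 0) ∧
      (e2 s₁ - (s₁ - c) * g s₁ * e1 s₁) * (e2 s₂ - (s₂ - c) * g s₂ * e1 s₂) < 0 ∧
      k0 + 4 * k3 * c + 6 * k2 * c ^ 2 + 4 * k1 * c ^ 3 + k4 * c ^ 4 ≠ 0 := by
  set p : ℝ[X] := C k0 + C (4 * k3) * X + C (6 * k2) * X ^ 2 + C (4 * k1) * X ^ 3 +
      C k4 * X ^ 4 with hp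
  have hk4 : k4 ≠ 0 := by rw [← hφ]; exact pow_ne_zero 2 hφ0
  have hpe : ∀ s, p.eval s = k0 + 4 * k3 * s + 6 * k2 * s ^ 2 + 4 * k1 * s ^ 3 + k4 * s ^ 4 := by
    intro s; rw [hp]; simp
  have hp0 : p ≠ 0 := fun h => hns 0 (by rw [h]; ring)
  set q1 : ℝ[X] := C k1 + C k4 * X with hq1
  have hq1e : ∀ s, q1.eval s = k1 + k4 * s := by intro s; rw [hq1]; simp
  have hq10 : q1 ≠ 0 := by
    intro h
    have h0 := hq1e 0
    have h1 := hq1e 1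
    rw [h] at h0 h1
    simp only [eval_zero] at h0 h1
    exact hk4 (by linarith)
  set q2 : ℝ[X] := C k2 + C (2 * k1) * X + C k4 * X ^ 2 with hq2
  have hq2e : ∀ s, q2.eval s = k2 + 2 * k1 * s + k4 * s ^ 2 := by intro s; rw [hq2]; simp
  set q3 : ℝ[X] := C k3 + C (3 * k2) * X + C (3 * k1) * X ^ 2 + C k4 * X ^ 3 with hq3
  have hq3e : ∀ s, q3.eval s = k3 + 3 * k2 * s + 3 * k1 * s ^ 2 + k4 * s ^ 3 := by
    intro s; rw [hq3]; simp
  have he1c : Continuous e1 := by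
    have : e1 = fun s => 4 * (g s * (k1 + k4 * s) + φ * (k3 + 3 * k2 * s + 3 * k1 * s ^ 2 +
      k4 * s ^ 3)) := funext he1
    rw [this]
    fun_prop
  have he2c : Continuous e2 := by
    have : e2 = fun s => 6 * (g s) ^ 2 * (k2 + 2 * k1 * s + k4 * s ^ 2) -
      4 * (k3 + 3 * k2 * s + 3 * k1 * s ^ 2 + k4 * s ^ 3) ^ 2 + 2 * φ * (g s) ^ 3 := funext he2
    rw [this]
    fun_prop
  -- first point
  have hP1 : p * q1 ^ 2 - (C φ * q3) ^ 2 ≠ 0 := by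
    intro h
    exact not_sq_mul hns (C φ * q3) q1 hq10 (by linear_combination -h)
  have hP2 : (C 6 * p * q2 - C 4 * q3 ^ 2) ^ 2 - (C (2 * φ) * p) ^ 2 * p ≠ 0 := by
    intro h
    refine not_sq_mul hns (C 6 * p * q2 - C 4 * q3 ^ 2) (C (2 * φ) * p) ?_ (by
      linear_combination h)
    exact mul_ne_zero (by rw [Ne, C_eq_zero]; exact mul_ne_zero two_ne_zero hφ0) hp0
  obtain ⟨s0, h1, h2, h3⟩ := exists_eval_ne (mul_ne_zero hP1 hP2) hab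
  rw [eval_mul] at h3
  obtain ⟨hg0, hg2⟩ := hg s0 h1 h2
  have hz1 : e1 s0 ≠ 0 := by
    intro h
    refine left_ne_zero_of_mul h3 ?_
    simp only [eval_sub, eval_mul, eval_pow, eval_C, hpe, hq1e, hq3e]
    rw [he1] at h
    rw [← hg2]
    have h4 : g s0 * (k1 + k4 * s0) = -(φ * (k3 + 3 * k2 * s0 + 3 * k1 * s0 ^ 2 +
      k4 * s0 ^ 3)) := by linarith
    have h5 := congrArg (fun t => t ^ 2) h4
    try beta_reduce at h5
    linear_combination h5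
  have hz2 : e2 s0 ≠ 0 := by
    intro h
    refine right_ne_zero_of_mul h3 ?_
    simp only [eval_sub, eval_mul, eval_pow, eval_C, hpe, hq2e, hq3e]
    rw [he2] at h
    rw [← hg2]
    have h4 : 6 * (g s0) ^ 2 * (k2 + 2 * k1 * s0 + k4 * s0 ^ 2) -
      4 * (k3 + 3 * k2 * s0 + 3 * k1 * s0 ^ 2 + k4 * s0 ^ 3) ^ 2 = -(2 * φ * (g s0) ^ 3) := by
      linarith
    have h5 := congrArg (fun t => t ^ 2) h4
    try beta_reduce at h5
    linear_combination h5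
  have hev : ∀ᶠ s in 𝓝 s0, (a < s ∧ s < b) ∧ (e1 s ≠ 0 ∧ e2 s ≠ 0) :=
    ((lt_mem_nhds h1).and (gt_mem_nhds h2)).and
      ((he1c.continuousAt.eventually_ne hz1).and (he2c.continuousAt.eventually_ne hz2))
  obtain ⟨δ, hδ, hball⟩ := Metric.eventually_nhds_iff.mp hev
  set u := s0 - δ / 2 with hu
  set v := s0 + δ / 2 with hv
  have huv : u < v := by rw [hu, hv]; linarith
  have hI : ∀ s, u ≤ s → s ≤ v → (a < s ∧ s < b) ∧ (e1 s ≠ 0 ∧ e2 s ≠ 0) := by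
    intro s hs1 hs2
    refine hball ?_
    rw [Real.dist_eq, abs_lt]
    constructor <;> linarith
  -- second point
  obtain ⟨s₂, hus, hsv, hne⟩ : ∃ s₂, u < s₂ ∧ s₂ ≤ v ∧
      s₂ - e2 s₂ / (g s₂ * e1 s₂) ≠ u - e2 u / (g u * e1 u) := by
    by_contra hcon
    push Not at hcon
    set c := u - e2 u / (g u * e1 u) with hc
    have hB0 : C (2 * φ) * p - C (4 * φ) * (X - C c) * q3 ≠ 0 := by
      intro h
      have hB : ∀ s : ℝ, 2 * φ * (k0 + 4 * k3 * s + 6 * k2 * s ^ 2 + 4 * k1 * s ^ 3 + k4 * s ^ 4) -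
          4 * φ * (s - c) * (k3 + 3 * k2 * s + 3 * k1 * s ^ 2 + k4 * s ^ 3) = 0 := by
        intro s
        have h5 : (C (2 * φ) * p - C (4 * φ) * (X - C c) * q3).eval s = 0 := by
          rw [h, eval_zero]
        rw [eval_sub, eval_mul, eval_mul, eval_mul, eval_C, eval_C, eval_sub, eval_X, eval_C,
          hpe, hq3e] at h5
        exact h5
      have h6 : φ * k4 = 0 := by
        linear_combination (-1 / 48) * hB 0 + (4 / 48) * hB 1 - (6 / 48) * hB 2 +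
          (4 / 48) * hB 3 - (1 / 48) * hB 4
      exact mul_ne_zero hφ0 hk4 h6
    have hP3 : (C 6 * p * q2 - C 4 * q3 ^ 2 - C 4 * (X - C c) * p * q1) ^ 2 -
        (C (2 * φ) * p - C (4 * φ) * (X - C c) * q3) ^ 2 * p ≠ 0 := by
      intro h
      exact not_sq_mul hns (C 6 * p * q2 - C 4 * q3 ^ 2 - C 4 * (X - C c) * p * q1)
        (C (2 * φ) * p - C (4 * φ) * (X - C c) * q3) hB0 (sub_eq_zero.mp h)
    obtain ⟨s, hs1, hs2, hs3⟩ := exists_eval_ne hP3 huv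
    apply hs3
    obtain ⟨⟨ha, hb⟩, hi1, hi2⟩ := hI s hs1.le hs2.le
    obtain ⟨hgs, hgs2⟩ := hg s ha hb
    have h7 := hcon s hs1 hs2.le
    have h8 : e2 s = (s - c) * (g s * e1 s) := by
      have h9 : g s * e1 s ≠ 0 := mul_ne_zero hgs.ne' hi1
      have h10 : e2 s / (g s * e1 s) = s - c := by linarith
      rw [div_eq_iff h9] at h10
      exact h10
    rw [he1, he2] at h8
    simp only [eval_sub, eval_mul, eval_pow, eval_C, eval_X, hpe, hq1e, hq2e, hq3e]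
    rw [← hgs2]
    have h11 : 6 * (g s) ^ 2 * (k2 + 2 * k1 * s + k4 * s ^ 2) -
        4 * (k3 + 3 * k2 * s + 3 * k1 * s ^ 2 + k4 * s ^ 3) ^ 2 -
        4 * (s - c) * (g s) ^ 2 * (k1 + k4 * s) = -(g s * (2 * φ * (g s) ^ 2 -
        4 * φ * (s - c) * (k3 + 3 * k2 * s + 3 * k1 * s ^ 2 + k4 * s ^ 3))) := by
      linear_combination h8
    have h12 := congrArg (fun t => t ^ 2) h11
    try beta_reduce at h12
    linear_combination h12
  have hI2 : ∀ s ∈ Icc u s₂, (a < s ∧ s < b) ∧ (e1 s ≠ 0 ∧ e2 s ≠ 0) := fun s hs =>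
    hI s hs.1 (hs.2.trans hsv)
  have hsame : 0 < (g u * e1 u) * (g s₂ * e1 s₂) := by
    refine same_sign (u := fun s => g s * e1 s) hus.le (hgc.mul he1c).continuousOn ?_
    intro s hs
    obtain ⟨⟨ha, hb⟩, hi1, hi2⟩ := hI2 s hs
    exact mul_ne_zero (hg s ha hb).1.ne' hi1
  -- the constant c
  have hcex : ∃ c, p.eval c ≠ 0 ∧
      ((s₂ - e2 s₂ / (g s₂ * e1 s₂)) - c) * ((u - e2 u / (g u * e1 u)) - c) < 0 := by
    rcases lt_or_gt_of_ne hne with h | h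
    · obtain ⟨c, hc1, hc2, hc3⟩ := exists_eval_ne hp0 h
      exact ⟨c, hc3, mul_neg_of_neg_of_pos (by linarith) (by linarith)⟩
    · obtain ⟨c, hc1, hc2, hc3⟩ := exists_eval_ne hp0 h
      exact ⟨c, hc3, mul_neg_of_pos_of_neg (by linarith) (by linarith)⟩
  obtain ⟨c, hc1, hc2⟩ := hcex
  refine ⟨u, s₂, c, (hI2 u ⟨le_rfl, hus.le⟩).1.1, hus, (hI2 s₂ ⟨hus.le, le_rfl⟩).1.2,
    fun s hs => (hI2 s hs).2, ?_, ?_⟩
  · have hu0 : g u * e1 u ≠ 0 := left_ne_zero_of_mul hsame.ne'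
    have hs0 : g s₂ * e1 s₂ ≠ 0 := right_ne_zero_of_mul hsame.ne'
    have hu1 : g u ≠ 0 := left_ne_zero_of_mul hu0
    have hu2 : e1 u ≠ 0 := right_ne_zero_of_mul hu0
    have hs1 : g s₂ ≠ 0 := left_ne_zero_of_mul hs0
    have hs2 : e1 s₂ ≠ 0 := right_ne_zero_of_mul hs0
    have i1 : e2 u - (u - c) * g u * e1 u =
        -(g u * e1 u) * ((u - e2 u / (g u * e1 u)) - c) := by
      field_simp
      ring
    have i2 : e2 s₂ - (s₂ - c) * g s₂ * e1 s₂ =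
        -(g s₂ * e1 s₂) * ((s₂ - e2 s₂ / (g s₂ * e1 s₂)) - c) := by
      field_simp
      ring
    rw [i1, i2]
    have := mul_neg_of_pos_of_neg hsame hc2
    calc _ = (g u * e1 u) * (g s₂ * e1 s₂) * (((s₂ - e2 s₂ / (g s₂ * e1 s₂)) - c) *
          ((u - e2 u / (g u * e1 u)) - c)) := by ring
      _ < 0 := this
  · rw [← hpe]
    exact hc1

end Pool.Agent.Lib.MP42.Quar
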