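import Pool.Agent.Lib.MP_42de19_nt.Quar.Open
import Pool.Agent.Lib.MP_42de19_nt.Quar.Close

set_option autoImplicit false

/-! Openness of `K ∩ S` without the hypothesis of a point which is not special. -/

namespace Pool.Agent.Lib.MP42.Quar

open Topology Filter Set

namespace QuarData

variable {V : Type*} [NormedAddCommGroup V] [NormedSpace ℝ V] [FiniteDimensional ℝ V]
  (D : QuarData V)

/-- if all points of `S` are special, the form is the square of a quadratic form -/
theorem A4_eq_zero_of_special (h : ∀ P ∈ D.S, D.Special P) {P : V} (hP : P ∈ D.S) (z : V) :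
    D.A4 P z = 0 := by
  have hF : D.F P ≠ 0 := ne_of_gt hP
  -- shift `z` so that the first order term vanishes
  set b : ℝ := -(D.c1 P z / D.F P) with hb
  set w : V := b • P + (1 : ℝ) • z with hw
  have hc1 : D.c1 P w = 0 := by
    rw [hw, c1_comb', hb]
    field_simp
    ring
  have hA4 : D.A4 P w = D.A4 P z := by
    rw [hw, A4_comb, h P hP z]
    ring
  have hc3 : D.c3 P w = 0 := by
    have h1 := h P hP w
    unfold A at h1
    rw [hc1] at h1
    have h2 : (D.F P) ^ 2 * D.c3 P w = 0 := by linarith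
    exact (mul_eq_zero.mp h2).resolve_left (pow_ne_zero 2 hF)
  rw [← hA4]
  set g : ℝ → ℝ := fun u => D.F w * (D.F P + 6 * D.c2 P w * u ^ 2 + D.F w * u ^ 4) ^ 2 -
    3 * (D.F P + 6 * D.c2 P w * u ^ 2 + D.F w * u ^ 4) * (3 * D.c2 P w + D.F w * u ^ 2) *
      (D.c2 P w + D.F w * u ^ 2) + 2 * u ^ 2 * (3 * D.c2 P w + D.F w * u ^ 2) ^ 3 with hg
  have hexp : ∀ u : ℝ, D.A (P + u • w) w = u * g u := by
    intro u
    have e0 : D.F (P + u • w) = D.F P + 4 * u * D.c1 P w + 6 * u ^ 2 * D.c2 P w +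
        4 * u ^ 3 * D.c3 P w + u ^ 4 * D.F w := by
      have := D.F_comb P w 1 u
      rw [one_smul] at this
      rw [this]; ring
    have e1 : D.c1 (P + u • w) w = D.c1 P w + 3 * u * D.c2 P w + 3 * u ^ 2 * D.c3 P w +
        u ^ 3 * D.F w := by
      unfold c1 c2 c3 F
      simp only [map_add, map_smul, LinearMap.add_apply, LinearMap.smul_apply, smul_eq_mul,
        QuarData.s12, QuarData.s23, QuarData.s34]
      ring
    have e2 : D.c2 (P + u • w) w = D.c2 P w + 2 * u * D.c3 P w + u ^ 2 * D.F w := by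
      unfold c2 c3 F
      simp only [map_add, map_smul, LinearMap.add_apply, LinearMap.smul_apply, smul_eq_mul,
        QuarData.s12, QuarData.s23, QuarData.s34]
      ring
    have e3 : D.c3 (P + u • w) w = D.c3 P w + u * D.F w := by
      unfold c3 F
      simp only [map_add, map_smul, LinearMap.add_apply, LinearMap.smul_apply, smul_eq_mul]
    unfold A
    rw [e0, e1, e2, e3, hc1, hc3, hg]
    ring
  have hgc : Continuous g := by rw [hg]; fun_prop
  have hev : ∀ᶠ u in 𝓝 (0 : ℝ), P + u • w ∈ D.S := by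
    have hc : Continuous fun u : ℝ => P + u • w := by fun_prop
    exact hc.continuousAt.eventually (D.isOpen_S.mem_nhds (by simpa using hP))
  have hev' : ∀ᶠ u in 𝓝[≠] (0 : ℝ), g u = 0 := by
    filter_upwards [hev.filter_mono nhdsWithin_le_nhds, self_mem_nhdsWithin] with u hu hu0
    have h1 := hexp u
    rw [h _ hu w] at h1
    exact (mul_eq_zero.mp h1.symm).resolve_left hu0
  have hg0 : g 0 = 0 := by
    have h1 : Tendsto g (𝓝[≠] 0) (𝓝 (g 0)) := (hgc.tendsto 0).mono_left nhdsWithin_le_nhds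
    have h2 : Tendsto g (𝓝[≠] 0) (𝓝 0) :=
      (tendsto_congr' (hev'.mono fun u hu => hu)).mpr tendsto_const_nhds
    exact tendsto_nhds_unique h1 h2
  have h3 : D.F P * g 0 = D.A4 P w := by
    unfold A4 M
    rw [hc1, hg]
    ring
  rw [← h3, hg0, mul_zero]

/-- openness, all cases -/
theorem isOpen_K_inter_S' (hint : D.HasInt) : IsOpen (D.K ∩ D.S) := by
  by_cases hs : ∀ P ∈ D.S, D.Special P
  swap
  · push Not at hs
    obtain ⟨P, hP, hns⟩ := hs
    exact D.isOpen_K_inter_S hint hP hns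
  obtain ⟨O, hO, hne, hOK, hOS⟩ := hint
  obtain ⟨P, hP⟩ : D.ratX.Nonempty := by
    obtain ⟨o, ho⟩ := hne
    exact closure_nonempty_iff.mp ⟨o, hOK ho⟩
  obtain ⟨r, hr0, hr⟩ := hP.2
  have hPS := D.ratX_subset_S hP
  have hkey : D.S ⊆ D.K := by
    intro v hv
    have h1 : v ∈ closure (D.S ∩ (D.Q : Set V)) := by
      have := D.denseQ.open_subset_closure_inter D.isOpen_S
      exact this hv
    refine closure_mono ?_ h1
    rintro z ⟨hzS, hzQ⟩
    obtain ⟨m, hm⟩ := D.ratQ_M hP.1 hzQ
    have h4 := D.A4_eq_zero_of_special hs hPS z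
    unfold A4 at h4
    rw [hr, hm] at h4
    have hr' : (r : ℝ) ≠ 0 := by exact_mod_cast hr0
    have h5 : D.F z = ((m / r ^ 3 : ℚ) : ℝ) ^ 2 := by
      push_cast
      field_simp
      linarith
    refine ⟨hzQ, m / r ^ 3, ?_, h5⟩
    intro h0
    rw [h0] at h5
    have : (0 : ℝ) < D.F z := hzS
    rw [h5] at this
    simp at this
  rw [inter_eq_self_of_subset_right hkey]
  exact D.isOpen_S

end QuarData

end Pool.Agent.Lib.MP42.Quar
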