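import Pool.Agent.Lib.MP_42de19_nt.Quar.Close

set_option autoImplicit false

/-! Functions that are polynomial along lines. -/

namespace Pool.Agent.Lib.MP42.Quar

open Topology Filter Set

section
variable {V : Type*} [NormedAddCommGroup V] [NormedSpace ℝ V]

/-- vector valued functions that are polynomial along lines -/
def PL {W : Type*} [AddCommMonoid W] [Module ℝ W] (G : V → W) : Prop :=
  ∀ x v : V, ∃ (ι : Type) (_ : Fintype ι) (e : ι → ℕ) (w : ι → W), ∀ t : ℝ,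
    G (x + t • v) = ∑ i, t ^ (e i) • w i

namespace PL

variable {W W₁ W₂ : Type*} [AddCommMonoid W] [Module ℝ W] [AddCommMonoid W₁] [Module ℝ W₁]
  [AddCommMonoid W₂] [Module ℝ W₂]

theorem const (c : W) : PL (fun _ : V => c) := fun x v =>
  ⟨Unit, inferInstance, fun _ => 0, fun _ => c, fun t => by simp⟩

theorem id : PL (fun x : V => x) := fun x v =>
  ⟨Bool, inferInstance, fun b => if b then 1 else 0, fun b => if b then v else x, fun t => by
    simp [add_comm]⟩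

theorem app {G : V → (W₁ →ₗ[ℝ] W₂)} {H : V → W₁} (hG : PL G) (hH : PL H) :
    PL (fun x => G x (H x)) := by
  intro x v
  obtain ⟨ι, _, e, w, h⟩ := hG x v
  obtain ⟨κ, _, e', w', h'⟩ := hH x v
  refine ⟨ι × κ, inferInstance, fun p => e p.1 + e' p.2, fun p => w p.1 (w' p.2), fun t => ?_⟩
  show G (x + t • v) (H (x + t • v)) = ∑ p : ι × κ, t ^ (e p.1 + e' p.2) • w p.1 (w' p.2)
  rw [h, h', Fintype.sum_prod_type, LinearMap.sum_apply]
  refine Finset.sum_congr rfl fun i _ => ?_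
  rw [LinearMap.smul_apply, map_sum, Finset.smul_sum]
  refine Finset.sum_congr rfl fun j _ => ?_
  rw [map_smul, smul_smul, pow_add]

theorem add {G H : V → W} (hG : PL G) (hH : PL H) : PL (fun x => G x + H x) := by
  intro x v
  obtain ⟨ι, _, e, w, h⟩ := hG x v
  obtain ⟨κ, _, e', w', h'⟩ := hH x v
  refine ⟨ι ⊕ κ, inferInstance, Sum.elim e e', Sum.elim w w', fun t => ?_⟩
  show G (x + t • v) + H (x + t • v) = _
  rw [h, h', Fintype.sum_sum_type]
  rfl

theorem lin (l : W₁ →ₗ[ℝ] W₂) {H : V → W₁} (hH : PL H) : PL (fun x => l (H x)) :=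
  (const l).app hH

theorem neg {W : Type*} [AddCommGroup W] [Module ℝ W] {G : V → W} (hG : PL G) :
    PL (fun x => - G x) := by
  have := (PL.lin (-LinearMap.id : W →ₗ[ℝ] W) hG)
  simpa using this

theorem sub {W : Type*} [AddCommGroup W] [Module ℝ W] {G H : V → W} (hG : PL G) (hH : PL H) :
    PL (fun x => G x - H x) := by
  have := hG.add hH.neg
  simpa [sub_eq_add_neg] using this

theorem mul {f g : V → ℝ} (hf : PL f) (hg : PL g) : PL (fun x => f x * g x) :=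
  ((const (LinearMap.mul ℝ ℝ)).app hf).app hg

theorem smul {f : V → ℝ} {G : V → W} (hf : PL f) (hG : PL G) : PL (fun x => f x • G x) :=
  ((const (LinearMap.lsmul ℝ W)).app hf).app hG

theorem pow {f : V → ℝ} (hf : PL f) (n : ℕ) : PL (fun x => f x ^ n) := by
  induction n with
  | zero => simpa using const (V := V) (1 : ℝ)
  | succ n ih => simpa only [pow_succ] using ih.mul hf

theorem pf {f : V → ℝ} (hf : PL f) : PF f := by
  intro x v
  obtain ⟨ι, _, e, w, h⟩ := hf x v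
  refine ⟨∑ i, Polynomial.C (w i) * Polynomial.X ^ (e i), fun t => ?_⟩
  rw [h, Polynomial.eval_finsetSum]
  refine Finset.sum_congr rfl fun i _ => ?_
  rw [Polynomial.eval_mul, Polynomial.eval_C, Polynomial.eval_pow, Polynomial.eval_X, smul_eq_mul,
    mul_comm]

end PL

/-- a polynomial function which is nonzero somewhere is nonzero on a dense set -/
theorem PF.dense {f : V → ℝ} (hf : PF f) {x : V} (hx : f x ≠ 0) : Dense {z | f z ≠ 0} := by
  intro y
  rw [mem_closure_iff]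
  intro O hO hy
  obtain ⟨p, hp⟩ := hf y (x - y)
  have hp0 : p ≠ 0 := by
    rintro rfl
    have := hp 1
    rw [one_smul, add_sub_cancel] at this
    simp at this
    exact hx this
  have h1 : (p.rootSet ℝ).Finite := Polynomial.rootSet_finite p ℝ
  have h2 : Dense ((p.rootSet ℝ)ᶜ) := h1.countable.dense_compl ℝ
  have hc : Continuous fun t : ℝ => y + t • (x - y) := by fun_prop
  obtain ⟨t, ht1, ht2⟩ := h2.inter_open_nonempty _ (hO.preimage hc) ⟨0, by simpa using hy⟩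
  refine ⟨y + t • (x - y), ht1, ?_⟩
  show f _ ≠ 0
  rw [hp t]
  intro h
  apply ht2
  rw [Polynomial.mem_rootSet]
  exact ⟨hp0, by simpa [Polynomial.aeval_def, Polynomial.eval₂_eq_eval_map] using h⟩

theorem PF.exists_ne {f g : V → ℝ} (hf : PF f) (hg : PF g) (hf0 : ∃ x, f x ≠ 0)
    (hg0 : ∃ x, g x ≠ 0) : ∃ x, f x ≠ 0 ∧ g x ≠ 0 := by
  obtain ⟨x, hx⟩ := hf0
  obtain ⟨y, hy⟩ := hg0
  obtain ⟨p, hp⟩ := hf x (y - x)
  obtain ⟨q, hq⟩ := hg x (y - x)
  have hp0 : p ≠ 0 := by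
    rintro rfl
    have := hp 0
    rw [zero_smul, add_zero] at this
    simp at this
    exact hx this
  have hq0 : q ≠ 0 := by
    rintro rfl
    have := hq 1
    rw [one_smul, add_sub_cancel] at this
    simp at this
    exact hy this
  have h1 : (p * q).rootSet ℝ |>.Finite := Polynomial.rootSet_finite _ ℝ
  obtain ⟨t, ht⟩ := h1.infinite_compl.nonempty
  have h2 : (p * q).eval t ≠ 0 := by
    intro h
    apply ht
    rw [Polynomial.mem_rootSet]
    exact ⟨mul_ne_zero hp0 hq0, by simpa [Polynomial.aeval_def, Polynomial.eval₂_eq_eval_map] using h⟩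
  rw [Polynomial.eval_mul] at h2
  exact ⟨x + t • (y - x), by rw [hp]; exact left_ne_zero_of_mul h2,
    by rw [hq]; exact right_ne_zero_of_mul h2⟩

theorem PL.exists_ne {f g : V → ℝ} (hf : PL f) (hg : PL g) (hf0 : ∃ x, f x ≠ 0)
    (hg0 : ∃ x, g x ≠ 0) : ∃ x, f x ≠ 0 ∧ g x ≠ 0 := hf.pf.exists_ne hg.pf hf0 hg0

theorem PL.exists_ne₃ {f g h : V → ℝ} (hf : PL f) (hg : PL g) (hh : PL h) (hf0 : ∃ x, f x ≠ 0)
    (hg0 : ∃ x, g x ≠ 0) (hh0 : ∃ x, h x ≠ 0) : ∃ x, f x ≠ 0 ∧ g x ≠ 0 ∧ h x ≠ 0 := by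
  obtain ⟨x, hx1, hx2⟩ := hf.exists_ne hg hf0 hg0
  obtain ⟨y, hy1, hy2⟩ := (hf.mul hg).exists_ne hh ⟨x, mul_ne_zero hx1 hx2⟩ hh0
  exact ⟨y, left_ne_zero_of_mul hy1, right_ne_zero_of_mul hy1, hy2⟩

/-- a nonzero function, polynomial along lines, does not vanish on an open set -/
theorem PF.exists_mem_ne {f : V → ℝ} (hf : PF f) {x : V} (hx : f x ≠ 0) {O : Set V}
    (hO : IsOpen O) (hO' : O.Nonempty) : ∃ z ∈ O, f z ≠ 0 := by
  obtain ⟨z, h1, h2⟩ := (hf.dense hx).inter_open_nonempty O hO hO'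
  exact ⟨z, h1, h2⟩

end

namespace QuarData

variable {V : Type*} [NormedAddCommGroup V] [NormedSpace ℝ V] (D : QuarData V)
variable {f g h k : V → V}

theorem pl_B (hf : PL f) (hg : PL g) (hh : PL h) (hk : PL k) :
    PL (fun x => D.B (f x) (g x) (h x) (k x)) :=
  ((((PL.const D.B).app hf).app hg).app hh).app hk

theorem pl_F (hf : PL f) : PL (fun x => D.F (f x)) := D.pl_B hf hf hf hf
theorem pl_c1 (hf : PL f) (hg : PL g) : PL (fun x => D.c1 (f x) (g x)) := D.pl_B hf hf hf hg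
theorem pl_c2 (hf : PL f) (hg : PL g) : PL (fun x => D.c2 (f x) (g x)) := D.pl_B hf hf hg hg
theorem pl_c3 (hf : PL f) (hg : PL g) : PL (fun x => D.c3 (f x) (g x)) := D.pl_B hf hg hg hg

theorem pl_M (hf : PL f) (hg : PL g) : PL (fun x => D.M (f x) (g x)) :=
  (((PL.const (3 : ℝ)).mul (D.pl_F hf)).mul (D.pl_c2 hf hg)).sub
    ((PL.const (2 : ℝ)).mul ((D.pl_c1 hf hg).pow 2))

theorem pl_A (hf : PL f) (hg : PL g) : PL (fun x => D.A (f x) (g x)) :=
  ((((D.pl_F hf).pow 2).mul (D.pl_c3 hf hg)).sub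
    ((((PL.const (3 : ℝ)).mul (D.pl_F hf)).mul (D.pl_c1 hf hg)).mul (D.pl_c2 hf hg))).add
    ((PL.const (2 : ℝ)).mul ((D.pl_c1 hf hg).pow 3))

theorem pl_A' (hf : PL f) (hg : PL g) (hh : PL h) : PL (fun x => D.A' (f x) (g x) (h x)) :=
  ((((D.pl_F hf).pow 2).mul (D.pl_B hf hg hh hh)).sub ((D.pl_F hf).mul
    (((D.pl_c1 hf hg).mul (D.pl_c2 hf hh)).add
      (((PL.const (2 : ℝ)).mul (D.pl_c1 hf hh)).mul (D.pl_B hf hf hg hh))))).add
    (((PL.const (2 : ℝ)).mul ((D.pl_c1 hf hh).pow 2)).mul (D.pl_c1 hf hg))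

theorem pl_A4 (hf : PL f) (hg : PL g) : PL (fun x => D.A4 (f x) (g x)) :=
  (((D.pl_F hf).pow 3).mul (D.pl_F hg)).sub ((D.pl_M hf hg).pow 2)

theorem pl_T (hf : PL f) (hg : PL g) : PL (fun x => D.T (f x) (g x)) :=
  ((D.pl_A4 hf hg).smul hf).sub
    ((((PL.const (4 : ℝ)).mul (D.pl_F hf)).mul (D.pl_A hf hg)).smul hg)

theorem pl_Y (hf : PL f) (hg : PL g) : PL (fun x => D.Y (f x) (g x)) :=
  (((D.pl_A4 hf hg).pow 2).sub ((((PL.const (8 : ℝ)).mul (D.pl_c1 hf hg)).mul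
    (D.pl_A hf hg)).mul (D.pl_A4 hf hg))).add (((PL.const (16 : ℝ)).mul
      ((D.pl_A hf hg).pow 2)).mul (D.pl_M hf hg))

/-- rational vectors in a nonempty open set where a nonzero polynomial function does not vanish -/
theorem exists_rat_ne {φ : V → ℝ} (hφ : PL φ) (hc : Continuous φ) (h0 : ∃ x, φ x ≠ 0)
    {O : Set V} (hO : IsOpen O) (hO' : O.Nonempty) : ∃ z ∈ O, z ∈ D.Q ∧ φ z ≠ 0 := by
  obtain ⟨x, hx⟩ := h0
  obtain ⟨z, hz1, hz2⟩ := hφ.pf.exists_mem_ne hx hO hO'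
  obtain ⟨w, hw1, hw2⟩ := D.denseQ.inter_open_nonempty (O ∩ {z | φ z ≠ 0})
    (hO.inter (isOpen_ne.preimage hc)) ⟨z, hz1, hz2⟩
  exact ⟨w, hw1.1, hw2, hw1.2⟩

/-- a continuous function which vanishes at the rational vectors where a nonzero polynomial
function is nonzero is zero -/
theorem eq_zero_of_rat {φ ψ : V → ℝ} (hφ : PL φ) (hφc : Continuous φ) (hψc : Continuous ψ)
    (h0 : ∃ x, φ x ≠ 0) (h : ∀ x ∈ D.Q, φ x ≠ 0 → ψ x = 0) (x : V) : ψ x = 0 := by
  by_contra hx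
  obtain ⟨z, hz1, hz2, hz3⟩ := D.exists_rat_ne hφ hφc h0 (O := {z | ψ z ≠ 0})
    (isOpen_ne.preimage hψc) ⟨x, hx⟩
  exact hz1 (h z hz2 hz3)

end QuarData

end Pool.Agent.Lib.MP42.Quar
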