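import Pool.Agent.Lib.MP_42de19_nt.Quar.STwoB

set_option autoImplicit false

/-! Rational hyperplanes on which `F` is a square, and the case `F = Q² + c l³ b`. -/

namespace Pool.Agent.Lib.MP42.Quar

open Topology Filter Set

namespace QuarData

section
variable {V : Type*} [NormedAddCommGroup V] [NormedSpace ℝ V] (D : QuarData V)

theorem mem_ratX_of_M {z₀ z : V} (hz₀ : z₀ ∈ D.ratX) (hz : z ∈ D.Q) (hFz : D.F z ≠ 0)
    (h : D.F z₀ ^ 3 * D.F z = D.M z₀ z ^ 2) : z ∈ D.ratX := by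
  obtain ⟨hQ, r, hr, hF⟩ := hz₀
  obtain ⟨m, hm⟩ := D.ratQ_M hQ hz
  have hr' : (r : ℝ) ≠ 0 := by exact_mod_cast hr
  rw [hF, hm] at h
  have h1 : D.F z = ((m / r ^ 3 : ℚ) : ℝ) ^ 2 := by
    push_cast
    field_simp
    linear_combination h
  refine ⟨hz, m / r ^ 3, ?_, h1⟩
  intro h2
  rw [h2] at h1
  exact hFz (by rw [h1]; simp)

theorem A'_smul_base (s : ℝ) (x r z : V) : D.A' (s • x) r z = s ^ 9 * D.A' x r z := by
  unfold A' c1 c2 F
  simp only [map_add, map_sub, map_neg, map_smul,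
    map_zero, LinearMap.add_apply, LinearMap.sub_apply, LinearMap.neg_apply, LinearMap.smul_apply,
    LinearMap.zero_apply, smul_eq_mul, QuarData.s12, QuarData.s23, QuarData.s34]
  ring

theorem A_smul_right (x z : V) (s : ℝ) : D.A x (s • z) = s ^ 3 * D.A x z := by
  have := D.A_comb x z 0 s
  rwa [zero_smul, zero_add] at this

/-- a direction in the vertex of `A z` -/
theorem A_add_of_vertex {z w : V} (h : ∀ v, D.A' z w v = 0) (x : V) :
    D.A z (x + w) = D.A z x := by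
  have h1 := D.A_add_smul z x w 1
  have h2 := D.A'_line z x w 1
  rw [h, h, ← A'_self, h] at h2
  rw [one_smul, h, ← D.A'_self z w, h] at h1
  rw [h1]
  linarith

/-- a diagonal value determines a symmetric form -/
theorem B_eq_zero_of_diag {n : V} (h : ∀ x, D.c1 x n = 0) : D.B n = 0 := by
  have key : ∀ a b c : V, D.B a b c n = 0 := by
    intro a b c
    have h1 := h (a + b + c)
    have h2 := h (a + b)
    have h3 := h (a + c)
    have h4 := h (b + c)
    have h5 := h a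
    have h6 := h b
    have h7 := h c
    unfold c1 at h1 h2 h3 h4 h5 h6 h7
    simp only [map_add, LinearMap.add_apply] at h1 h2 h3 h4
    rw [D.s12 b a a, D.s23 a b a, D.s12 b a b, D.s12 c a a, D.s23 a c a, D.s12 c a c, D.s12 c b b,
      D.s23 b c b, D.s12 c b c, D.s12 b a c, D.s12 c a b, D.s23 a c b, D.s12 c b a, D.s23 b c a,
      D.s12 b a c] at h1
    rw [D.s12 b a a, D.s23 a b a, D.s12 b a b] at h2
    rw [D.s12 c a a, D.s23 a c a, D.s12 c a c] at h3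
    rw [D.s12 c b b, D.s23 b c b, D.s12 c b c] at h4
    linarith
  ext a b c
  rw [D.s12 n a, D.s23 a n, D.s34 a b n]
  rw [key]
  rfl

end

variable {V : Type*} [NormedAddCommGroup V] [NormedSpace ℝ V] [FiniteDimensional ℝ V]
  (D : QuarData V)

theorem exists_rat_one {b : V →ₗ[ℝ] ℝ} (hb : D.RatFun b) (hb0 : b ≠ 0) :
    ∃ e ∈ D.Q, b e = 1 := by
  obtain ⟨z, -, hz1, hz2⟩ := D.exists_rat_ne (φ := fun x => b x) (PL.lin b PL.id)
    (continuous_lin b) (by
      by_contra h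
      push Not at h
      exact hb0 (LinearMap.ext h)) isOpen_univ univ_nonempty
  obtain ⟨r, hr⟩ := hb z hz1
  refine ⟨((r⁻¹ : ℚ) : ℝ) • z, D.smulQ _ _ hz1, ?_⟩
  rw [map_smul, hr, smul_eq_mul]
  have : (r : ℝ) ≠ 0 := by rw [← hr]; exact hz2
  push_cast
  field_simp

/-- projection to the hyperplane `b = 0` -/
def prj (b : V →ₗ[ℝ] ℝ) (e x : V) : V := x - b x • e

omit [FiniteDimensional ℝ V] in
theorem b_prj {b : V →ₗ[ℝ] ℝ} {e : V} (he : b e = 1) (x : V) : b (prj b e x) = 0 := by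
  unfold prj; rw [map_sub, map_smul, he]; simp

omit [FiniteDimensional ℝ V] in
theorem prj_of_ker {b : V →ₗ[ℝ] ℝ} {e x : V} (hx : b x = 0) : prj b e x = x := by
  unfold prj; rw [hx, zero_smul, sub_zero]

theorem continuous_prj (b : V →ₗ[ℝ] ℝ) (e : V) : Continuous (prj b e) :=
  continuous_id.sub ((continuous_lin b).smul continuous_const)

omit [FiniteDimensional ℝ V] in
theorem pl_prj (b : V →ₗ[ℝ] ℝ) (e : V) : PL (prj b e) :=
  PL.id.sub ((PL.lin b PL.id).smul (PL.const e))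

omit [FiniteDimensional ℝ V] in
theorem prj_mem_Q {b : V →ₗ[ℝ] ℝ} (hb : D.RatFun b) {e x : V} (he : e ∈ D.Q) (hx : x ∈ D.Q) :
    prj b e x ∈ D.Q := D.sub_mem_Q hx (D.smul_mem_Q he (hb x hx))

/-- density of the rational points in a rational hyperplane, for continuous equations -/
theorem ker_eq_zero {b : V →ₗ[ℝ] ℝ} (hb : D.RatFun b) {e : V} (he : e ∈ D.Q) (he1 : b e = 1)
    {φ ψ : V → ℝ} (hφ : ∀ f : V → V, PL f → PL fun x => φ (f x)) (hφc : Continuous φ)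
    (hψc : Continuous ψ) (h0 : ∃ x, b x = 0 ∧ φ x ≠ 0)
    (h : ∀ x ∈ D.Q, b x = 0 → φ x ≠ 0 → ψ x = 0) {x : V} (hx : b x = 0) : ψ x = 0 := by
  have h1 := D.eq_zero_of_rat (φ := fun x => φ (prj b e x)) (ψ := fun x => ψ (prj b e x))
    (hφ _ (pl_prj b e)) (hφc.comp (continuous_prj b e)) (hψc.comp (continuous_prj b e))
    (by
      obtain ⟨z, hz1, hz2⟩ := h0
      exact ⟨z, by rw [prj_of_ker hz1]; exact hz2⟩)
    (fun z hz hz' => h _ (D.prj_mem_Q hb he hz) (b_prj he1 z) hz') x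
  rwa [prj_of_ker hx] at h1

/-- points of a rational hyperplane all of whose rational points are in `ratX` -/
theorem ker_subset_K {b : V →ₗ[ℝ] ℝ} (hb : D.RatFun b) {e : V} (he : e ∈ D.Q) (he1 : b e = 1)
    (h : ∀ z ∈ D.Q, b z = 0 → D.F z ≠ 0 → z ∈ D.ratX) {z : V} (hz : b z = 0)
    (hF : D.F z ≠ 0) : z ∈ D.K := by
  refine mem_closure_iff.mpr fun O hO hzO => ?_
  have h1 : IsOpen (prj b e ⁻¹' (O ∩ {x | D.F x ≠ 0})) :=
    (hO.inter (isOpen_ne.preimage (D.cont_F continuous_id))).preimage (continuous_prj b e)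
  obtain ⟨x, hx1, hx2⟩ := D.denseQ.inter_open_nonempty _ h1
    ⟨z, by rw [mem_preimage, prj_of_ker hz]; exact ⟨hzO, hF⟩⟩
  exact ⟨prj b e x, hx1.1, h _ (D.prj_mem_Q hb he hx2) (b_prj he1 x) hx1.2⟩

theorem A'_ker (hint : ¬ D.HasInt) (hl : D.NoLin) {b : V →ₗ[ℝ] ℝ} (hb : D.RatFun b)
    (hb0 : b ≠ 0) (h : ∀ z ∈ D.Q, b z = 0 → D.F z ≠ 0 → z ∈ D.ratX) {z w : V} (hz : b z = 0)
    (hw : b w = 0) (v : V) : D.A' z w v = 0 := by
  obtain ⟨e, he, he1⟩ := D.exists_rat_one hb hb0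
  refine D.ker_eq_zero hb he he1 (φ := fun x => D.F x) (ψ := fun x => D.A' x w v)
    (fun f hf => D.pl_F hf) (D.cont_F continuous_id)
    (D.cont_A' continuous_id continuous_const continuous_const) (hl b hb hb0) ?_ hz
  intro x hxQ hx hFx
  have hline : Continuous fun t : ℝ => x + t • w := by fun_prop
  have h0 : x + (0 : ℝ) • w = x := by rw [zero_smul, add_zero]
  have h1 := D.A'_eq_zero_of_arc hint hl (R := fun t : ℝ => x + t • w) (ρ := w) hline
    (by
      have := ((hasDerivAt_id (0 : ℝ)).smul_const w).const_add x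
      simpa using this)
    (by
      have h2 : ∀ᶠ t in 𝓝 (0 : ℝ), D.F (x + t • w) ≠ 0 := by
        refine (D.cont_F hline).continuousAt.eventually_ne ?_
        rw [h0]; exact hFx
      filter_upwards [h2] with t ht
      exact D.ker_subset_K hb he he1 h (by rw [map_add, map_smul, hx, hw]; simp) ht)
    (by rw [h0]; exact h x hxQ hx hFx) v
  simpa only [h0] using h1

/-- **S4** -/
theorem not_cube (hint : ¬ D.HasInt) (hl : D.NoLin) (hV : D.NoVertex)
    (hdim : 3 ≤ Module.finrank ℝ V) {z₀ : V} (hz₀ : z₀ ∈ D.ratX) {c : ℝ} (hc : c ≠ 0)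
    {l b : V →ₗ[ℝ] ℝ} (hb : D.RatFun b)
    (hF : ∀ x, D.F z₀ ^ 3 * D.F x = D.M z₀ x ^ 2 + c * (l x) ^ 3 * b x) {e e' : V}
    (he : b e = 1) (hle : l e = 0) (he' : b e' = 0) (hle' : l e' ≠ 0) : False := by
  have hF0 := D.F_ne_of_ratX hz₀
  have hb0 : b ≠ 0 := by
    rintro rfl
    simp at he
  -- the vector n
  obtain ⟨n, hn0, hn1, hn2⟩ : ∃ n : V, n ≠ 0 ∧ l n = 0 ∧ b n = 0 := by
    let f : V →ₗ[ℝ] (Fin 2 → ℝ) := LinearMap.pi ![l, b]
    have h1 : LinearMap.ker f ≠ ⊥ := by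
      apply LinearMap.ker_ne_bot_of_finrank_lt
      rw [Module.finrank_fin_fun]
      omega
    obtain ⟨v, hv, hv0⟩ := Submodule.exists_mem_ne_zero_of_ne_bot h1
    have h2 : f v = 0 := hv
    exact ⟨v, hv0, congrFun h2 0, congrFun h2 1⟩
  have hker : ∀ z ∈ D.Q, b z = 0 → D.F z ≠ 0 → z ∈ D.ratX := by
    intro z hz hbz hFz
    refine D.mem_ratX_of_M hz₀ hz hFz ?_
    rw [hF z, hbz]; ring
  have hA' : ∀ z w v, b z = 0 → b w = 0 → D.A' z w v = 0 := fun z w v hz hw =>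
    D.A'_ker hint hl hb hb0 hker hz hw v
  obtain ⟨e₀, he₀, he₀1⟩ := D.exists_rat_one hb hb0
  -- the identity for R in the hyperplane
  have key : ∀ R, b R = 0 → D.F R ≠ 0 → l R ≠ 0 →
      D.M1 z₀ R n ^ 2 - D.M z₀ R * D.M z₀ n = 0 ∧
      8 * D.M z₀ R ^ 2 * (2 * D.M1 z₀ R e * D.M1 z₀ R n - D.M z₀ R * D.M1 z₀ e n) +
        6 * D.M z₀ R * D.M1 z₀ R n * (c * (l R) ^ 3) = 0 := by
    intro R hbR hFR hlR
    set Q₀ := D.M z₀ R with hQ₀
    set d := c * (l R) ^ 3 with hd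
    have hd0 : d ≠ 0 := mul_ne_zero hc (pow_ne_zero 3 hlR)
    have hQ00 : Q₀ ≠ 0 := by
      intro h
      have h1 := hF R
      rw [← hQ₀, h, hbR] at h1
      have h2 : D.F z₀ ^ 3 * D.F R = 0 := by rw [h1]; ring
      exact mul_ne_zero (pow_ne_zero 3 hF0) hFR h2
    -- A R z for z with l z = 0
    have hA : ∀ z, l z = 0 → b z = 1 → 32 * (D.F z₀ ^ 9 * D.A R z) =
        8 * Q₀ ^ 2 * d * (D.M1 z₀ R z ^ 2 - Q₀ * D.M z₀ z) + 6 * Q₀ * D.M1 z₀ R z * d ^ 2 +
          d ^ 3 := by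
      intro z hlz hbz
      have h1 : ∀ t : ℝ, (D.F z₀ ^ 3 * D.F R - Q₀ ^ 2) +
          (D.F z₀ ^ 3 * (4 * D.c1 R z) - (2 * Q₀ * D.M1 z₀ R z + d)) * t +
          (D.F z₀ ^ 3 * (6 * D.c2 R z) - (D.M1 z₀ R z ^ 2 + 2 * Q₀ * D.M z₀ z)) * t ^ 2 +
          (D.F z₀ ^ 3 * (4 * D.c3 R z) - 2 * D.M1 z₀ R z * D.M z₀ z) * t ^ 3 +
          (D.F z₀ ^ 3 * D.F z - D.M z₀ z ^ 2) * t ^ 4 = 0 := by
        intro t
        have h2 := hF (R + t • z)
        rw [F_add_smul, M_add_smul, map_add, map_smul, map_add, map_smul, hlz, hbz, hbR] at h2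
        simp only [smul_eq_mul, mul_zero, add_zero, mul_one, zero_add] at h2
        rw [← hQ₀] at h2
        have hd' : d = c * (l R) ^ 3 := hd
        linear_combination h2 - t * hd'
      obtain ⟨k0, k1, k2, k3, -⟩ := coef5 h1
      have g0 : D.F z₀ ^ 3 * D.F R = Q₀ ^ 2 := by linarith
      have g1 : D.F z₀ ^ 3 * D.c1 R z = (2 * Q₀ * D.M1 z₀ R z + d) / 4 := by linarith
      have g2 : D.F z₀ ^ 3 * D.c2 R z = (D.M1 z₀ R z ^ 2 + 2 * Q₀ * D.M z₀ z) / 6 := by linarith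
      have g3 : D.F z₀ ^ 3 * D.c3 R z = (2 * D.M1 z₀ R z * D.M z₀ z) / 4 := by linarith
      have h6 : D.F z₀ ^ 9 * D.A R z = (D.F z₀ ^ 3 * D.F R) ^ 2 * (D.F z₀ ^ 3 * D.c3 R z) -
          3 * (D.F z₀ ^ 3 * D.F R) * (D.F z₀ ^ 3 * D.c1 R z) * (D.F z₀ ^ 3 * D.c2 R z) +
          2 * (D.F z₀ ^ 3 * D.c1 R z) ^ 3 := by
        unfold A; ring
      rw [h6, g0, g1, g2, g3]
      ring
    have hconst : ∀ s : ℝ, D.A R (e + s • n) = D.A R e := by
      intro s
      apply D.A_add_of_vertex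
      intro v
      exact hA' _ _ _ hbR (by rw [map_smul, hn2, smul_zero])
    have hpoly : ∀ s : ℝ, 0 + (8 * Q₀ ^ 2 * d * (2 * D.M1 z₀ R e * D.M1 z₀ R n -
          Q₀ * D.M1 z₀ e n) + 6 * Q₀ * D.M1 z₀ R n * d ^ 2) * s +
        (8 * Q₀ ^ 2 * d * (D.M1 z₀ R n ^ 2 - Q₀ * D.M z₀ n)) * s ^ 2 + 0 * s ^ 3 + 0 * s ^ 4 =
          0 := by
      intro s
      have h1 := hA e hle he
      have h2 := hA (e + s • n) (by rw [map_add, map_smul, hle, hn1]; simp)
        (by rw [map_add, map_smul, he, hn2]; simp)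
      rw [hconst s, M_add_smul] at h2
      have h3 : D.M1 z₀ R (e + s • n) = D.M1 z₀ R e + s * D.M1 z₀ R n := by
        unfold M1 c1
        rw [map_add, map_smul, map_add, map_smul, smul_eq_mul, smul_eq_mul]
        ring
      rw [h3] at h2
      linear_combination h1 - h2
    obtain ⟨-, p1, p2, -, -⟩ := coef5 hpoly
    constructor
    · rcases mul_eq_zero.mp p2 with h | h
      · exact absurd h (mul_ne_zero (mul_ne_zero (by norm_num) (pow_ne_zero 2 hQ00)) hd0)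
      · exact h
    · have h1 : d * (8 * Q₀ ^ 2 * (2 * D.M1 z₀ R e * D.M1 z₀ R n - Q₀ * D.M1 z₀ e n) +
          6 * Q₀ * D.M1 z₀ R n * d) = 0 := by linear_combination p1
      rcases mul_eq_zero.mp h1 with h | h
      · exact absurd h hd0
      · exact h
  -- a good R
  obtain ⟨R₀, hR₀b, hR₀⟩ : ∃ x, b x = 0 ∧ D.F x * l x ≠ 0 := by
    obtain ⟨u, hu1, hu2⟩ := hl b hb hb0
    obtain ⟨x, hx1, hx2⟩ := PL.exists_ne (f := fun x => D.F (prj b e₀ x))
      (g := fun x => l (prj b e₀ x)) (D.pl_F (pl_prj b e₀)) (PL.lin l (pl_prj b e₀))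
      ⟨u, by rw [prj_of_ker hu1]; exact hu2⟩ ⟨e', by rw [prj_of_ker he']; exact hle'⟩
    exact ⟨prj b e₀ x, b_prj he₀1 x, mul_ne_zero hx1 hx2⟩
  have cM1 : Continuous fun x => D.M1 z₀ x n := by
    unfold M1
    exact ((continuous_const.mul continuous_const).mul (D.cont_B continuous_const
      continuous_const continuous_id continuous_const)).sub ((continuous_const.mul
        (D.cont_c1 continuous_const continuous_id)).mul continuous_const)
  have hall : ∀ R, b R = 0 → D.M1 z₀ R n ^ 2 - D.M z₀ R * D.M z₀ n = 0 := by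
    intro R hR
    refine D.ker_eq_zero hb he₀ he₀1 (φ := fun x => D.F x * l x)
      (ψ := fun x => D.M1 z₀ x n ^ 2 - D.M z₀ x * D.M z₀ n)
      (fun f hf => (D.pl_F hf).mul (PL.lin l hf))
      ((D.cont_F continuous_id).mul (continuous_lin l))
      ((cM1.pow 2).sub ((D.cont_M continuous_const continuous_id).mul continuous_const))
      ⟨R₀, hR₀b, hR₀⟩ ?_ hR
    intro x _ hx1 hx2
    exact (key x hx1 (left_ne_zero_of_mul hx2) (right_ne_zero_of_mul hx2)).1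
  have hself : ∀ x, D.M1 z₀ x x = 2 * D.M z₀ x := by
    intro x; unfold M1 M c1 c2; ring
  have hMn : D.M z₀ n = 0 := by
    have h1 := hall n hn2
    rw [hself] at h1
    have h2 : D.M z₀ n ^ 2 = 0 := by linarith
    exact pow_eq_zero_iff (two_ne_zero) |>.mp h2
  have hM1 : ∀ R, b R = 0 → D.M1 z₀ R n = 0 := by
    intro R hR
    have h1 := hall R hR
    rw [hMn, mul_zero, sub_zero] at h1
    exact pow_eq_zero_iff (two_ne_zero) |>.mp h1
  have hM1e : D.M1 z₀ e n = 0 := by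
    have h1 := (key R₀ hR₀b (left_ne_zero_of_mul hR₀) (right_ne_zero_of_mul hR₀)).2
    rw [hM1 R₀ hR₀b] at h1
    have hQ00 : D.M z₀ R₀ ≠ 0 := by
      intro h
      have h1 := hF R₀
      rw [h, hR₀b] at h1
      have h2 : D.F z₀ ^ 3 * D.F R₀ = 0 := by rw [h1]; ring
      exact mul_ne_zero (pow_ne_zero 3 hF0) (left_ne_zero_of_mul hR₀) h2
    have h2 : D.M z₀ R₀ ^ 3 * D.M1 z₀ e n = 0 := by linear_combination (-1/8) * h1
    rcases mul_eq_zero.mp h2 with h | h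
    · exact absurd h (pow_ne_zero 3 hQ00)
    · exact h
  have hM1all : ∀ x, D.M1 z₀ x n = 0 := by
    intro x
    have h1 := hM1 (x - b x • e) (by rw [map_sub, map_smul, he]; simp)
    have h2 : D.M1 z₀ (x - b x • e) n = D.M1 z₀ x n - b x * D.M1 z₀ e n := by
      unfold M1 c1
      simp only [map_sub, map_smul, LinearMap.sub_apply, LinearMap.smul_apply, smul_eq_mul]
      ring
    rw [h2, hM1e, mul_zero, sub_zero] at h1
    exact h1
  refine hV n hn0 (D.B_eq_zero_of_diag fun x => ?_)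
  have h1 : ∀ t : ℝ, 0 + (4 * D.c1 x n) * t + (6 * D.c2 x n) * t ^ 2 +
      (4 * D.c3 x n) * t ^ 3 + D.F n * t ^ 4 = 0 := by
    intro t
    have h2 := hF (x + t • n)
    rw [F_add_smul, M_add_smul, map_add, map_smul, map_add, map_smul, hn1, hn2, hM1all, hMn] at h2
    simp only [smul_eq_mul, mul_zero, add_zero, zero_mul] at h2
    rw [← hF x] at h2
    have h3 : D.F z₀ ^ 3 * (0 + (4 * D.c1 x n) * t + (6 * D.c2 x n) * t ^ 2 +
      (4 * D.c3 x n) * t ^ 3 + D.F n * t ^ 4) = 0 := by linear_combination h2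
    rcases mul_eq_zero.mp h3 with h | h
    · exact absurd h (pow_ne_zero 3 hF0)
    · exact h
  obtain ⟨-, p1, -, -, -⟩ := coef5 h1
  linarith

end QuarData

end Pool.Agent.Lib.MP42.Quar
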