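import Pool.Agent.Lib.MP_42de19_nt.Quar.BFun
import Pool.Agent.Lib.MP_42de19_nt.Quar.Arc

set_option autoImplicit false

/-! If `K` has no interior: `A4 P x = 4 F(P) A P x * b x`. -/

namespace Pool.Agent.Lib.MP42.Quar

open Topology Filter Set
open Polynomial (C X)

namespace QuarData

section
variable {V : Type*} [NormedAddCommGroup V] [NormedSpace ℝ V] (D : QuarData V)

theorem A'_of_special {x : V} (h : D.Special x) (r z : V) : D.A' x r z = 0 := by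
  have h1 := D.A_add_smul x z r 1
  have h2 := D.A_add_smul x z r (-1)
  rw [h, h, h] at h1 h2
  linarith

theorem c1_lineL (x w : V) (t : ℝ) : D.c1 (x + t • w) w =
    D.c1 x w + 3 * D.c2 x w * t + 3 * D.c3 x w * t ^ 2 + D.F w * t ^ 3 := by
  unfold F c1 c2 c3
  simp only [map_add, map_sub, map_neg, map_smul,
    map_zero, LinearMap.add_apply, LinearMap.sub_apply, LinearMap.neg_apply, LinearMap.smul_apply,
    LinearMap.zero_apply, smul_eq_mul, QuarData.s12, QuarData.s23, QuarData.s34]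
  ring

theorem c2_lineL (x w : V) (t : ℝ) : D.c2 (x + t • w) w =
    D.c2 x w + 2 * D.c3 x w * t + D.F w * t ^ 2 := by
  unfold F c2 c3
  simp only [map_add, map_sub, map_neg, map_smul,
    map_zero, LinearMap.add_apply, LinearMap.sub_apply, LinearMap.neg_apply, LinearMap.smul_apply,
    LinearMap.zero_apply, smul_eq_mul, QuarData.s12, QuarData.s23, QuarData.s34]
  ring

theorem c3_lineL (x w : V) (t : ℝ) : D.c3 (x + t • w) w = D.c3 x w + D.F w * t := by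
  unfold F c3
  simp only [map_add, map_sub, map_neg, map_smul,
    map_zero, LinearMap.add_apply, LinearMap.sub_apply, LinearMap.neg_apply, LinearMap.smul_apply,
    LinearMap.zero_apply, smul_eq_mul, QuarData.s12, QuarData.s23, QuarData.s34]
  ring

theorem M1_line (P x w : V) (t : ℝ) : D.M1 P (x + t • w) w = D.M1 P x w + 2 * D.M P w * t := by
  unfold M1 M c1 c2 F
  simp only [map_add, map_sub, map_neg, map_smul,
    map_zero, LinearMap.add_apply, LinearMap.sub_apply, LinearMap.neg_apply, LinearMap.smul_apply,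
    LinearMap.zero_apply, smul_eq_mul, QuarData.s12, QuarData.s23, QuarData.s34]
  ring

theorem A'_line (P x w : V) (t : ℝ) : D.A' P w (x + t • w) =
    D.A' P w x + 2 * t * D.A' P x w + t ^ 2 * D.A P w := by
  unfold A' A c1 c2 c3 F
  simp only [map_add, map_sub, map_neg, map_smul,
    map_zero, LinearMap.add_apply, LinearMap.sub_apply, LinearMap.neg_apply, LinearMap.smul_apply,
    LinearMap.zero_apply, smul_eq_mul, QuarData.s12, QuarData.s23, QuarData.s34]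
  ring

theorem A'_line' (P x w : V) (t : ℝ) : D.A' P (x + t • w) w = D.A' P x w + t * D.A P w := by
  rw [A'_add_left, A'_smul_left, A'_self]

theorem A_hom (P x w : V) (μ ν : ℝ) : D.A P (μ • x + ν • w) = μ ^ 3 * D.A P x +
    3 * μ ^ 2 * ν * D.A' P w x + 3 * μ * ν ^ 2 * D.A' P x w + ν ^ 3 * D.A P w := by
  unfold A' A c1 c2 c3 F
  simp only [map_add, map_sub, map_neg, map_smul,
    map_zero, LinearMap.add_apply, LinearMap.sub_apply, LinearMap.neg_apply, LinearMap.smul_apply,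
    LinearMap.zero_apply, smul_eq_mul, QuarData.s12, QuarData.s23, QuarData.s34]
  ring

theorem M_hom (P x w : V) (μ ν : ℝ) : D.M P (μ • x + ν • w) = μ ^ 2 * D.M P x +
    μ * ν * D.M1 P x w + ν ^ 2 * D.M P w := by
  unfold M1 M c1 c2 F
  simp only [map_add, map_sub, map_neg, map_smul,
    map_zero, LinearMap.add_apply, LinearMap.sub_apply, LinearMap.neg_apply, LinearMap.smul_apply,
    LinearMap.zero_apply, smul_eq_mul, QuarData.s12, QuarData.s23, QuarData.s34]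
  ring

/-- second Taylor coefficient of `A4 P` -/
def e2 (P x w : V) : ℝ := 6 * D.F P ^ 3 * D.c2 x w - D.M1 P x w ^ 2 - 2 * D.M P x * D.M P w

/-- third Taylor coefficient of `A4 P` -/
def e3 (P x w : V) : ℝ := 4 * D.F P ^ 3 * D.c3 x w - 2 * D.M1 P x w * D.M P w

theorem A4_hom (P x w : V) (μ ν : ℝ) : D.A4 P (μ • x + ν • w) = μ ^ 4 * D.A4 P x +
    μ ^ 3 * ν * D.e1lin P x w + μ ^ 2 * ν ^ 2 * D.e2 P x w + μ * ν ^ 3 * D.e3 P x w +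
    ν ^ 4 * D.A4 P w := by
  rw [e1lin_apply]
  unfold A4 e2 e3
  rw [F_comb, M_hom]
  ring

theorem F_split (P z : V) (l : ℝ) : D.F P ^ 3 * D.F (l • P - z) =
    (l ^ 2 * D.F P ^ 2 - 2 * l * D.F P * D.c1 P z + D.M P z) ^ 2 +
      (D.A4 P z - 4 * l * D.F P * D.A P z) := by
  have h1 : l • P - z = l • P + (-1 : ℝ) • z := by rw [neg_one_smul, sub_eq_add_neg]
  have h2 := D.A4_comb P z l (-1)
  have h3 := D.M_comb P z l (-1)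
  rw [← h1] at h2 h3
  have h4 : D.A4 P (l • P - z) = D.F P ^ 3 * D.F (l • P - z) - D.M P (l • P - z) ^ 2 := rfl
  rw [h2, h3] at h4
  linear_combination -h4

/-- the third order term of `√F` at a point where `F` is a square plus higher order terms -/
theorem cubic_term {f₀ k₁ k₂ k₃ Q₀ Q₁ Q₂ g₂ g₃ : ℝ} (h0 : f₀ = Q₀ ^ 2) (h1 : 4 * k₁ = 2 * Q₀ * Q₁)
    (h2 : 6 * k₂ = Q₁ ^ 2 + 2 * Q₀ * Q₂ + g₂) (h3 : 4 * k₃ = 2 * Q₁ * Q₂ + g₃) :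
    4 * (f₀ ^ 2 * k₃ - 3 * f₀ * k₁ * k₂ + 2 * k₁ ^ 3) = Q₀ ^ 3 * (Q₀ * g₃ - Q₁ * g₂) := by
  have h1' : k₁ = Q₀ * Q₁ / 2 := by linarith
  have h2' : k₂ = (Q₁ ^ 2 + 2 * Q₀ * Q₂ + g₂) / 6 := by linarith
  have h3' : k₃ = (2 * Q₁ * Q₂ + g₃) / 4 := by linarith
  rw [h0, h1', h2', h3']
  ring

/-- the value of `A` along the curve `T P (x + t w)` -/
theorem A_T_vel (P x w : V) {a₀ a₁ a₂ a₃ e₀ e₁ : ℝ} (ha₀ : a₀ = 4 * D.F P * D.A P x)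
    (ha₁ : a₁ = 4 * D.F P * D.a1lin P x w) (ha₂ : a₂ = 4 * D.F P * (3 * D.A' P x w))
    (ha₃ : a₃ = 4 * D.F P * D.A P w) (he₀ : e₀ = D.A4 P x) (he₁ : e₁ = D.e1lin P x w)
    {Q₀ Q₁ D₂ D₃ : ℝ}
    (hQ₀ : Q₀ = e₀ ^ 2 * D.F P ^ 2 - 2 * e₀ * D.F P * D.c1 P x * a₀ + D.M P x * a₀ ^ 2)
    (hQ₁ : Q₁ = 2 * e₀ * e₁ * D.F P ^ 2 - 2 * D.F P * (e₁ * D.c1 P x * a₀ +
      e₀ * (D.c1 P x * a₁ + D.c1 P w * a₀)) + 2 * D.M P x * a₀ * a₁ + D.M1 P x w * a₀ ^ 2)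
    (hD₂ : D₂ = e₀ * a₁ ^ 2 - e₁ * a₀ * a₁ + D.e2 P x w * a₀ ^ 2 - e₀ * a₀ * a₂)
    (hD₃ : D₃ = e₀ * a₁ * a₂ - e₁ * a₀ * a₂ + D.e3 P x w * a₀ ^ 2 - e₀ * a₀ * a₃) :
    4 * D.F P ^ 9 * D.A (D.T P x) (e₁ • P - (a₁ • x + a₀ • w)) =
      Q₀ ^ 3 * a₀ * (Q₀ * (2 * a₁ * D₂ + a₀ * D₃) - Q₁ * a₀ * D₂) := by
  set R := D.T P x with hR
  set R₁ := e₁ • P - (a₁ • x + a₀ • w) with hR₁
  have hRs : ∀ s : ℝ, R + s • R₁ = (e₀ + s * e₁) • P - ((a₀ + s * a₁) • x + (s * a₀) • w) := by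
    intro s
    rw [hR, hR₁, T, ← he₀, ← ha₀]
    module
  set Q₂ := e₁ ^ 2 * D.F P ^ 2 - 2 * D.F P * e₁ * (D.c1 P x * a₁ + D.c1 P w * a₀) +
    D.M P x * a₁ ^ 2 + D.M1 P x w * a₀ * a₁ + D.M P w * a₀ ^ 2 with hQ₂
  set g₄ := e₀ * a₁ ^ 4 + e₁ * a₁ ^ 3 * a₀ + D.e2 P x w * a₁ ^ 2 * a₀ ^ 2 +
    D.e3 P x w * a₁ * a₀ ^ 3 + D.A4 P w * a₀ ^ 4 - e₁ * (a₀ * a₁ ^ 3 + a₁ * a₁ ^ 2 * a₀ +
      a₂ * a₁ * a₀ ^ 2 + a₃ * a₀ ^ 3) with hg₄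
  have key : ∀ s : ℝ, (D.F P ^ 3 * D.F R - Q₀ ^ 2) +
      (D.F P ^ 3 * (4 * D.c1 R R₁) - 2 * Q₀ * Q₁) * s +
      (D.F P ^ 3 * (6 * D.c2 R R₁) - (Q₁ ^ 2 + 2 * Q₀ * Q₂ + a₀ ^ 2 * D₂)) * s ^ 2 +
      (D.F P ^ 3 * (4 * D.c3 R R₁) - (2 * Q₁ * Q₂ + a₀ * (2 * a₁ * D₂ + a₀ * D₃))) * s ^ 3 +
      (D.F P ^ 3 * D.F R₁ - (Q₂ ^ 2 + g₄)) * s ^ 4 = 0 := by
    intro s
    have h1 := D.F_split P ((a₀ + s * a₁) • x + (s * a₀) • w) (e₀ + s * e₁)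
    rw [← hRs s, F_add_smul, A_hom, M_hom, A4_hom, c1_comb, ← he₀, ← he₁] at h1
    have h2 : 4 * (e₀ + s * e₁) * D.F P * ((a₀ + s * a₁) ^ 3 * D.A P x +
        3 * (a₀ + s * a₁) ^ 2 * (s * a₀) * D.A' P w x +
        3 * (a₀ + s * a₁) * (s * a₀) ^ 2 * D.A' P x w + (s * a₀) ^ 3 * D.A P w) =
        (e₀ + s * e₁) * ((a₀ + s * a₁) ^ 3 * a₀ + (a₀ + s * a₁) ^ 2 * (s * a₀) * a₁ +
          (a₀ + s * a₁) * (s * a₀) ^ 2 * a₂ + (s * a₀) ^ 3 * a₃) := by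
      have h3 : a₁ = 4 * D.F P * (3 * D.A' P w x) := by rw [ha₁, a1lin_apply]
      linear_combination (-(e₀ + s * e₁) * (a₀ + s * a₁) ^ 3) * ha₀ -
        ((e₀ + s * e₁) * (a₀ + s * a₁) ^ 2 * (s * a₀)) * h3 -
        ((e₀ + s * e₁) * (a₀ + s * a₁) * (s * a₀) ^ 2) * ha₂ -
        ((e₀ + s * e₁) * (s * a₀) ^ 3) * ha₃
    rw [h2] at h1
    rw [hQ₀, hQ₁, hQ₂, hg₄, hD₂, hD₃]
    linear_combination h1
  obtain ⟨k0, k1, k2, k3, -⟩ := coef5 key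
  have h5 := cubic_term (f₀ := D.F P ^ 3 * D.F R) (k₁ := D.F P ^ 3 * D.c1 R R₁)
    (k₂ := D.F P ^ 3 * D.c2 R R₁) (k₃ := D.F P ^ 3 * D.c3 R R₁) (Q₀ := Q₀) (Q₁ := Q₁) (Q₂ := Q₂)
    (g₂ := a₀ ^ 2 * D₂) (g₃ := a₀ * (2 * a₁ * D₂ + a₀ * D₃)) (by linarith) (by linarith)
    (by linarith) (by linarith)
  have h6 : D.A R R₁ = (D.F R) ^ 2 * D.c3 R R₁ - 3 * D.F R * D.c1 R R₁ * D.c2 R R₁ +
    2 * (D.c1 R R₁) ^ 3 := rfl
  rw [h6]
  linear_combination h5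

end

end QuarData

end Pool.Agent.Lib.MP42.Quar
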