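import Pool.Agent.Lib.MP_42de19_nt.Quar.STwo

set_option autoImplicit false

/-! If `K` has no interior: `A4 P x = 4 F(P) A P x * b x` (second part). -/

namespace Pool.Agent.Lib.MP42.Quar

open Topology Filter Set
open Polynomial (C X)

namespace QuarData

variable {V : Type*} [NormedAddCommGroup V] [NormedSpace ℝ V] [FiniteDimensional ℝ V]
  (D : QuarData V)

/-- The arc lemma at a rational point, when `K` has no interior. -/
theorem A'_eq_zero_of_arc (hint : ¬ D.HasInt) (hl : D.NoLin) {R : ℝ → V} {ρ : V}
    (hRc : Continuous R) (hR : HasDerivAt R ρ 0) (hK : ∀ᶠ t in 𝓝 (0 : ℝ), R t ∈ D.K)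
    (hX : R 0 ∈ D.ratX) (v : V) : D.A' (R 0) ρ v = 0 := by
  by_contra h
  by_cases hs : D.Special (R 0)
  · exact h (D.A'_of_special hs _ _)
  obtain ⟨w, h1, h2, h3⟩ := PL.exists_ne₃ (D.pl_A (PL.const (R 0)) PL.id)
    (D.pl_Y (PL.const (R 0)) PL.id) (D.pl_A' (PL.const (R 0)) (PL.const ρ) PL.id)
    (D.not_special hs) (D.exists_Y_ne hl hX.1 (D.F_ne_of_ratX hX) hs) ⟨v, h⟩
  exact hint (D.hasInt_of_arc hRc hR hK (D.ratX_subset_S hX) h1 h2 h3)

/-- the curve `s ↦ T P (x + s w)` -/
theorem A_T_vel_eq_zero (hint : ¬ D.HasInt) (hl : D.NoLin) {P x w : V} (hP : P ∈ D.ratX)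
    (hx : x ∈ D.Q) (hY : D.Y P x ≠ 0) :
    D.A (D.T P x) (D.e1lin P x w • P - ((4 * D.F P * D.a1lin P x w) • x +
      (4 * D.F P * D.A P x) • w)) = 0 := by
  set ρ := D.e1lin P x w • P - ((4 * D.F P * D.a1lin P x w) • x +
      (4 * D.F P * D.A P x) • w) with hρ
  have hline : Continuous fun s : ℝ => x + s • w := by fun_prop
  have hRc : Continuous fun s : ℝ => D.T P (x + s • w) := D.cont_T continuous_const hline
  have h1 : HasDerivAt (fun s : ℝ => D.A4 P (x + s • w)) (D.e1lin P x w) 0 := by
    have h2 := (D.lineE P x w).hasDerivAt 0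
    have h3 : (fun s : ℝ => D.A4 P (x + s • w)) = fun s => (D.lineE P x w).eval s := by
      funext s; rw [eval_lineE]
    rw [h3]
    refine h2.congr_deriv ?_
    rw [e1lin_apply]
    simp only [lineE, lineF, lineM, Polynomial.derivative_sub, Polynomial.derivative_mul,
      Polynomial.derivative_add, Polynomial.derivative_C, Polynomial.derivative_X,
      Polynomial.derivative_pow, Polynomial.eval_sub, Polynomial.eval_add, Polynomial.eval_mul,
      Polynomial.eval_C, Polynomial.eval_X, Polynomial.eval_pow, Polynomial.eval_zero,
      Polynomial.eval_one]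
    ring
  have h2 : HasDerivAt (fun s : ℝ => D.A P (x + s • w)) (D.a1lin P x w) 0 := by
    have h2 := (D.lineA P x w).hasDerivAt 0
    have h3 : (fun s : ℝ => D.A P (x + s • w)) = fun s => (D.lineA P x w).eval s := by
      funext s; rw [eval_lineA]
    rw [h3]
    refine h2.congr_deriv ?_
    rw [a1lin_apply]
    simp only [lineA, Polynomial.derivative_sub, Polynomial.derivative_mul,
      Polynomial.derivative_add, Polynomial.derivative_C, Polynomial.derivative_X,
      Polynomial.derivative_pow, Polynomial.eval_sub, Polynomial.eval_add, Polynomial.eval_mul,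
      Polynomial.eval_C, Polynomial.eval_X, Polynomial.eval_pow, Polynomial.eval_zero,
      Polynomial.eval_one]
    ring
  have h3 : HasDerivAt (fun s : ℝ => x + s • w) w 0 := by
    have := ((hasDerivAt_id (0 : ℝ)).smul_const w).const_add x
    simpa using this
  have hR : HasDerivAt (fun s : ℝ => D.T P (x + s • w)) ρ 0 := by
    have h4 := (h1.smul_const P).sub ((h2.const_mul (4 * D.F P)).smul h3)
    refine h4.congr_deriv ?_
    rw [hρ]
    simp only [zero_smul, add_zero]
    module
  have h0 : D.T P (x + (0 : ℝ) • w) = D.T P x := by rw [zero_smul, add_zero]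
  have hX : D.T P (x + (0 : ℝ) • w) ∈ D.ratX := by
    rw [h0]; exact D.T_mem_ratX hP hx hY
  have hK : ∀ᶠ s in 𝓝 (0 : ℝ), D.T P (x + s • w) ∈ D.K := by
    have h5 : ∀ᶠ s in 𝓝 (0 : ℝ), D.Y P (x + s • w) ≠ 0 := by
      refine (D.cont_Y continuous_const hline).continuousAt.eventually_ne ?_
      simpa using hY
    filter_upwards [h5] with s hs
    exact D.T_mem_K (D.ratX_subset_K hP) hs
  have h6 := D.A'_eq_zero_of_arc hint hl hRc hR hK hX ρ
  rw [A'_self] at h6
  rw [← h0]
  exact h6

omit [FiniteDimensional ℝ V] in
/-- evaluation of the differential equation -/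
theorem eval_ode (pY pa W : Polynomial ℝ) (t : ℝ) :
    Polynomial.eval t (pY ^ 3 * pa * (pY * (C 6 * (Polynomial.derivative pa * W) +
        pa * Polynomial.derivative W) - C 3 * (Polynomial.derivative pY * pa * W))) =
    (pY.eval t) ^ 3 * (pa.eval t) * (pY.eval t * (6 * ((Polynomial.derivative pa).eval t *
      W.eval t) + pa.eval t * (Polynomial.derivative W).eval t) -
      3 * ((Polynomial.derivative pY).eval t * pa.eval t * W.eval t)) := by
  simp only [Polynomial.eval_sub, Polynomial.eval_add, Polynomial.eval_mul,
        Polynomial.eval_pow, Polynomial.eval_C]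

/-- **S2** -/
theorem exists_b (hint : ¬ D.HasInt) (hl : D.NoLin) {P : V} (hP : P ∈ D.ratX)
    (hns : ¬ D.Special P) :
    ∃ b : V →ₗ[ℝ] ℝ, D.RatFun b ∧ b P = 1 ∧ ∀ x, D.A4 P x = 4 * D.F P * D.A P x * b x := by
  have hPQ := hP.1
  have hF := D.F_ne_of_ratX hP
  -- a rational point with `A ≠ 0`, `Y ≠ 0`
  obtain ⟨x₀, -, hx₀, hx₀'⟩ := D.exists_rat_ne (φ := fun x => D.A P x * D.Y P x)
    ((D.pl_A (PL.const P) PL.id).mul (D.pl_Y (PL.const P) PL.id))
    ((D.cont_A continuous_const continuous_id).mul (D.cont_Y continuous_const continuous_id))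
    (by
      obtain ⟨x, h1, h2⟩ := PL.exists_ne (D.pl_A (PL.const P) PL.id) (D.pl_Y (PL.const P) PL.id)
        (D.not_special hns) (D.exists_Y_ne hl hPQ hF hns)
      exact ⟨x, mul_ne_zero h1 h2⟩) isOpen_univ univ_nonempty
  have hA₀ := left_ne_zero_of_mul hx₀'
  have hY₀ := right_ne_zero_of_mul hx₀'
  refine D.exists_b_of_line hPQ hF hx₀ hA₀ ?_
  intro w hw hAw
  set f := D.F P with hf
  set pa := C (4 * f) * D.lineA P x₀ w with hpa
  set pe := D.lineE P x₀ w with hpe
  set pl := D.lineL P x₀ w with hpl
  set pm := D.lineM P x₀ w with hpm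
  set pY := (C f * pe - pa * pl) ^ 2 + pa ^ 2 * (pm - pl ^ 2) with hpY
  set W := C 2 * (pe * Polynomial.derivative pa ^ 2) -
    C 2 * (Polynomial.derivative pe * pa * Polynomial.derivative pa) +
    Polynomial.derivative (Polynomial.derivative pe) * pa ^ 2 -
    pe * pa * Polynomial.derivative (Polynomial.derivative pa) with hW
  have h4f : (4 * f) ≠ 0 := mul_ne_zero four_ne_zero hF
  have hpadeg : pa.natDegree = 3 := by
    rw [hpa, Polynomial.natDegree_C_mul h4f]
    exact D.natDegree_lineA hAw
  have hevY : ∀ t, pY.eval t = f ^ 2 * D.Y P (x₀ + t • w) := by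
    intro t
    rw [Y_eq]
    simp only [hpY, hpa, hpe, hpl, hpm, Polynomial.eval_add, Polynomial.eval_sub,
      Polynomial.eval_mul, Polynomial.eval_pow, Polynomial.eval_C, eval_lineA, eval_lineE,
      eval_lineL, eval_lineM]
    ring
  have hpY0 : pY ≠ 0 := by
    intro h
    have h1 := hevY 0
    rw [h, Polynomial.eval_zero, zero_smul, add_zero] at h1
    exact mul_ne_zero (pow_ne_zero 2 hF) hY₀ h1.symm
  have hpa0 : pa ≠ 0 := by
    intro h
    rw [h] at hpadeg
    simp at hpadeg
  -- the differential equation
  have hode : pY * (C 6 * (Polynomial.derivative pa * W) + pa * Polynomial.derivative W) =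
      C 3 * (Polynomial.derivative pY * pa * W) := by
    have h1 : pY ^ 3 * pa * (pY * (C 6 * (Polynomial.derivative pa * W) +
        pa * Polynomial.derivative W) - C 3 * (Polynomial.derivative pY * pa * W)) = 0 := by
      refine Polynomial.eq_zero_of_infinite_isRoot _ ?_
      refine Set.Infinite.mono (s := Set.range (fun q : ℚ => (q : ℝ))) ?_
        (Set.infinite_range_of_injective Rat.cast_injective)
      rintro _ ⟨q, rfl⟩
      show Polynomial.eval _ _ = 0
      set t : ℝ := (q : ℝ) with ht
      set x := x₀ + t • w with hx
      have hxQ : x ∈ D.Q := D.add_mem_Q hx₀ (D.smulQ q w hw)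
      by_cases hY : D.Y P x = 0
      · have h2 := hevY t
        rw [← hx, hY, mul_zero] at h2
        change Polynomial.eval t _ = 0
        rw [eval_ode, h2]
        ring
      have h3 := D.A_T_vel_eq_zero hint hl hP hxQ hY (w := w)
      -- Taylor coefficients
      have a0 : pa.eval t = 4 * f * D.A P x := by
        rw [hpa, Polynomial.eval_mul, Polynomial.eval_C, eval_lineA]
      have a1 : (Polynomial.derivative pa).eval t = 4 * f * D.a1lin P x w := by
        rw [a1lin_apply, hx, A'_line]
        simp only [hpa, lineA, Polynomial.derivative_mul,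
          Polynomial.derivative_add, Polynomial.derivative_C, Polynomial.derivative_X,
          Polynomial.derivative_pow, Polynomial.eval_add, Polynomial.eval_mul,
          Polynomial.eval_C, Polynomial.eval_X, Polynomial.eval_pow, Polynomial.eval_zero,
          Polynomial.eval_one]
        push_cast
        ring
      have a2 : (Polynomial.derivative (Polynomial.derivative pa)).eval t =
          2 * (4 * f * (3 * D.A' P x w)) := by
        rw [hx, A'_line']
        simp only [hpa, lineA, Polynomial.derivative_mul,
          Polynomial.derivative_add, Polynomial.derivative_C, Polynomial.derivative_X,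
          Polynomial.derivative_pow, Polynomial.eval_add, Polynomial.eval_mul,
          Polynomial.eval_C, Polynomial.eval_X, Polynomial.eval_pow, Polynomial.eval_zero,
          Polynomial.eval_one, Polynomial.derivative_zero, Polynomial.derivative_one]
        push_cast
        ring
      have a3 : (Polynomial.derivative (Polynomial.derivative (Polynomial.derivative pa))).eval t =
          6 * (4 * f * D.A P w) := by
        simp only [hpa, lineA, Polynomial.derivative_mul,
          Polynomial.derivative_add, Polynomial.derivative_C, Polynomial.derivative_X,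
          Polynomial.derivative_pow, Polynomial.eval_add, Polynomial.eval_mul,
          Polynomial.eval_C, Polynomial.eval_X, Polynomial.eval_pow, Polynomial.eval_zero,
          Polynomial.eval_one, Polynomial.derivative_zero, Polynomial.derivative_one]
        push_cast
        ring
      have e0 : pe.eval t = D.A4 P x := by rw [hpe, eval_lineE]
      have e1 : (Polynomial.derivative pe).eval t = D.e1lin P x w := by
        rw [e1lin_apply, hx, c1_lineL, M_add_smul, M1_line]
        simp only [hpe, lineE, lineF, lineM, Polynomial.derivative_mul, Polynomial.derivative_sub,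
          Polynomial.derivative_add, Polynomial.derivative_C, Polynomial.derivative_X,
          Polynomial.derivative_pow, Polynomial.eval_add, Polynomial.eval_mul,
          Polynomial.eval_sub, Polynomial.eval_C, Polynomial.eval_X, Polynomial.eval_pow,
          Polynomial.eval_zero, Polynomial.eval_one]
        push_cast
        ring
      have e2 : (Polynomial.derivative (Polynomial.derivative pe)).eval t = 2 * D.e2 P x w := by
        unfold e2
        rw [hx, c2_lineL, M_add_smul, M1_line]
        simp only [hpe, lineE, lineF, lineM, Polynomial.derivative_mul, Polynomial.derivative_sub,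
          Polynomial.derivative_add, Polynomial.derivative_C, Polynomial.derivative_X,
          Polynomial.derivative_pow, Polynomial.eval_add, Polynomial.eval_mul,
          Polynomial.eval_sub, Polynomial.eval_C, Polynomial.eval_X, Polynomial.eval_pow,
          Polynomial.eval_zero, Polynomial.eval_one, Polynomial.derivative_zero,
          Polynomial.derivative_one]
        push_cast
        ring
      have e3 : (Polynomial.derivative (Polynomial.derivative (Polynomial.derivative pe))).eval t =
          6 * D.e3 P x w := by
        unfold e3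
        rw [hx, c3_lineL, M1_line]
        simp only [hpe, lineE, lineF, lineM, Polynomial.derivative_mul, Polynomial.derivative_sub,
          Polynomial.derivative_add, Polynomial.derivative_C, Polynomial.derivative_X,
          Polynomial.derivative_pow, Polynomial.eval_add, Polynomial.eval_mul,
          Polynomial.eval_sub, Polynomial.eval_C, Polynomial.eval_X, Polynomial.eval_pow,
          Polynomial.eval_zero, Polynomial.eval_one, Polynomial.derivative_zero,
          Polynomial.derivative_one]
        push_cast
        ring
      have l0 : pl.eval t = D.c1 P x := by rw [hpl, eval_lineL]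
      have l1 : (Polynomial.derivative pl).eval t = D.c1 P w := by
        simp only [hpl, lineL, Polynomial.derivative_mul,
          Polynomial.derivative_add, Polynomial.derivative_C, Polynomial.derivative_X,
          Polynomial.eval_add, Polynomial.eval_mul,
          Polynomial.eval_C, Polynomial.eval_X, Polynomial.eval_zero,
          Polynomial.eval_one]
        ring
      have m0 : pm.eval t = D.M P x := by rw [hpm, eval_lineM]
      have m1 : (Polynomial.derivative pm).eval t = D.M1 P x w := by
        rw [hx, M1_line]
        simp only [hpm, lineM, Polynomial.derivative_mul,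
          Polynomial.derivative_add, Polynomial.derivative_C, Polynomial.derivative_X,
          Polynomial.derivative_pow, Polynomial.eval_add, Polynomial.eval_mul,
          Polynomial.eval_C, Polynomial.eval_X, Polynomial.eval_pow, Polynomial.eval_zero,
          Polynomial.eval_one]
        push_cast
        ring
      have hW0 : W.eval t = 2 * ((D.A4 P x) * (4 * f * D.a1lin P x w) ^ 2 -
          (D.e1lin P x w) * (4 * f * D.A P x) * (4 * f * D.a1lin P x w) +
          D.e2 P x w * (4 * f * D.A P x) ^ 2 -
          (D.A4 P x) * (4 * f * D.A P x) * (4 * f * (3 * D.A' P x w))) := by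
        simp only [hW, Polynomial.eval_sub, Polynomial.eval_add, Polynomial.eval_mul,
          Polynomial.eval_pow, Polynomial.eval_C, a0, a1, a2, e0, e1, e2]
        ring
      have hW1 : (Polynomial.derivative W).eval t = 6 * ((D.A4 P x) * (4 * f * D.a1lin P x w) *
          (4 * f * (3 * D.A' P x w)) -
          (D.e1lin P x w) * (4 * f * D.A P x) * (4 * f * (3 * D.A' P x w)) +
          D.e3 P x w * (4 * f * D.A P x) ^ 2 -
          (D.A4 P x) * (4 * f * D.A P x) * (4 * f * D.A P w)) := by
        simp only [hW, Polynomial.derivative_sub, Polynomial.derivative_add,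
          Polynomial.derivative_mul, Polynomial.derivative_pow, Polynomial.derivative_C,
          Polynomial.eval_sub, Polynomial.eval_add, Polynomial.eval_mul,
          Polynomial.eval_pow, Polynomial.eval_C, Polynomial.eval_zero, a0, a1, a2, a3, e0, e1,
          e2, e3]
        push_cast
        ring
      have hY0 : pY.eval t = (D.A4 P x) ^ 2 * f ^ 2 -
          2 * (D.A4 P x) * f * D.c1 P x * (4 * f * D.A P x) +
          D.M P x * (4 * f * D.A P x) ^ 2 := by
        simp only [hpY, Polynomial.eval_sub, Polynomial.eval_add, Polynomial.eval_mul,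
          Polynomial.eval_pow, Polynomial.eval_C, a0, e0, l0, m0]
        ring
      have hY1 : (Polynomial.derivative pY).eval t = 2 * (D.A4 P x) * (D.e1lin P x w) * f ^ 2 -
          2 * f * ((D.e1lin P x w) * D.c1 P x * (4 * f * D.A P x) +
          (D.A4 P x) * (D.c1 P x * (4 * f * D.a1lin P x w) + D.c1 P w * (4 * f * D.A P x))) +
          2 * D.M P x * (4 * f * D.A P x) * (4 * f * D.a1lin P x w) +
          D.M1 P x w * (4 * f * D.A P x) ^ 2 := by
        simp only [hpY, Polynomial.derivative_sub, Polynomial.derivative_add,
          Polynomial.derivative_mul, Polynomial.derivative_pow, Polynomial.derivative_C,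
          Polynomial.eval_sub, Polynomial.eval_add, Polynomial.eval_mul,
          Polynomial.eval_pow, Polynomial.eval_C, Polynomial.eval_zero, a0, a1, e0, e1, l0, l1,
          m0, m1]
        push_cast
        ring
      have h4 := D.A_T_vel P x w rfl rfl rfl rfl rfl rfl rfl rfl rfl rfl
      rw [h3, mul_zero] at h4
      change Polynomial.eval t _ = 0
      rw [eval_ode, a0, a1, hW0, hW1, hY0, hY1]
      linear_combination (-6) * h4
    rcases mul_eq_zero.mp h1 with h2 | h2
    · exact absurd h2 (mul_ne_zero (pow_ne_zero 3 hpY0) hpa0)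
    · exact sub_eq_zero.mp h2
  obtain ⟨c₀, c₁, hc⟩ := linear_of_ode hF hpadeg (D.natDegree_lineE P x₀ w) hpY hpY0 hW hode
  refine ⟨c₀ * (4 * f), c₁ * (4 * f), ?_⟩
  have hc' : pe = (C c₀ + C c₁ * X) * pa := hc
  rw [hc', hpa]
  simp only [Polynomial.C_mul]
  ring

end QuarData

end Pool.Agent.Lib.MP42.Quar
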