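import Pool.Agent.Lib.MP_42de19_nt.Quar.Close

set_option autoImplicit false
set_option linter.unusedSimpArgs false

/-! The point `σ = 2z - x` on the curve `y² = F` over the line of `x, z`. -/

namespace Pool.Agent.Lib.MP42.Quar

open Topology Filter Set

namespace QuarData

section alg
variable {V : Type*} [NormedAddCommGroup V] [NormedSpace ℝ V] (D : QuarData V)

def E1 (x : V) (φ : ℝ) (z : V) (g : ℝ) : ℝ := 4 * (g * D.c1 x z + φ * D.c3 x z)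

def E2 (x : V) (φ : ℝ) (z : V) (g : ℝ) : ℝ :=
  6 * g ^ 2 * D.c2 x z - 4 * (D.c3 x z) ^ 2 + 2 * φ * g ^ 3

/-- the point `2z - x` -/
def sg (x : V) (φ : ℝ) (z : V) (g : ℝ) : V :=
  D.E2 x φ z g • x - (g * D.E1 x φ z g) • z

/-- the root of `F` at `sg` -/
def Ys (x : V) (φ : ℝ) (z : V) (g : ℝ) : ℝ :=
  φ * (D.E2 x φ z g) ^ 2 + 2 * D.c3 x z * D.E1 x φ z g * D.E2 x φ z g -
    g ^ 3 * (D.E1 x φ z g) ^ 2

theorem F_sg {x z : V} {φ g : ℝ} (hφ : φ ^ 2 = D.F x) (hg : g ^ 2 = D.F z) :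
    D.F (D.sg x φ z g) = (D.Ys x φ z g) ^ 2 := by
  rw [sg, F_sub_comb, ← hφ, ← hg, Ys]
  have h1 : D.E1 x φ z g = 4 * (g * D.c1 x z + φ * D.c3 x z) := rfl
  have h2 : D.E2 x φ z g = 6 * g ^ 2 * D.c2 x z - 4 * (D.c3 x z) ^ 2 + 2 * φ * g ^ 3 := rfl
  generalize D.E1 x φ z g = e1 at *
  generalize D.E2 x φ z g = e2 at *
  linear_combination (e2 ^ 3 * e1) * h1 - (e1 ^ 2 * e2 ^ 2) * h2

theorem c1_sub_comb (x z : V) (a b : ℝ) : D.c1 (a • x - b • z) z =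
    a ^ 3 * D.c1 x z - 3 * a ^ 2 * b * D.c2 x z + 3 * a * b ^ 2 * D.c3 x z - b ^ 3 * D.F z := by
  unfold c1 c2 c3 F
  simp only [map_add, map_sub, map_neg, map_smul,
    map_zero, LinearMap.add_apply, LinearMap.sub_apply, LinearMap.neg_apply, LinearMap.smul_apply,
    LinearMap.zero_apply, smul_eq_mul, QuarData.s12, QuarData.s23, QuarData.s34]
  ring

theorem c2_sub_comb (x z : V) (a b : ℝ) : D.c2 (a • x - b • z) z =
    a ^ 2 * D.c2 x z - 2 * a * b * D.c3 x z + b ^ 2 * D.F z := by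
  unfold c2 c3 F
  simp only [map_add, map_sub, map_neg, map_smul,
    map_zero, LinearMap.add_apply, LinearMap.sub_apply, LinearMap.neg_apply, LinearMap.smul_apply,
    LinearMap.zero_apply, smul_eq_mul, QuarData.s12, QuarData.s23, QuarData.s34]
  ring

theorem c3_sub_comb (x z : V) (a b : ℝ) : D.c3 (a • x - b • z) z =
    a * D.c3 x z - b * D.F z := by
  unfold c3 F
  simp only [map_add, map_sub, map_neg, map_smul,
    map_zero, LinearMap.add_apply, LinearMap.sub_apply, LinearMap.neg_apply, LinearMap.smul_apply,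
    LinearMap.zero_apply, smul_eq_mul, QuarData.s12, QuarData.s23, QuarData.s34]

theorem E2_sg {x z : V} {φ g : ℝ} (hg : g ^ 2 = D.F z) :
    D.E2 (D.sg x φ z g) (D.Ys x φ z g) z g = (D.E2 x φ z g) ^ 3 := by
  have h1 : D.E1 x φ z g = 4 * (g * D.c1 x z + φ * D.c3 x z) := rfl
  have h2 : D.E2 x φ z g = 6 * g ^ 2 * D.c2 x z - 4 * (D.c3 x z) ^ 2 + 2 * φ * g ^ 3 := rfl
  have h3 : D.E2 (D.sg x φ z g) (D.Ys x φ z g) z g = 6 * g ^ 2 * D.c2 (D.sg x φ z g) z -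
      4 * (D.c3 (D.sg x φ z g) z) ^ 2 + 2 * (D.Ys x φ z g) * g ^ 3 := rfl
  rw [h3, sg, c2_sub_comb, c3_sub_comb, ← hg, Ys]
  generalize D.E1 x φ z g = e1 at *
  generalize D.E2 x φ z g = e2 at *
  linear_combination (-e2 ^ 2) * h2

theorem E1_sg {x z : V} {φ g : ℝ} (hg : g ^ 2 = D.F z) :
    D.E1 (D.sg x φ z g) (D.Ys x φ z g) z g = -(D.E2 x φ z g) ^ 3 * D.E1 x φ z g := by
  have h1 : D.E1 x φ z g = 4 * (g * D.c1 x z + φ * D.c3 x z) := rfl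
  have h2 : D.E2 x φ z g = 6 * g ^ 2 * D.c2 x z - 4 * (D.c3 x z) ^ 2 + 2 * φ * g ^ 3 := rfl
  have h3 : D.E1 (D.sg x φ z g) (D.Ys x φ z g) z g = 4 * (g * D.c1 (D.sg x φ z g) z +
      (D.Ys x φ z g) * D.c3 (D.sg x φ z g) z) := rfl
  rw [h3, sg, c1_sub_comb, c3_sub_comb, ← hg, Ys]
  generalize D.E1 x φ z g = e1 at *
  generalize D.E2 x φ z g = e2 at *
  linear_combination (-e2 ^ 3) * h1 + (2 * e2 ^ 2 * e1) * h2

/-- the involution -/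
theorem sg_sg {x z : V} {φ g : ℝ} (hg : g ^ 2 = D.F z) :
    D.sg (D.sg x φ z g) (D.Ys x φ z g) z g = (D.E2 x φ z g) ^ 4 • x := by
  conv_lhs => rw [sg]
  rw [E2_sg D hg, E1_sg D hg]
  rw [sg, smul_sub, smul_smul, smul_smul, sub_sub, ← add_smul]
  have h1 : (D.E2 x φ z g) ^ 3 * (g * D.E1 x φ z g) + g * (-(D.E2 x φ z g) ^ 3 * D.E1 x φ z g) = 0 := by
    ring
  rw [h1, zero_smul, sub_zero]
  congr 1

theorem ratQ_E1 {a b : V} (ha : a ∈ D.Q) (hb : b ∈ D.Q) {φ g : ℝ} (hφ : ∃ q : ℚ, φ = q)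
    (hg : ∃ q : ℚ, g = q) : ∃ r : ℚ, D.E1 a φ b g = r := by
  obtain ⟨p, rfl⟩ := hφ
  obtain ⟨q, rfl⟩ := hg
  obtain ⟨x, hx⟩ := D.ratQ_c1 ha hb
  obtain ⟨z, hz⟩ := D.ratQ_c3 ha hb
  exact ⟨4 * (q * x + p * z), by unfold E1; rw [hx, hz]; push_cast; ring⟩

theorem ratQ_E2 {a b : V} (ha : a ∈ D.Q) (hb : b ∈ D.Q) {φ g : ℝ} (hφ : ∃ q : ℚ, φ = q)
    (hg : ∃ q : ℚ, g = q) : ∃ r : ℚ, D.E2 a φ b g = r := by
  obtain ⟨p, rfl⟩ := hφ
  obtain ⟨q, rfl⟩ := hg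
  obtain ⟨y, hy⟩ := D.ratQ_c2 ha hb
  obtain ⟨z, hz⟩ := D.ratQ_c3 ha hb
  exact ⟨6 * q ^ 2 * y - 4 * z ^ 2 + 2 * p * q ^ 3, by unfold E2; rw [hy, hz]; push_cast; ring⟩

theorem ratQ_Ys {a b : V} (ha : a ∈ D.Q) (hb : b ∈ D.Q) {φ g : ℝ} (hφ : ∃ q : ℚ, φ = q)
    (hg : ∃ q : ℚ, g = q) : ∃ r : ℚ, D.Ys a φ b g = r := by
  obtain ⟨x, hx⟩ := D.ratQ_E1 ha hb hφ hg
  obtain ⟨y, hy⟩ := D.ratQ_E2 ha hb hφ hg
  obtain ⟨z, hz⟩ := D.ratQ_c3 ha hb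
  obtain ⟨p, rfl⟩ := hφ
  obtain ⟨q, rfl⟩ := hg
  exact ⟨p * y ^ 2 + 2 * z * x * y - q ^ 3 * x ^ 2, by unfold Ys; rw [hx, hy, hz]; push_cast; ring⟩

/-- rational points of the double cover -/
def ratXs : Set (V × ℝ) := {p | p.1 ∈ D.ratX ∧ (∃ q : ℚ, p.2 = q) ∧ p.2 ^ 2 = D.F p.1}

theorem sg_mem_ratX {p q : V × ℝ} (hp : p ∈ D.ratXs) (hq : q ∈ D.ratXs)
    (hY : D.Ys p.1 p.2 q.1 q.2 ≠ 0) : D.sg p.1 p.2 q.1 q.2 ∈ D.ratX := by
  obtain ⟨⟨hp1, -⟩, hp2, hp3⟩ := hp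
  obtain ⟨⟨hq1, -⟩, hq2, hq3⟩ := hq
  obtain ⟨y, hy⟩ := D.ratQ_Ys hp1 hq1 hp2 hq2
  refine ⟨?_, y, ?_, ?_⟩
  · refine D.sub_mem_Q (D.smul_mem_Q hp1 (D.ratQ_E2 hp1 hq1 hp2 hq2)) (D.smul_mem_Q hq1 ?_)
    obtain ⟨b, hb⟩ := D.ratQ_E1 hp1 hq1 hp2 hq2
    obtain ⟨c, hc⟩ := hq2
    exact ⟨c * b, by rw [hb, hc]; push_cast; ring⟩
  · rintro rfl
    exact hY (by rw [hy]; simp)
  · rw [D.F_sg hp3 hq3, hy]

end alg

variable {V : Type*} [NormedAddCommGroup V] [NormedSpace ℝ V] [FiniteDimensional ℝ V]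
  (D : QuarData V)

theorem mem_closure_ratXs {x : V} {φ : ℝ} (hx : x ∈ D.K) (hφ : φ ^ 2 = D.F x) :
    (x, φ) ∈ closure D.ratXs := by
  obtain ⟨ε, hε, hεφ⟩ : ∃ ε : ℚ, ε ^ 2 = 1 ∧ φ = (ε : ℝ) * √(D.F x) := by
    rw [← hφ, Real.sqrt_sq_eq_abs]
    rcases le_total 0 φ with h | h
    · exact ⟨1, by norm_num, by rw [abs_of_nonneg h]; push_cast; ring⟩
    · exact ⟨-1, by norm_num, by rw [abs_of_nonpos h]; push_cast; ring⟩
  have hε' : (ε : ℝ) ^ 2 = 1 := by exact_mod_cast hε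
  have hc : Continuous fun v : V => (v, (ε : ℝ) * √(D.F v)) :=
    continuous_id.prodMk (continuous_const.mul (Real.continuous_sqrt.comp (D.cont_F continuous_id)))
  have h1 := map_mem_closure (f := fun v : V => (v, (ε : ℝ) * √(D.F v))) hc hx
    (t := D.ratXs) ?_
  · rw [hεφ]
    exact h1
  · intro v hv
    refine ⟨hv, ?_, ?_⟩
    · obtain ⟨-, r, -, hr⟩ := hv
      refine ⟨ε * |r|, ?_⟩
      show (ε : ℝ) * √(D.F v) = _
      rw [hr, Real.sqrt_sq_eq_abs]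
      push_cast
      ring
    · show ((ε : ℝ) * √(D.F v)) ^ 2 = D.F v
      rw [mul_pow, hε', Real.sq_sqrt (D.ratX_subset_S hv : 0 < D.F v).le, one_mul]

section cont
variable {Y : Type*} [TopologicalSpace Y] {f h : Y → V} {φ g : Y → ℝ}

theorem cont_E1 (hf : Continuous f) (hφ : Continuous φ) (hh : Continuous h) (hg : Continuous g) :
    Continuous fun y => D.E1 (f y) (φ y) (h y) (g y) :=
  continuous_const.mul ((hg.mul (D.cont_c1 hf hh)).add (hφ.mul (D.cont_c3 hf hh)))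

theorem cont_E2 (hf : Continuous f) (hφ : Continuous φ) (hh : Continuous h) (hg : Continuous g) :
    Continuous fun y => D.E2 (f y) (φ y) (h y) (g y) :=
  (((continuous_const.mul (hg.pow 2)).mul (D.cont_c2 hf hh)).sub
    (continuous_const.mul ((D.cont_c3 hf hh).pow 2))).add ((continuous_const.mul hφ).mul (hg.pow 3))

theorem cont_sg (hf : Continuous f) (hφ : Continuous φ) (hh : Continuous h) (hg : Continuous g) :
    Continuous fun y => D.sg (f y) (φ y) (h y) (g y) :=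
  ((D.cont_E2 hf hφ hh hg).smul hf).sub ((hg.mul (D.cont_E1 hf hφ hh hg)).smul hh)

theorem cont_Ys (hf : Continuous f) (hφ : Continuous φ) (hh : Continuous h) (hg : Continuous g) :
    Continuous fun y => D.Ys (f y) (φ y) (h y) (g y) :=
  ((hφ.mul ((D.cont_E2 hf hφ hh hg).pow 2)).add (((continuous_const.mul (D.cont_c3 hf hh)).mul
    (D.cont_E1 hf hφ hh hg)).mul (D.cont_E2 hf hφ hh hg))).sub
    ((hg.pow 3).mul ((D.cont_E1 hf hφ hh hg).pow 2))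

end cont

/-- `K` is closed under `(x, z) ↦ 2z - x` -/
theorem sg_mem_K {x z : V} {φ g : ℝ} (hx : x ∈ D.K) (hz : z ∈ D.K) (hφ : φ ^ 2 = D.F x)
    (hg : g ^ 2 = D.F z) (hY : D.Ys x φ z g ≠ 0) : D.sg x φ z g ∈ D.K := by
  have h2 : ((x, φ), (z, g)) ∈ closure (D.ratXs ×ˢ D.ratXs) := by
    rw [closure_prod_eq]
    exact ⟨D.mem_closure_ratXs hx hφ, D.mem_closure_ratXs hz hg⟩
  have c1 : Continuous fun p : (V × ℝ) × (V × ℝ) => p.1.1 := continuous_fst.comp continuous_fst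
  have c2 : Continuous fun p : (V × ℝ) × (V × ℝ) => p.1.2 := continuous_snd.comp continuous_fst
  have c3 : Continuous fun p : (V × ℝ) × (V × ℝ) => p.2.1 := continuous_fst.comp continuous_snd
  have c4 : Continuous fun p : (V × ℝ) × (V × ℝ) => p.2.2 := continuous_snd.comp continuous_snd
  have hO : IsOpen {p : (V × ℝ) × (V × ℝ) | D.Ys p.1.1 p.1.2 p.2.1 p.2.2 ≠ 0} :=
    isOpen_ne.preimage (D.cont_Ys c1 c2 c3 c4)
  refine mem_closure_iff.mpr fun O' hO' hT => ?_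
  obtain ⟨p, hp1, hp2⟩ := mem_closure_iff.mp h2
    ((fun p : (V × ℝ) × (V × ℝ) => D.sg p.1.1 p.1.2 p.2.1 p.2.2) ⁻¹' O' ∩
    {p : (V × ℝ) × (V × ℝ) | D.Ys p.1.1 p.1.2 p.2.1 p.2.2 ≠ 0})
    ((hO'.preimage (D.cont_sg c1 c2 c3 c4)).inter hO) ⟨hT, hY⟩
  exact ⟨D.sg p.1.1 p.1.2 p.2.1 p.2.2, hp1.1, D.sg_mem_ratX hp2.1 hp2.2 hp1.2⟩

end QuarData

end Pool.Agent.Lib.MP42.Quar
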