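import Pool.Agent.Lib.MP_42de19_nt.Quar.Coord
import Pool.Agent.Lib.MP_42de19_nt.Quar.Arc

set_option autoImplicit false

/-! Statements of the pieces (scratch file, not imported by the result). -/

namespace Pool.Agent.Lib.MP42.Quar

open Topology Filter Set
open Pool.Agent.Lib.MP42.CubicHyp (castV ratV dense_ratV)

/-- [QH] homogenisation. File `Quar/Homog.lean`. -/
def S_homog : Prop := ∀ {n : ℕ} (f : MvPolynomial (Fin n) ℚ), f.totalDegree ≤ 4 →
    ∃ T : SymT4 (n + 1), ∀ x : Fin n → ℝ, (MvPolynomial.aeval x f : ℝ) =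
      (quar T).F (Fin.cons 1 x)

/-- [QV] a rational vertex. File `Quar/Vertex.lean`. -/
def S_vertex : Prop := ∀ {N : ℕ}, (∀ T : SymT4 N, SA (evR N) ((quar T).K ∩ (quar T).S)) →
    ∀ (T : SymT4 (N + 1)) (a : Fin (N + 1) → ℝ), a ∈ ratV (N + 1) → a ≠ 0 → (quar T).B a = 0 →
    SA (evR (N + 1)) ((quar T).K ∩ (quar T).S)

/-- [QV] the vertex is a rational subspace. File `Quar/Vertex.lean`. -/
def S_ratVertex : Prop := ∀ {N : ℕ} (T : SymT4 N), ¬ (quar T).NoVertex →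
    ∃ a ∈ ratV N, a ≠ 0 ∧ (quar T).B a = 0

/-- [QS] binary forms. File `Quar/Small.lean`. -/
def S_small : Prop := ∀ {N : ℕ}, N ≤ 2 → ∀ T : SymT4 N, SA (evR N) ((quar T).K ∩ (quar T).S)

/-- [QL] a rational linear factor. File `Quar/Lin.lean`. -/
def S_lin : Prop := ∀ {N : ℕ} (T : SymT4 N) (l : (Fin N → ℝ) →ₗ[ℝ] ℝ), (quar T).RatFun l →
    l ≠ 0 → (∀ v, l v = 0 → (quar T).F v = 0) → SA (evR N) ((quar T).K ∩ (quar T).S)

/-- [QP] all rational points special. File `Quar/AllSpecial.lean`. -/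
def S_special : Prop := ∀ {N : ℕ} (T : SymT4 N), (∀ P ∈ (quar T).ratX, (quar T).Special P) →
    SA (evR N) ((quar T).K ∩ (quar T).S)

/-- [QO] openness. File `Quar/Open.lean`. -/
def S_open : Prop := ∀ {V : Type} [NormedAddCommGroup V] [NormedSpace ℝ V]
    [FiniteDimensional ℝ V] (D : QuarData V), D.HasInt → ∀ P ∈ D.S, ¬ D.Special P →
    IsOpen (D.K ∩ D.S)

/-- [QI] interior (helper79). -/
def S_int : Prop := ∀ {V : Type} [NormedAddCommGroup V] [NormedSpace ℝ V]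
    [FiniteDimensional ℝ V] (D : QuarData V), D.NoVertex → D.NoLin → 3 ≤ Module.finrank ℝ V →
    ∀ P ∈ D.ratX, ¬ D.Special P → D.HasInt

end Pool.Agent.Lib.MP42.Quar
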